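import Pool.Agent.T2h33.RG.Stm

/-!
# Project RG: basic lemmas on polynomial growth (helper33)
-/

set_option autoImplicit false
set_option linter.all false

open MeasureTheory ProbabilityTheory Filter Topology Set
open scoped NNReal ENNReal

namespace Pool.Agent.T2h33.RG

variable {Ω : Type} {mΩ : MeasurableSpace Ω} {W : ℝ≥0 → Ω → ℝ}

/-! ### suprema -/

lemma ssup_bdd {m : ℝ≥0 → ℝ} (hm : Continuous m) (s t : ℝ≥0) : BddAbove (m '' Icc s t) :=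
  (isCompact_Icc.image hm).bddAbove

lemma le_ssup {m : ℝ≥0 → ℝ} (hm : Continuous m) {s t u : ℝ≥0} (h1 : s ≤ u) (h2 : u ≤ t) :
    m u ≤ ssup m s t := le_csSup (ssup_bdd hm s t) ⟨u, ⟨h1, h2⟩, rfl⟩

lemma ssup_mono {m : ℝ≥0 → ℝ} (hm : Continuous m) {s t s' t' : ℝ≥0} (h1 : s' ≤ s) (h2 : t ≤ t')
    (hst : s ≤ t) : ssup m s t ≤ ssup m s' t' :=
  csSup_le_csSup (ssup_bdd hm _ _) ⟨m s, s, ⟨le_rfl, hst⟩, rfl⟩
    (image_mono (Icc_subset_Icc h1 h2))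

lemma ssup_le {m : ℝ≥0 → ℝ} {s t : ℝ≥0} {c : ℝ} (hst : s ≤ t) (h : ∀ u, s ≤ u → u ≤ t → m u ≤ c) :
    ssup m s t ≤ c := by
  refine csSup_le ⟨m s, s, ⟨le_rfl, hst⟩, rfl⟩ ?_
  rintro _ ⟨u, hu, rfl⟩
  exact h u hu.1 hu.2

/-! ### the paths of `M` -/

lemma mm_pos (t : ℝ≥0) (ω : Ω) : 0 < mm W t ω := Real.exp_pos _

lemma pm_pos (ω : Ω) (t : ℝ≥0) : 0 < pm W ω t := Real.exp_pos _

lemma log_mm (t : ℝ≥0) (ω : Ω) : Real.log (mm W t ω) = W t ω - t / 2 := Real.log_exp _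

lemma BMF.pm_cont {P : Measure Ω} {F : Filtration ℝ≥0 mΩ} (h : BMF P F W) (ω : Ω) :
    Continuous (pm W ω) := by
  unfold pm mm
  have := h.cont ω
  fun_prop

lemma BMF.pm_lim {P : Measure Ω} {F : Filtration ℝ≥0 mΩ} (h : BMF P F W) (ω : Ω) :
    Tendsto (pm W ω) atTop (𝓝 0) := h.lim ω

lemma BMF.mm_meas {P : Measure Ω} {F : Filtration ℝ≥0 mΩ} (h : BMF P F W) {s t : ℝ≥0} (hst : s ≤ t) :
    Measurable[F t] (mm W s) := by
  have h1 : Measurable[F t] (W s) := (h.adapted s).mono (F.mono hst) le_rfl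
  have h2 : Measurable[F t] (fun ω => W s ω - (s : ℝ) / 2) := h1.sub measurable_const
  exact Real.measurable_exp.comp h2

lemma mm_zero {P : Measure Ω} {F : Filtration ℝ≥0 mΩ} (h : BMF P F W) (ω : Ω) : mm W 0 ω = 1 := by
  unfold mm
  rw [h.zero]
  simp

lemma mm_le_ssup {P : Measure Ω} {F : Filtration ℝ≥0 mΩ} (h : BMF P F W) {s u t : ℝ≥0} (h1 : s ≤ u)
    (h2 : u ≤ t) (ω : Ω) : mm W u ω ≤ ssup (pm W ω) s t := le_ssup (h.pm_cont ω) h1 h2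

lemma ssup_pos {P : Measure Ω} {F : Filtration ℝ≥0 mΩ} (h : BMF P F W) {s t : ℝ≥0} (h1 : s ≤ t)
    (ω : Ω) : 0 < ssup (pm W ω) s t := (pm_pos ω s).trans_le (le_ssup (h.pm_cont ω) le_rfl h1)

/-! ### polynomial growth -/

lemma Pg.of_abs_le {T : ℝ≥0} {Z Z' : Ω → ℝ} (hZ : Pg W T Z') (h : ∀ ω, |Z ω| ≤ |Z' ω|) : Pg W T Z := by
  obtain ⟨C, p, hC⟩ := hZ
  exact ⟨C, p, fun ω => (h ω).trans (hC ω)⟩

lemma Pg.const (T : ℝ≥0) (c : ℝ) : Pg W T (fun _ => c) := ⟨|c|, 0, fun ω => by simp⟩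

/-- `x log x` -/
lemma abs_mul_log_le {x : ℝ} (hx : 0 < x) : |x * Real.log x| ≤ 1 + x ^ 2 := by
  have h1 : Real.log x ≤ x - 1 := Real.log_le_sub_one_of_pos hx
  have h2 : Real.log x⁻¹ ≤ x⁻¹ - 1 := Real.log_le_sub_one_of_pos (inv_pos.2 hx)
  rw [Real.log_inv] at h2
  rw [abs_le]
  constructor
  · have h3 : -(x * Real.log x) ≤ x * (x⁻¹ - 1) := by
      have := mul_le_mul_of_nonneg_left h2 hx.le
      linarith
    rw [mul_sub, mul_inv_cancel₀ hx.ne', mul_one] at h3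
    nlinarith
  · have := mul_le_mul_of_nonneg_left h1 hx.le
    nlinarith

section
variable {P : Measure Ω} {F : Filtration ℝ≥0 mΩ} (h : BMF P F W)
include h

lemma one_le_base (T : ℝ≥0) (ω : Ω) : 1 ≤ 1 + ssup (pm W ω) 0 T := by
  have := ssup_pos h (zero_le (a := T)) ω
  linarith

lemma Pg.exists_nonneg {T : ℝ≥0} {Z : Ω → ℝ} (hZ : Pg W T Z) :
    ∃ (C : ℝ) (p : ℕ), 0 ≤ C ∧ ∀ ω, |Z ω| ≤ C * (1 + ssup (pm W ω) 0 T) ^ p := by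
  obtain ⟨C, p, hC⟩ := hZ
  refine ⟨|C|, p, abs_nonneg C, fun ω => (hC ω).trans ?_⟩
  have h1 : 0 ≤ (1 + ssup (pm W ω) 0 T) ^ p :=
    pow_nonneg (zero_le_one.trans (one_le_base h T ω)) p
  exact mul_le_mul_of_nonneg_right (le_abs_self C) h1

lemma Pg.add {T : ℝ≥0} {Z Z' : Ω → ℝ} (hZ : Pg W T Z) (hZ' : Pg W T Z') :
    Pg W T (fun ω => Z ω + Z' ω) := by
  obtain ⟨C, p, hC0, hC⟩ := hZ.exists_nonneg h
  obtain ⟨D, q, hD0, hD⟩ := hZ'.exists_nonneg h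
  refine ⟨C + D, p + q, fun ω => ?_⟩
  have h1 := one_le_base h T ω
  have h2 : (1 + ssup (pm W ω) 0 T) ^ p ≤ (1 + ssup (pm W ω) 0 T) ^ (p + q) :=
    pow_le_pow_right₀ h1 (Nat.le_add_right _ _)
  have h3 : (1 + ssup (pm W ω) 0 T) ^ q ≤ (1 + ssup (pm W ω) 0 T) ^ (p + q) :=
    pow_le_pow_right₀ h1 (Nat.le_add_left _ _)
  calc |Z ω + Z' ω| ≤ |Z ω| + |Z' ω| := abs_add_le _ _
    _ ≤ C * (1 + ssup (pm W ω) 0 T) ^ p + D * (1 + ssup (pm W ω) 0 T) ^ q := add_le_add (hC ω) (hD ω)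
    _ ≤ C * (1 + ssup (pm W ω) 0 T) ^ (p + q) + D * (1 + ssup (pm W ω) 0 T) ^ (p + q) :=
      add_le_add (mul_le_mul_of_nonneg_left h2 hC0) (mul_le_mul_of_nonneg_left h3 hD0)
    _ = _ := by ring

lemma Pg.mul {T : ℝ≥0} {Z Z' : Ω → ℝ} (hZ : Pg W T Z) (hZ' : Pg W T Z') :
    Pg W T (fun ω => Z ω * Z' ω) := by
  obtain ⟨C, p, hC0, hC⟩ := hZ.exists_nonneg h
  obtain ⟨D, q, hD0, hD⟩ := hZ'.exists_nonneg h
  refine ⟨C * D, p + q, fun ω => ?_⟩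
  rw [abs_mul]
  calc |Z ω| * |Z' ω| ≤ (C * (1 + ssup (pm W ω) 0 T) ^ p) * (D * (1 + ssup (pm W ω) 0 T) ^ q) :=
        mul_le_mul (hC ω) (hD ω) (abs_nonneg _) ((abs_nonneg _).trans (hC ω))
    _ = _ := by ring

lemma Pg.mono {T T' : ℝ≥0} {Z : Ω → ℝ} (hZ : Pg W T Z) (hT : T ≤ T') : Pg W T' Z := by
  obtain ⟨C, p, hC0, hC⟩ := hZ.exists_nonneg h
  refine ⟨C, p, fun ω => (hC ω).trans ?_⟩
  have h1 := one_le_base h T ω
  exact mul_le_mul_of_nonneg_left (pow_le_pow_left₀ (zero_le_one.trans h1)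
    (by have := ssup_mono (h.pm_cont ω) le_rfl hT (zero_le (a := T)); linarith) p) hC0

lemma Pg.neg {T : ℝ≥0} {Z : Ω → ℝ} (hZ : Pg W T Z) : Pg W T (fun ω => -Z ω) :=
  hZ.of_abs_le fun ω => by rw [abs_neg]

lemma Pg.sub {T : ℝ≥0} {Z Z' : Ω → ℝ} (hZ : Pg W T Z) (hZ' : Pg W T Z') :
    Pg W T (fun ω => Z ω - Z' ω) := by
  simpa [sub_eq_add_neg] using hZ.add h (hZ'.neg h)

lemma Pg.pow {T : ℝ≥0} {Z : Ω → ℝ} (hZ : Pg W T Z) (k : ℕ) : Pg W T (fun ω => Z ω ^ k) := by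
  obtain ⟨C, p, hC⟩ := hZ
  refine ⟨C ^ k, p * k, fun ω => ?_⟩
  rw [abs_pow]
  calc |Z ω| ^ k ≤ (C * (1 + ssup (pm W ω) 0 T) ^ p) ^ k := pow_le_pow_left₀ (abs_nonneg _) (hC ω) k
    _ = _ := by rw [mul_pow, pow_mul]

/-- the supremum -/
lemma Pg.ssup {s t T : ℝ≥0} (hst : s ≤ t) (htT : t ≤ T) : Pg W T (fun ω => RG.ssup (pm W ω) s t) := by
  refine ⟨1, 1, fun ω => ?_⟩
  rw [abs_of_pos (ssup_pos h hst ω), pow_one, one_mul]
  have := ssup_mono (h.pm_cont ω) (zero_le (a := s)) htT hst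
  linarith

/-- the martingale -/
lemma Pg.mm {t T : ℝ≥0} (htT : t ≤ T) : Pg W T (RG.mm W t) := by
  refine (Pg.ssup h (le_refl t) htT).of_abs_le fun ω => ?_
  rw [abs_of_pos (mm_pos t ω), abs_of_pos (ssup_pos h le_rfl ω)]
  exact mm_le_ssup h le_rfl le_rfl ω

lemma Pg.mul_log {t T : ℝ≥0} (htT : t ≤ T) :
    Pg W T (fun ω => RG.mm W t ω * Real.log (RG.mm W t ω)) := by
  refine ((Pg.const T (1 : ℝ)).add h ((Pg.mm h htT).pow h 2)).of_abs_le fun ω => ?_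
  refine (abs_mul_log_le (mm_pos t ω)).trans (le_abs_self _)

/-- functions of polynomial growth are integrable -/
lemma Pg.integrable [IsProbabilityMeasure P] (hP : S_PTH) (hS : S_SUPM) {T : ℝ≥0} {Z : Ω → ℝ}
    (hZ : Pg W T Z) (hm : Measurable Z) : Integrable Z P := by
  obtain ⟨C, p, hC⟩ := hZ
  refine Integrable.mono' ((hS hP Ω mΩ P F W h T p).const_mul C) hm.aestronglyMeasurable ?_
  exact Eventually.of_forall fun ω => hC ω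

end

end Pool.Agent.T2h33.RG
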