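import Mathlib

/-!
# A continuous martingale which is not a regular semimartingale in a larger filtration

`W` is a Brownian motion for the filtration `F`, `M_t = exp (W_t - t / 2)`, `K_t = sup_{u ≥ t} M_u`,
`G_t = F_t ∨ σ(K_t)`.  Then `M = N + A` with `N_t = M_t - ∫_0^t M_u du + 2 (K_0 - K_t)` a
`G`-martingale, `A_t = ∫_0^t M_u du - 2 (K_0 - K_t)`.
-/

set_option autoImplicit false

open MeasureTheory ProbabilityTheory Filter Topology Set
open scoped NNReal ENNReal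

namespace Pool.Agent.T2h33.RG

/-! ### paths -/

/-- the supremum over `[s, t]` -/
noncomputable def ssup (m : ℝ≥0 → ℝ) (s t : ℝ≥0) : ℝ := sSup (m '' Icc s t)

/-- the supremum over `[t, ∞)` -/
noncomputable def fsup (m : ℝ≥0 → ℝ) (t : ℝ≥0) : ℝ := sSup (m '' Ici t)

/-- the integral over `[s, t]` -/
noncomputable def jint (m : ℝ≥0 → ℝ) (s t : ℝ≥0) : ℝ := ∫ u in (s : ℝ)..t, m u.toNNReal

/-- the grid points `s + j (t - s) / n` -/
noncomputable def gp (s t : ℝ≥0) (n j : ℕ) : ℝ≥0 := s + (j : ℝ≥0) * ((t - s) / n)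

/-- the maximum of `x 0, …, x j` -/
noncomputable def mx (x : ℕ → ℝ) : ℕ → ℝ
  | 0 => x 0
  | j + 1 => max (mx x j) (x (j + 1))

/-- the maximum of the `|x (i + 1) - x i|`, `i < j` -/
noncomputable def osc (x : ℕ → ℝ) : ℕ → ℝ
  | 0 => 0
  | j + 1 => max (osc x j) |x (j + 1) - x j|

/-- the Riemann sum -/
noncomputable def sm (x : ℕ → ℝ) (Δ : ℝ) (j : ℕ) : ℝ := Δ * ∑ i ∈ Finset.range j, x i

/-- the function `a` is absolutely continuous with respect to the nondecreasing function `q` on all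
compact intervals: for all `T` and `ε` there is `δ` such that `∑ |a (y i) - a (x i)| < ε` for all
finite families of disjoint intervals `(x i, y i)` in `[0, T]` with `∑ (q (y i) - q (x i)) < δ` -/
def ACwrt (a q : ℝ≥0 → ℝ) : Prop :=
  ∀ T : ℝ≥0, ∀ ε : ℝ, 0 < ε → ∃ δ : ℝ, 0 < δ ∧ ∀ (n : ℕ) (x y : Fin n → ℝ≥0),
    (∀ i, x i ≤ y i ∧ y i ≤ T) → (∀ i j, i ≠ j → Disjoint (Ioo (x i) (y i)) (Ioo (x j) (y j))) →
    ∑ i, (q (y i) - q (x i)) < δ → ∑ i, |a (y i) - a (x i)| < ε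

/-- the function `a` has finite variation on all compact intervals -/
def FVar (a : ℝ≥0 → ℝ) : Prop := ∀ T : ℝ≥0, BoundedVariationOn a (Icc 0 T)

/-! ### processes -/

variable {Ω : Type} {mΩ : MeasurableSpace Ω}

/-- `W` is a Brownian motion with respect to the filtration `F` which contains all null sets, all
paths are continuous, and `exp (W_t - t / 2) → 0` -/
structure BMF (P : Measure Ω) (F : Filtration ℝ≥0 mΩ) (W : ℝ≥0 → Ω → ℝ) : Prop where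
  cont : ∀ ω, Continuous fun t => W t ω
  zero : ∀ ω, W 0 ω = 0
  adapted : ∀ t, Measurable[F t] (W t)
  null : ∀ (t : ℝ≥0) (A : Set Ω), P A = 0 → MeasurableSet[F t] A
  indep : ∀ s t, s ≤ t →
    Indep (F s) (MeasurableSpace.comap (fun ω => W t ω - W s ω) inferInstance) P
  law : ∀ s t, s ≤ t → P.map (fun ω => W t ω - W s ω) = gaussianReal 0 (t - s)
  lim : ∀ ω, Tendsto (fun t : ℝ≥0 => Real.exp (W t ω - t / 2)) atTop (𝓝 0)

/-- `M_t = exp (W_t - t / 2)` -/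
noncomputable def mm (W : ℝ≥0 → Ω → ℝ) (t : ℝ≥0) (ω : Ω) : ℝ := Real.exp (W t ω - t / 2)

/-- the path `t ↦ M_t(ω)` -/
noncomputable def pm (W : ℝ≥0 → Ω → ℝ) (ω : Ω) (t : ℝ≥0) : ℝ := mm W t ω

/-- `K_t = sup_{u ≥ t} M_u` -/
noncomputable def KK (W : ℝ≥0 → Ω → ℝ) (t : ℝ≥0) (ω : Ω) : ℝ := fsup (pm W ω) t

/-- the part of finite variation -/
noncomputable def AA (W : ℝ≥0 → Ω → ℝ) (t : ℝ≥0) (ω : Ω) : ℝ :=
  jint (pm W ω) 0 t - 2 * (KK W 0 ω - KK W t ω)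

/-- the martingale part -/
noncomputable def NN (W : ℝ≥0 → Ω → ℝ) (t : ℝ≥0) (ω : Ω) : ℝ := mm W t ω - AA W t ω

/-- the quadratic variation -/
noncomputable def QQ (W : ℝ≥0 → Ω → ℝ) (t : ℝ≥0) (ω : Ω) : ℝ := jint (fun u => pm W ω u ^ 2) 0 t

/-- `Z` is bounded by a polynomial in `sup_{[0, T]} M` -/
def Pg (W : ℝ≥0 → Ω → ℝ) (T : ℝ≥0) (Z : Ω → ℝ) : Prop :=
  ∃ (C : ℝ) (p : ℕ), ∀ ω, |Z ω| ≤ C * (1 + ssup (pm W ω) 0 T) ^ p

end Pool.Agent.T2h33.RG
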