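import Pool.Agent.T2h33.RG.Basic

/-! # Project RG, task ASM (helper85) -/

set_option autoImplicit false
set_option linter.all false

open MeasureTheory ProbabilityTheory Filter Topology Set
open scoped NNReal ENNReal

namespace Pool.Agent.T2h33.RG

namespace ASM

variable {Ω : Type} {mΩ : MeasurableSpace Ω} {W : ℝ≥0 → Ω → ℝ}

lemma cont_toNN {m : ℝ≥0 → ℝ} (hm : Continuous m) : Continuous (fun u : ℝ => m u.toNNReal) := by
  fun_prop

lemma jint_add {m : ℝ≥0 → ℝ} (hm : Continuous m) (r s t : ℝ≥0) :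
    jint m r s + jint m s t = jint m r t := by
  unfold jint
  exact intervalIntegral.integral_add_adjacent_intervals
    ((cont_toNN hm).intervalIntegrable _ _) ((cont_toNN hm).intervalIntegrable _ _)

lemma abs_jint_le {m : ℝ≥0 → ℝ} (hm : Continuous m) (hp : ∀ u, 0 < m u) {s t : ℝ≥0} (hst : s ≤ t) :
    |jint m s t| ≤ ssup m s t * ((t : ℝ) - s) := by
  have h1 : ‖∫ u in (s : ℝ)..t, m u.toNNReal‖ ≤ ssup m s t * |(t : ℝ) - s| := by
    refine intervalIntegral.norm_integral_le_of_norm_le_const fun x hx => ?_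
    have hst' : (s : ℝ) ≤ t := by exact_mod_cast hst
    rw [uIoc_of_le hst'] at hx
    have h0 : 0 ≤ x := s.2.trans hx.1.le
    rw [Real.norm_eq_abs, abs_of_pos (hp _)]
    refine le_ssup hm ?_ ?_
    · rw [Real.le_toNNReal_iff_coe_le h0]; exact hx.1.le
    · rw [Real.toNNReal_le_iff_le_coe]; exact hx.2
  have h2 : (0 : ℝ) ≤ (t : ℝ) - s := sub_nonneg.2 (by exact_mod_cast hst)
  rw [abs_of_nonneg h2, Real.norm_eq_abs] at h1
  exact h1

section
variable {P : Measure Ω} {F : Filtration ℝ≥0 mΩ} (h : BMF P F W)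
include h

lemma Pg_jint {s t T : ℝ≥0} (hst : s ≤ t) (htT : t ≤ T) :
    Pg W T (fun ω => jint (pm W ω) s t) := by
  refine ((Pg.ssup h hst htT).mul h (Pg.const T ((t : ℝ) - s))).of_abs_le fun ω => ?_
  exact (abs_jint_le (h.pm_cont ω) (pm_pos ω) hst).trans (le_abs_self _)

end

lemma Pg_indicator {T : ℝ≥0} {Z : Ω → ℝ} (hZ : Pg W T Z) (A : Set Ω) : Pg W T (A.indicator Z) := by
  classical
  refine hZ.of_abs_le fun ω => ?_
  by_cases hω : ω ∈ A
  · rw [indicator_of_mem hω]
  · rw [indicator_of_notMem hω, abs_zero]; exact abs_nonneg _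

lemma Pg_ite {T : ℝ≥0} {Z : Ω → ℝ} (hZ : Pg W T Z) (p : Ω → Prop) [DecidablePred p] :
    Pg W T (fun ω => if p ω then Z ω else 0) := by
  refine hZ.of_abs_le fun ω => ?_
  by_cases hω : p ω
  · simp only [if_pos hω]; exact le_rfl
  · simp only [if_neg hω, abs_zero]; exact abs_nonneg _

end ASM

open ASM in
theorem t_ASM : S_ASM := by
  classical
  intro hPTH hKPA hSUPM hMEA hTEL hSTEP hDOOB hDOOK hPSI hFUB Ω mΩ P _ F W h
  have hK := fun ω => hKPA (pm W ω) (h.pm_cont ω) (fun t => pm_pos ω t) (h.pm_lim ω)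
  obtain ⟨hmeas, hKmeas⟩ := hMEA hPTH hKPA Ω mΩ P F W h
  have hKmax : ∀ (s t : ℝ≥0) (ω : Ω), s ≤ t → KK W s ω = max (ssup (pm W ω) s t) (KK W t ω) :=
    fun s t ω hst => (hK ω).2.2.1 s t hst
  have hdiff : ∀ (s t : ℝ≥0) (ω : Ω), s ≤ t → NN W t ω - NN W s ω =
      (mm W t ω - mm W s ω - jint (pm W ω) s t) + 2 * (KK W s ω - KK W t ω) := by
    intro s t ω hst
    have := jint_add (h.pm_cont ω) 0 s t
    simp only [NN, AA]
    rw [← this]; ring
  refine ⟨fun t => ?_, ?_⟩
  · have hPg : Pg W t (fun ω => mm W t ω - (jint (pm W ω) 0 t - 2 * (KK W 0 ω - KK W t ω))) := by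
      refine (Pg.mm h le_rfl).sub h ((Pg_jint h zero_le le_rfl).sub h ?_)
      refine ((Pg.const t (2 : ℝ)).mul h (Pg.ssup h (zero_le (a := t)) le_rfl)).of_abs_le fun ω => ?_
      rw [hKmax 0 t ω zero_le, abs_mul, abs_mul]
      refine mul_le_mul_of_nonneg_left ?_ (abs_nonneg _)
      have h1 := ssup_pos h (zero_le (a := t)) ω
      have h2 : 0 ≤ KK W t ω := (pm_pos ω t).le.trans ((hK ω).2.2.2.1 t)
      rw [abs_of_pos h1, abs_of_nonneg (sub_nonneg.2 (le_max_right _ _))]
      rcases le_total (ssup (pm W ω) 0 t) (KK W t ω) with h3 | h3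
      · rw [max_eq_right h3, sub_self]; exact h1.le
      · rw [max_eq_left h3]; linarith
    refine hPg.integrable h hPTH hSUPM ?_
    have m1 : Measurable (mm W t) := (h.mm_meas le_rfl).mono (F.le t) le_rfl
    have m2 : Measurable (fun ω => jint (pm W ω) 0 t) := ((hmeas 0 t zero_le).2.1).mono (F.le t) le_rfl
    exact m1.sub (m2.sub (((hKmeas 0).sub (hKmeas t)).const_mul 2))
  · intro s t k A hst hk hA
    -- the pieces
    set S : Ω → ℝ := fun ω => ssup (pm W ω) s t with hS
    set X : Ω → ℝ := fun ω => mm W t ω - mm W s ω - jint (pm W ω) s t with hX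
    have hSm : Measurable[F t] S := (hmeas s t hst).1
    have hJm : Measurable[F t] (fun ω => jint (pm W ω) s t) := (hmeas s t hst).2.1
    have hXm : Measurable[F t] X := ((h.mm_meas le_rfl).sub (h.mm_meas hst)).sub hJm
    have hAt : MeasurableSet[F t] A := F.mono hst A hA
    have hA0 : MeasurableSet A := F.le s A hA
    have hle : F t ≤ mΩ := F.le t
    have hSpos : ∀ ω, 0 < S ω := fun ω => ssup_pos h hst ω
    have hmS : ∀ ω, mm W t ω ≤ S ω := fun ω => mm_le_ssup h hst le_rfl ω
    have hSPg : Pg W t S := Pg.ssup h hst le_rfl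
    have hXPg : Pg W t X := ((Pg.mm h le_rfl).sub h (Pg.mm h hst)).sub h (Pg_jint h hst le_rfl)
    have hset1 : MeasurableSet[F t] {ω | S ω ≤ k} := measurableSet_le hSm measurable_const
    have hset2 : MeasurableSet[F t] {ω | k < S ω} := measurableSet_lt measurable_const hSm
    have hsetK : MeasurableSet {ω | k < KK W t ω} := measurableSet_lt measurable_const (hKmeas t)
    have hsetKs : MeasurableSet {ω | k < KK W s ω} := measurableSet_lt measurable_const (hKmeas s)
    set Y1 : Ω → ℝ := A.indicator (fun ω => if k < S ω then X ω else 0) with hY1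
    set Y2 : Ω → ℝ := A.indicator (fun ω => if S ω ≤ k then X ω else 0) with hY2
    set Y3 : Ω → ℝ := A.indicator (fun ω => if k < S ω then 1 else 0) with hY3
    have hY1m : Measurable[F t] Y1 := (Measurable.ite hset2 hXm measurable_const).indicator hAt
    have hY2m : Measurable[F t] Y2 := (Measurable.ite hset1 hXm measurable_const).indicator hAt
    have hY3m : Measurable[F t] Y3 :=
      (Measurable.ite hset2 measurable_const measurable_const).indicator hAt
    have hY1P : Pg W t Y1 := Pg_indicator (Pg_ite hXPg _) A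
    have hY2P : Pg W t Y2 := Pg_indicator (Pg_ite hXPg _) A
    have hY3P : Pg W t Y3 := Pg_indicator (Pg_ite (Pg.const t (1 : ℝ)) _) A
    have hY30 : ∀ ω, 0 ≤ Y3 ω := fun ω => indicator_nonneg (fun ω _ => by split_ifs <;> norm_num) ω
    have hKt0 : ∀ ω, 0 < KK W t ω := fun ω => (pm_pos ω t).trans_le ((hK ω).2.2.2.1 t)
    -- DOOK and FUB
    have e2 := hDOOK hPTH hKPA hSUPM hMEA hDOOB hTEL hSTEP Ω mΩ P F W h t (fun _ => k) Y2 k
      measurable_const hY2m hk (fun _ => le_rfl) hY2P
    have e3 := hFUB hPTH hKPA hSUPM hMEA hTEL hSTEP hDOOB hDOOK Ω mΩ P F W h t S Y3 hSm hY3m hSPg hY3P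
      hY30 hmS
    obtain ⟨-, e4⟩ := hPSI hPTH hTEL hSUPM hMEA hKPA hSTEP Ω mΩ P F W h s t k A hst hk hA
    -- integrability
    have hSm0 : Measurable S := hSm.mono hle le_rfl
    have hm0 : Measurable (mm W t) := (h.mm_meas le_rfl).mono hle le_rfl
    have i1 : Integrable Y1 P := hY1P.integrable h hPTH hSUPM (hY1m.mono hle le_rfl)
    have i2 : Integrable (fun ω => Y2 ω * (if k < KK W t ω then 1 else 0)) P := by
      refine Pg.integrable h hPTH hSUPM (hY2P.of_abs_le fun ω => ?_) ?_
      · rw [abs_mul]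
        split_ifs
        · simp
        · simp
      · exact (hY2m.mono hle le_rfl).mul (Measurable.ite hsetK measurable_const measurable_const)
    have i3 : Integrable (fun ω => Y3 ω * max (S ω - KK W t ω) 0) P := by
      refine Pg.integrable h hPTH hSUPM ((hY3P.mul h hSPg).of_abs_le fun ω => ?_) ?_
      · rw [abs_mul, abs_mul]
        refine mul_le_mul_of_nonneg_left ?_ (abs_nonneg _)
        rw [abs_of_nonneg (le_max_right _ _), abs_of_pos (hSpos ω)]
        exact max_le (by linarith [hKt0 ω]) (hSpos ω).le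
      · exact (hY3m.mono hle le_rfl).mul ((hSm0.sub (hKmeas t)).max measurable_const)
    have i2' : Integrable (fun ω => Y2 ω * min 1 (mm W t ω / k)) P := by
      refine Pg.integrable h hPTH hSUPM (hY2P.of_abs_le fun ω => ?_) ?_
      · rw [abs_mul]
        have h1 : |min 1 (mm W t ω / k)| ≤ 1 := by
          rw [abs_of_nonneg (le_min zero_le_one (div_nonneg (mm_pos t ω).le hk.le))]
          exact min_le_left _ _
        calc |Y2 ω| * |min 1 (mm W t ω / k)| ≤ |Y2 ω| * 1 :=
              mul_le_mul_of_nonneg_left h1 (abs_nonneg _)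
          _ = |Y2 ω| := mul_one _
      · exact (hY2m.mono hle le_rfl).mul (measurable_const.min (hm0.div_const k))
    have hlogPg : Pg W t (fun ω => mm W t ω * Real.log (S ω)) := by
      refine ((Pg.const t (1 : ℝ)).add h (hSPg.pow h 2)).of_abs_le fun ω => ?_
      refine le_trans ?_ (le_abs_self _)
      refine le_trans ?_ (abs_mul_log_le (hSpos ω))
      rw [abs_mul, abs_mul, abs_of_pos (mm_pos t ω), abs_of_pos (hSpos ω)]
      exact mul_le_mul_of_nonneg_right (hmS ω) (abs_nonneg _)
    have i3' : Integrable (fun ω => Y3 ω * (S ω - mm W t ω - mm W t ω * Real.log (S ω) +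
        mm W t ω * Real.log (mm W t ω))) P := by
      refine Pg.integrable h hPTH hSUPM (hY3P.mul h
        (((hSPg.sub h (Pg.mm h le_rfl)).sub h hlogPg).add h (Pg.mul_log h le_rfl))) ?_
      exact (hY3m.mono hle le_rfl).mul (((hSm0.sub hm0).sub
        (hm0.mul (Real.measurable_log.comp hSm0))).add (hm0.mul (Real.measurable_log.comp hm0)))
    -- the left-hand side
    have hpt : ∀ ω, (A ∩ {ω | k < KK W s ω}).indicator (fun ω => NN W t ω - NN W s ω) ω =
        Y1 ω + Y2 ω * (if k < KK W t ω then 1 else 0) + 2 * (Y3 ω * max (S ω - KK W t ω) 0) := by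
      intro ω
      by_cases hωA : ω ∈ A
      · simp only [hY1, hY2, hY3, indicator_of_mem hωA]
        have hmax := hKmax s t ω hst
        by_cases hks : k < KK W s ω
        · rw [indicator_of_mem (show ω ∈ A ∩ {ω | k < KK W s ω} from ⟨hωA, hks⟩), hdiff s t ω hst]
          show X ω + 2 * (KK W s ω - KK W t ω) = _
          by_cases hkS : k < S ω
          · rw [if_pos hkS, if_pos hkS, if_neg (not_le.2 hkS), zero_mul, add_zero, one_mul, hmax]
            congr 2
            rcases le_total (S ω) (KK W t ω) with h3 | h3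
            · rw [max_eq_right h3, max_eq_right (by linarith), sub_self]
            · rw [max_eq_left h3, max_eq_left (by linarith)]
          · rw [if_neg hkS, if_pos (not_lt.1 hkS), if_neg hkS, zero_add, zero_mul, mul_zero, add_zero]
            have hkt : k < KK W t ω := by
              rw [hmax] at hks
              rcases lt_max_iff.1 hks with h3 | h3
              · exact absurd h3 hkS
              · exact h3
            have h4 : KK W s ω = KK W t ω := by
              rw [hmax]; exact max_eq_right ((not_lt.1 hkS).trans hkt.le)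
            rw [if_pos hkt, h4]; ring
        · rw [indicator_of_notMem (fun h' => hks h'.2)]
          have h1 : ¬ k < S ω := fun h' => hks (by rw [hmax]; exact lt_max_of_lt_left h')
          have h2 : ¬ k < KK W t ω := fun h' => hks (by rw [hmax]; exact lt_max_of_lt_right h')
          rw [if_neg h1, if_neg h1, if_neg h2]; ring
      · rw [indicator_of_notMem (fun h' => hωA h'.1)]
        simp only [hY1, hY2, hY3, indicator_of_notMem hωA]; ring
    have hpt2 : ∀ ω, A.indicator (fun ω => Psi k (pm W ω) s t) ω =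
        Y1 ω + Y2 ω * min 1 (mm W t ω / k) + 2 * (Y3 ω * (S ω - mm W t ω -
          mm W t ω * Real.log (S ω) + mm W t ω * Real.log (mm W t ω))) := by
      intro ω
      by_cases hωA : ω ∈ A
      · simp only [hY1, hY2, hY3, indicator_of_mem hωA]
        unfold Psi
        by_cases hkS : k < S ω
        · rw [if_pos hkS, if_pos hkS, if_neg (not_le.2 hkS), zero_mul, add_zero, if_pos hkS, one_mul]
          rfl
        · rw [if_neg hkS, if_neg hkS, if_pos (not_lt.1 hkS), if_neg hkS, zero_add, zero_mul, mul_zero,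
            add_zero]
          have h1 : mm W t ω / k ≤ 1 := (div_le_one hk).2 ((hmS ω).trans (not_lt.1 hkS))
          rw [min_eq_right h1]
          rfl
      · simp only [hY1, hY2, hY3, indicator_of_notMem hωA]; ring
    have s1 : ∫ ω, (Y1 ω + Y2 ω * (if k < KK W t ω then 1 else 0) +
        2 * (Y3 ω * max (S ω - KK W t ω) 0)) ∂P = ∫ ω, Y1 ω ∂P +
        ∫ ω, Y2 ω * (if k < KK W t ω then 1 else 0) ∂P + 2 * ∫ ω, Y3 ω * max (S ω - KK W t ω) 0 ∂P := by
      have a1 := integral_add (i1.add i2) (i3.const_mul 2)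
      have a2 := integral_add i1 i2
      have a3 := integral_const_mul (μ := P) 2 (fun ω => Y3 ω * max (S ω - KK W t ω) 0)
      rw [← a2, ← a3]
      exact a1
    have s2 : ∫ ω, (Y1 ω + Y2 ω * min 1 (mm W t ω / k) + 2 * (Y3 ω * (S ω - mm W t ω -
        mm W t ω * Real.log (S ω) + mm W t ω * Real.log (mm W t ω)))) ∂P = ∫ ω, Y1 ω ∂P +
        ∫ ω, Y2 ω * min 1 (mm W t ω / k) ∂P + 2 * ∫ ω, Y3 ω * (S ω - mm W t ω -
        mm W t ω * Real.log (S ω) + mm W t ω * Real.log (mm W t ω)) ∂P := by
      have a1 := integral_add (i1.add i2') (i3'.const_mul 2)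
      have a2 := integral_add i1 i2'
      have a3 := integral_const_mul (μ := P) 2 (fun ω => Y3 ω * (S ω - mm W t ω -
        mm W t ω * Real.log (S ω) + mm W t ω * Real.log (mm W t ω)))
      rw [← a2, ← a3]
      exact a1
    rw [← integral_indicator (hA0.inter hsetKs), integral_congr_ae (Eventually.of_forall hpt)]
    rw [← integral_indicator hA0, integral_congr_ae (Eventually.of_forall hpt2)] at e4
    rw [s1, e2, e3, ← s2]
    exact e4

end Pool.Agent.T2h33.RG
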