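import Pool.Agent.T2h33.RG.Basic

/-!
# Project RG, task DOOB (helper60)
-/

set_option autoImplicit false
set_option linter.all false

open MeasureTheory ProbabilityTheory Filter Topology Set
open scoped NNReal ENNReal

namespace Pool.Agent.T2h33.RG

namespace DOOB

lemma gp_zero (s T : ℝ≥0) (n : ℕ) : gp s T n 0 = s := by
  unfold gp
  simp

lemma gp_mono (s T : ℝ≥0) (n j : ℕ) : gp s T n j ≤ gp s T n (j + 1) := by
  unfold gp
  gcongr
  simp

lemma gp_mono' (s T : ℝ≥0) (n : ℕ) : Monotone (gp s T n) := monotone_nat_of_le_succ (gp_mono s T n)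

lemma le_mx (x : ℕ → ℝ) (j : ℕ) : x j ≤ mx x j := by
  cases j with
  | zero => exact le_rfl
  | succ j => exact le_max_right _ _

/-- the function `H_j` -/
noncomputable def H (X : ℝ) (x : ℕ → ℝ) (j : ℕ) : ℝ := if X < mx x j then 1 else x j / X

lemma H_step {X : ℝ} (hX : 0 < X) (x : ℕ → ℝ) (j : ℕ) :
    H X x (j + 1) - H X x j = (if mx x j ≤ X then 1 / X else 0) * (x (j + 1) - x j) - er0 X x j := by
  unfold H er0
  have e : mx x (j + 1) = max (mx x j) (x (j + 1)) := rfl
  by_cases h1 : mx x j ≤ X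
  · rw [if_neg (not_lt.2 h1), if_pos h1, if_pos h1]
    by_cases h2 : X < x (j + 1)
    · have h3 : X < mx x (j + 1) := h2.trans_le (by rw [e]; exact le_max_right _ _)
      have h4 : 0 ≤ x (j + 1) / X - 1 := by
        rw [sub_nonneg, le_div_iff₀ hX, one_mul]
        exact h2.le
      rw [if_pos h3, max_eq_left h4]
      field_simp
      ring
    · rw [not_lt] at h2
      have h3 : ¬ X < mx x (j + 1) := by
        rw [e, not_lt]
        exact max_le h1 h2
      have h4 : x (j + 1) / X - 1 ≤ 0 := by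
        rw [sub_nonpos, div_le_iff₀ hX, one_mul]
        exact h2
      rw [if_neg h3, max_eq_right h4]
      field_simp
      ring
  · have h2 : X < mx x j := not_le.1 h1
    have h3 : X < mx x (j + 1) := h2.trans_le (by rw [e]; exact le_max_left _ _)
    rw [if_pos h3, if_pos h2, if_neg h1, if_neg h1]
    ring

lemma H_tel {X : ℝ} (hX : 0 < X) (x : ℕ → ℝ) (n : ℕ) :
    H X x n - H X x 0 = ∑ j ∈ Finset.range n, (if mx x j ≤ X then 1 / X else 0) * (x (j + 1) - x j) -
      ∑ j ∈ Finset.range n, er0 X x j := by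
  rw [← Finset.sum_sub_distrib, ← Finset.sum_range_sub (fun j => H X x j)]
  exact Finset.sum_congr rfl fun j _ => H_step hX x j

lemma H_abs_le {X : ℝ} (hX : 0 < X) {x : ℕ → ℝ} (hx : ∀ j, 0 < x j) (j : ℕ) : |H X x j| ≤ 1 := by
  unfold H
  split_ifs with h
  · simp
  · rw [abs_of_nonneg (by have := hx j; positivity), div_le_one hX]
    exact (le_mx x j).trans (not_lt.1 h)

lemma er0_nonneg {X : ℝ} (x : ℕ → ℝ) (j : ℕ) : 0 ≤ er0 X x j := by
  unfold er0
  split_ifs
  · exact le_max_right _ _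
  · exact le_rfl

lemma osc_le {x : ℕ → ℝ} (hx : ∀ j, 0 < x j) (n : ℕ) {c : ℝ} (hc : ∀ j ≤ n, x j ≤ c) :
    osc x n ≤ c := by
  induction n with
  | zero => exact (hx 0).le.trans (hc 0 le_rfl)
  | succ n ih =>
    refine max_le (ih fun j hj => hc j (hj.trans (Nat.le_succ n))) ?_
    rw [abs_le]
    have h1 := hc n (Nat.le_succ n)
    have h2 := hc (n + 1) le_rfl
    have h3 := hx n
    have h4 := hx (n + 1)
    constructor <;> linarith

section
variable {Ω : Type} {mΩ : MeasurableSpace Ω} {W : ℝ≥0 → Ω → ℝ} {P : Measure Ω}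
  {F : Filtration ℝ≥0 mΩ} (h : BMF P F W)
include h

lemma mx_meas (s T : ℝ≥0) (n j : ℕ) :
    Measurable[F (gp s T n j)] (fun ω => mx (fun i => mm W (gp s T n i) ω) j) := by
  induction j with
  | zero => exact h.mm_meas le_rfl
  | succ j ih =>
    have h1 : Measurable[F (gp s T n (j + 1))] (fun ω => mx (fun i => mm W (gp s T n i) ω) j) :=
      ih.mono (F.mono (gp_mono s T n j)) le_rfl
    exact h1.max (h.mm_meas le_rfl)

end

end DOOB

theorem t_DOOB : S_DOOB := by
  intro hPTH hTEL hSUPM hMEA hKPA hSTEP Ω mΩ P _ F W hW s T X Y δ hsT hX hY hδ hδX hYg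
  have hX0 : ∀ ω, 0 < X ω := fun ω => hδ.trans_le (hδX ω)
  have hXm : Measurable X := hX.mono (F.le s) le_rfl
  have hYm : Measurable Y := hY.mono (F.le s) le_rfl
  have hYT : Pg W T Y := hYg.mono hW hsT
  have hYi : Integrable Y P := hYT.integrable hW hPTH hSUPM hYm
  obtain ⟨x, hx⟩ : ∃ x : ℕ → Ω → ℕ → ℝ, x = fun n ω j => mm W (gp s T n j) ω := ⟨_, rfl⟩
  have hxp : ∀ n ω j, 0 < x n ω j := fun n ω j => by rw [hx]; exact mm_pos _ _
  have hpth := fun ω => hPTH (pm W ω) (hW.pm_cont ω) s T hsT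
  have hgle : ∀ n j, j ≤ n → s ≤ gp s T n j ∧ gp s T n j ≤ T := by
    intro n j hj
    obtain ⟨ω⟩ : Nonempty Ω := by
      have h1 : P Set.univ ≠ 0 := by simp
      exact (nonempty_of_measure_ne_zero h1).to_type.elim (fun w => ⟨w⟩)
    have h2 := (hpth ω).2.2.2.1 n j hj
    exact ⟨h2.1, h2.2.1⟩
  -- the pieces
  obtain ⟨Z, hZ⟩ : ∃ Z : ℕ → ℕ → Ω → ℝ, Z = fun n j ω =>
    Y ω * (if mx (x n ω) j ≤ X ω then 1 / X ω else 0) := ⟨_, rfl⟩
  have hmxm : ∀ n j, Measurable[F (gp s T n j)] (fun ω => mx (x n ω) j) := by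
    intro n j
    rw [hx]
    exact DOOB.mx_meas hW s T n j
  have hZm : ∀ n j, Measurable[F (gp s T n j)] (Z n j) := by
    intro n j
    have hs : s ≤ gp s T n j := by
      have h1 := DOOB.gp_mono' s T n (Nat.zero_le j)
      rwa [DOOB.gp_zero] at h1
    have h1 : Measurable[F (gp s T n j)] X := hX.mono (F.mono hs) le_rfl
    have h2 : Measurable[F (gp s T n j)] Y := hY.mono (F.mono hs) le_rfl
    rw [hZ]
    refine h2.mul (Measurable.ite ?_ (measurable_const.div h1) measurable_const)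
    exact measurableSet_le (hmxm n j) h1
  have hZle : ∀ n j ω, |Z n j ω| ≤ |Y ω * (1 / δ)| := by
    intro n j ω
    rw [hZ]
    simp only
    rw [abs_mul, abs_mul]
    refine mul_le_mul_of_nonneg_left ?_ (abs_nonneg _)
    rw [abs_of_pos (by positivity : 0 < 1 / δ)]
    split_ifs
    · rw [abs_of_pos (by have := hX0 ω; positivity)]
      exact one_div_le_one_div_of_le hδ (hδX ω)
    · rw [abs_zero]
      positivity
  have hYd : Pg W s (fun ω => Y ω * (1 / δ)) := hYg.mul hW (Pg.const s (1 / δ))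
  have hZg : ∀ n j, s ≤ gp s T n j → Pg W (gp s T n j) (Z n j) := by
    intro n j hj
    exact (hYd.mono hW hj).of_abs_le (hZle n j)
  have hmean : ∀ n j, j < n → Integrable (fun ω => Z n j ω * (x n ω (j + 1) - x n ω j)) P ∧
      ∫ ω, Z n j ω * (x n ω (j + 1) - x n ω j) ∂P = 0 := by
    intro n j hj
    obtain ⟨h1, h2⟩ := hgle n j hj.le
    obtain ⟨h3, h4⟩ := hgle n (j + 1) hj
    have h5 := (hSTEP hPTH hSUPM Ω mΩ P F W hW (gp s T n j) (gp s T n (j + 1)) (DOOB.gp_mono s T n j)
      (Z n j) (hZm n j) (hZg n j h1)).1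
    have hZmm : Measurable (Z n j) := (hZm n j).mono (F.le _) le_rfl
    have hZT : Pg W T (Z n j) := (hZg n j h1).mono hW h2
    have h6 : Integrable (fun ω => Z n j ω * mm W (gp s T n (j + 1)) ω) P :=
      (hZT.mul hW (Pg.mm hW h4)).integrable hW hPTH hSUPM
        (hZmm.mul ((hW.mm_meas h4).mono (F.le _) le_rfl))
    have h7 : Integrable (fun ω => Z n j ω * mm W (gp s T n j) ω) P :=
      (hZT.mul hW (Pg.mm hW h2)).integrable hW hPTH hSUPM
        (hZmm.mul ((hW.mm_meas h2).mono (F.le _) le_rfl))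
    have e : (fun ω => Z n j ω * (x n ω (j + 1) - x n ω j)) = fun ω =>
        Z n j ω * mm W (gp s T n (j + 1)) ω - Z n j ω * mm W (gp s T n j) ω := by
      funext ω
      rw [hx]
      ring
    rw [e]
    refine ⟨h6.sub h7, ?_⟩
    rw [integral_sub h6 h7, h5, sub_self]
  have hHm : ∀ n j, Measurable (fun ω => DOOB.H (X ω) (x n ω) j) := by
    intro n j
    have h1 : Measurable (fun ω => mx (x n ω) j) := (hmxm n j).mono (F.le _) le_rfl
    have h2 : Measurable (fun ω => x n ω j) := by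
      rw [hx]
      exact (hW.mm_meas (le_refl (gp s T n j))).mono (F.le _) le_rfl
    unfold DOOB.H
    exact Measurable.ite (measurableSet_lt hXm h1) measurable_const (h2.div hXm)
  have hYHle : ∀ n j ω, |Y ω * DOOB.H (X ω) (x n ω) j| ≤ |Y ω| := by
    intro n j ω
    rw [abs_mul]
    calc |Y ω| * |DOOB.H (X ω) (x n ω) j| ≤ |Y ω| * 1 :=
          mul_le_mul_of_nonneg_left (DOOB.H_abs_le (hX0 ω) (hxp n ω) j) (abs_nonneg _)
      _ = |Y ω| := mul_one _
  have hYHi : ∀ n j, Integrable (fun ω => Y ω * DOOB.H (X ω) (x n ω) j) P := by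
    intro n j
    exact (hYT.of_abs_le (hYHle n j)).integrable hW hPTH hSUPM (hYm.mul (hHm n j))
  -- telescoping
  have htel : ∀ n, Integrable (fun ω => Y ω * ∑ j ∈ Finset.range n, er0 (X ω) (x n ω) j) P ∧
      ∫ ω, Y ω * DOOB.H (X ω) (x n ω) n ∂P = ∫ ω, Y ω * DOOB.H (X ω) (x n ω) 0 ∂P -
        ∫ ω, Y ω * ∑ j ∈ Finset.range n, er0 (X ω) (x n ω) j ∂P := by
    intro n
    have h1 : Integrable (fun ω => ∑ j ∈ Finset.range n, Z n j ω * (x n ω (j + 1) - x n ω j)) P :=
      integrable_finsetSum _ fun j hj => (hmean n j (Finset.mem_range.1 hj)).1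
    have h2 : ∫ ω, ∑ j ∈ Finset.range n, Z n j ω * (x n ω (j + 1) - x n ω j) ∂P = 0 := by
      rw [integral_finsetSum _ fun j hj => (hmean n j (Finset.mem_range.1 hj)).1]
      exact Finset.sum_eq_zero fun j hj => (hmean n j (Finset.mem_range.1 hj)).2
    have h3 : ∀ ω, Y ω * ∑ j ∈ Finset.range n, er0 (X ω) (x n ω) j =
        (∑ j ∈ Finset.range n, Z n j ω * (x n ω (j + 1) - x n ω j)) -
          (Y ω * DOOB.H (X ω) (x n ω) n - Y ω * DOOB.H (X ω) (x n ω) 0) := by
      intro ω
      have h4 := DOOB.H_tel (hX0 ω) (x n ω) n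
      have h5 : ∑ j ∈ Finset.range n, Z n j ω * (x n ω (j + 1) - x n ω j) =
          Y ω * ∑ j ∈ Finset.range n, (if mx (x n ω) j ≤ X ω then 1 / X ω else 0) *
            (x n ω (j + 1) - x n ω j) := by
        rw [Finset.mul_sum]
        refine Finset.sum_congr rfl fun j _ => ?_
        rw [hZ]
        ring
      rw [h5, ← mul_sub, ← mul_sub, h4]
      congr 1
      ring
    have h6 : Integrable (fun ω => Y ω * ∑ j ∈ Finset.range n, er0 (X ω) (x n ω) j) P := by
      simp only [h3]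
      exact h1.sub ((hYHi n n).sub (hYHi n 0))
    refine ⟨h6, ?_⟩
    have h7 : ∫ ω, Y ω * ∑ j ∈ Finset.range n, er0 (X ω) (x n ω) j ∂P =
        0 - (∫ ω, Y ω * DOOB.H (X ω) (x n ω) n ∂P - ∫ ω, Y ω * DOOB.H (X ω) (x n ω) 0 ∂P) := by
      have h8 : Integrable (fun ω => Y ω * DOOB.H (X ω) (x n ω) n -
          Y ω * DOOB.H (X ω) (x n ω) 0) P := (hYHi n n).sub (hYHi n 0)
      simp only [h3]
      rw [integral_sub h1 h8, integral_sub (hYHi n n) (hYHi n 0), h2]
    rw [h7]
    ring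
  -- the error term
  have herr : Tendsto (fun n => ∫ ω, Y ω * ∑ j ∈ Finset.range n, er0 (X ω) (x n ω) j ∂P) atTop
      (𝓝 0) := by
    have hb : ∀ n ω, |Y ω * ∑ j ∈ Finset.range n, er0 (X ω) (x n ω) j| ≤
        |Y ω| * (1 / δ) * osc (x n ω) n := by
      intro n ω
      have h1 := (hTEL (x n ω) (hxp n ω)).1 (X ω) (hX0 ω) n
      have h2 : 0 ≤ ∑ j ∈ Finset.range n, er0 (X ω) (x n ω) j :=
        Finset.sum_nonneg fun j _ => DOOB.er0_nonneg _ _
      have h3 : 0 ≤ osc (x n ω) n := by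
        have h4 := h2.trans h1
        rwa [le_div_iff₀ (hX0 ω), zero_mul] at h4
      rw [abs_mul, abs_of_nonneg h2, mul_assoc]
      refine mul_le_mul_of_nonneg_left (h1.trans ?_) (abs_nonneg _)
      rw [div_eq_mul_one_div, mul_comm]
      exact mul_le_mul_of_nonneg_right (one_div_le_one_div_of_le hδ (hδX ω)) h3
    have hosc : ∀ n ω, osc (x n ω) n ≤ ssup (pm W ω) s T := by
      intro n ω
      refine DOOB.osc_le (hxp n ω) n fun j hj => ?_
      obtain ⟨h1, h2⟩ := hgle n j hj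
      rw [hx]
      exact mm_le_ssup hW h1 h2 ω
    have hlim := tendsto_integral_of_dominated_convergence (μ := P)
      (F := fun n ω => Y ω * ∑ j ∈ Finset.range n, er0 (X ω) (x n ω) j) (f := fun ω => (0 : ℝ))
      (fun ω => |Y ω| * (1 / δ) * ssup (pm W ω) s T) (fun n => (htel n).1.aestronglyMeasurable) ?_ ?_
      ?_
    · simpa using hlim
    · have h1 : Pg W T (fun ω => |Y ω|) := hYT.of_abs_le fun ω => by rw [abs_abs]
      have h2 : Pg W T (fun ω => |Y ω| * (1 / δ) * ssup (pm W ω) s T) :=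
        (h1.mul hW (Pg.const T (1 / δ))).mul hW (Pg.ssup hW hsT le_rfl)
      refine h2.integrable hW hPTH hSUPM ?_
      have h3 : Measurable (fun ω => ssup (pm W ω) s T) :=
        (((hMEA hPTH hKPA Ω mΩ P F W hW).1 s T hsT).1).mono (F.le _) le_rfl
      exact (hYm.abs.mul measurable_const).mul h3
    · intro n
      refine Eventually.of_forall fun ω => ?_
      rw [Real.norm_eq_abs]
      exact (hb n ω).trans (mul_le_mul_of_nonneg_left (hosc n ω) (by positivity))
    · refine Eventually.of_forall fun ω => ?_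
      have h1 : Tendsto (fun n => |Y ω| * (1 / δ) * osc (x n ω) n) atTop (𝓝 0) := by
        have h2 := (hpth ω).1.const_mul (|Y ω| * (1 / δ))
        rw [mul_zero] at h2
        rw [hx]
        exact h2
      exact squeeze_zero_norm (fun n => by rw [Real.norm_eq_abs]; exact hb n ω) h1
  -- the limit of the left side
  have hleft : Tendsto (fun n => ∫ ω, Y ω * DOOB.H (X ω) (x n ω) n ∂P) atTop
      (𝓝 (∫ ω, Y ω * (if X ω < ssup (pm W ω) s T then 1 else mm W T ω / X ω) ∂P)) := by
    refine tendsto_integral_of_dominated_convergence (fun ω => |Y ω|)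
      (fun n => (hYHi n n).aestronglyMeasurable) hYi.abs
      (fun n => Eventually.of_forall fun ω => by rw [Real.norm_eq_abs]; exact hYHle n n ω)
      (Eventually.of_forall fun ω => ?_)
    refine Tendsto.const_mul _ ?_
    have hmx : Tendsto (fun n => mx (x n ω) n) atTop (𝓝 (ssup (pm W ω) s T)) := by
      rw [hx]
      exact (hpth ω).2.1
    refine tendsto_const_nhds.congr' ?_
    by_cases h1 : X ω < ssup (pm W ω) s T
    · filter_upwards [hmx.eventually (lt_mem_nhds h1)] with n hn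
      unfold DOOB.H
      rw [if_pos h1, if_pos hn]
    · filter_upwards [eventually_ge_atTop 1] with n hn
      have h2 : ¬ X ω < mx (x n ω) n := by
        rw [not_lt] at h1 ⊢
        refine le_trans ?_ h1
        rw [hx]
        exact ((hpth ω).2.2.2.1 n n le_rfl).2.2
      unfold DOOB.H
      rw [if_neg h1, if_neg h2, hx]
      simp only
      rw [(hpth ω).2.2.2.2 n hn]
  have hzero : ∀ n, ∫ ω, Y ω * DOOB.H (X ω) (x n ω) 0 ∂P =
      ∫ ω, Y ω * min 1 (mm W s ω / X ω) ∂P := by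
    intro n
    refine integral_congr_ae (Eventually.of_forall fun ω => ?_)
    simp only
    congr 1
    unfold DOOB.H
    have e1 : mx (x n ω) 0 = mm W s ω := by
      rw [hx]
      change mm W (gp s T n 0) ω = _
      rw [DOOB.gp_zero]
    have e2 : x n ω 0 = mm W s ω := e1
    rw [e1, e2]
    split_ifs with h1
    · rw [min_eq_left]
      rw [le_div_iff₀ (hX0 ω), one_mul]
      exact h1.le
    · rw [min_eq_right]
      rw [div_le_iff₀ (hX0 ω), one_mul]
      exact not_lt.1 h1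
  have hright : Tendsto (fun n => ∫ ω, Y ω * DOOB.H (X ω) (x n ω) n ∂P) atTop
      (𝓝 (∫ ω, Y ω * min 1 (mm W s ω / X ω) ∂P)) := by
    have h1 := herr.const_sub (∫ ω, Y ω * min 1 (mm W s ω / X ω) ∂P)
    rw [sub_zero] at h1
    refine h1.congr fun n => ?_
    rw [(htel n).2, hzero n]
  exact tendsto_nhds_unique hleft hright

end Pool.Agent.T2h33.RG
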