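import Pool.Agent.T2h33.RG.Basic

/-!
# Project RG, task DOOK (helper59)
-/

set_option autoImplicit false
set_option linter.all false

open MeasureTheory ProbabilityTheory Filter Topology Set
open scoped NNReal ENNReal

namespace Pool.Agent.T2h33.RG

theorem t_DOOK : S_DOOK := by
  intro hP hK hS hM hD hT hSt Ω mΩ P _ F W h s X Y δ hX hY hδ hδX hYg
  have hX' : Measurable X := hX.mono (F.le s) le_rfl
  have hY' : Measurable Y := hY.mono (F.le s) le_rfl
  have hYi : Integrable Y P := hYg.integrable h hP hS hY'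
  have hMe := hM hP hK Ω mΩ P F W h
  have hKp : ∀ ω, _ := fun ω => hK (pm W ω) (h.pm_cont ω) (pm_pos ω) (h.pm_lim ω)
  -- the functions
  set f : ℕ → Ω → ℝ := fun n ω =>
    Y ω * (if X ω < ssup (pm W ω) s (s + n) then 1 else mm W (s + n) ω / X ω) with hf
  have hle : ∀ n : ℕ, s ≤ s + (n : ℝ≥0) := fun n => le_self_add
  have h1 : ∀ n, ∫ ω, f n ω ∂P = ∫ ω, Y ω * min 1 (mm W s ω / X ω) ∂P := fun n =>
    hD hP hT hS hM hK hSt Ω mΩ P F W h s (s + n) X Y δ (hle n) hX hY hδ hδX hYg
  have h2 : Tendsto (fun n => ∫ ω, f n ω ∂P) atTop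
      (𝓝 (∫ ω, Y ω * (if X ω < KK W s ω then 1 else 0) ∂P)) := by
    refine tendsto_integral_of_dominated_convergence (fun ω => |Y ω|) ?_ hYi.abs ?_ ?_
    · intro n
      refine (hY'.mul (Measurable.ite ?_ measurable_const ?_)).aestronglyMeasurable
      · exact measurableSet_lt hX' (((hMe.1 s (s + n) (hle n)).1).mono (F.le _) le_rfl)
      · exact ((h.mm_meas (le_refl (s + (n : ℝ≥0)))).mono (F.le _) le_rfl).div hX'
    · intro n
      refine Eventually.of_forall fun ω => ?_
      have hXp : 0 < X ω := hδ.trans_le (hδX ω)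
      simp only [hf]
      rw [Real.norm_eq_abs, abs_mul]
      refine mul_le_of_le_one_right (abs_nonneg _) ?_
      split_ifs with h3
      · simp
      · rw [abs_of_pos (div_pos (mm_pos _ _) hXp), div_le_one hXp]
        exact (mm_le_ssup h (hle n) le_rfl ω).trans (not_lt.1 h3)
    · refine Eventually.of_forall fun ω => ?_
      have hXp : 0 < X ω := hδ.trans_le (hδX ω)
      have hk := (hKp ω).2.2.2.2.2.2 s (X ω)
      simp only [hf]
      refine Tendsto.const_mul _ ?_
      by_cases h3 : X ω < KK W s ω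
      · rw [if_pos h3]
        obtain ⟨t, hst, ht⟩ := hk.1 h3
        obtain ⟨N, hN⟩ := exists_nat_ge t
        refine tendsto_const_nhds.congr' ?_
        filter_upwards [eventually_ge_atTop N] with n hn
        have h4 : t ≤ s + (n : ℝ≥0) :=
          hN.trans ((Nat.cast_le.2 hn).trans le_add_self)
        rw [if_pos (ht.trans_le (ssup_mono (h.pm_cont ω) le_rfl h4 hst))]
      · rw [if_neg h3]
        have h4 : ∀ n : ℕ, ¬ X ω < ssup (pm W ω) s (s + n) := fun n h5 =>
          h3 (hk.2 ⟨s + n, hle n, h5⟩)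
        simp only [h4, if_false]
        have h5 : Tendsto (fun n : ℕ => s + (n : ℝ≥0)) atTop atTop :=
          tendsto_atTop_mono (fun n => le_add_self) tendsto_natCast_atTop_atTop
        have h6 := ((h.pm_lim ω).comp h5).div_const (X ω)
        rw [zero_div] at h6
        exact h6
  simp only [h1] at h2
  exact (tendsto_nhds_unique h2 tendsto_const_nhds)

end Pool.Agent.T2h33.RG
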