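import Pool.Agent.T2h33.RG.Basic
import Pool.Agent.R228.BS.Sup
import Pool.Agent.R228.BD.Ind
import Pool.Agent.Helper41.BS.ExistBM

/-!
# Project RG, task EXB: existence of a Brownian motion with nice paths (helper60)
-/

set_option autoImplicit false
set_option linter.all false

open MeasureTheory ProbabilityTheory Filter Topology Set
open scoped NNReal ENNReal

namespace Pool.Agent.T2h33.RG

namespace EXB

open Pool.Agent.R228.BS (zet incr mom mom_lt lint_incr aem_incr aem_zet lint_zet incr_le chain geom_le dyp)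

lemma lint_zet_le {Ω : Type*} [MeasurableSpace Ω] {P : Measure Ω} {B : ℝ≥0 → Ω → ℝ}
    (hB : IsPreBrownianReal B P) : ∃ C : ℝ≥0∞, C < ∞ ∧ ∀ T : ℝ≥0,
      ∫⁻ ω, zet B T 4 ω ∂P ≤ C * ENNReal.ofReal ((T : ℝ) ^ 2) := by
  refine ⟨mom 4 * ∑' n : ℕ, ENNReal.ofReal (9 / 10) ^ n, ?_, fun T => ?_⟩
  · refine ENNReal.mul_lt_top (mom_lt 4) ?_
    rw [ENNReal.tsum_geometric]
    apply ENNReal.inv_lt_top.2
    rw [tsub_pos_iff_lt, ENNReal.ofReal_lt_one]
    norm_num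
  unfold zet
  rw [lintegral_tsum (fun n ↦ (aem_incr hB T 4 n).const_mul _)]
  have key : ∀ n : ℕ, ∫⁻ ω, ENNReal.ofReal (((10 / 9 : ℝ) ^ n) ^ 4) * incr B T 4 n ω ∂P ≤
      ENNReal.ofReal ((T : ℝ) ^ 2) * mom 4 * ENNReal.ofReal (9 / 10) ^ n := by
    intro n
    rw [lintegral_const_mul'' _ (aem_incr hB T 4 n), lint_incr hB]
    have h1 : ENNReal.ofReal (((10 / 9 : ℝ) ^ n) ^ 4) *
        (2 ^ n * (ENNReal.ofReal (√((T : ℝ) / 2 ^ n) ^ 4) * mom 4)) =
        ENNReal.ofReal (((10 / 9 : ℝ) ^ n) ^ 4 * (2 ^ n * √((T : ℝ) / 2 ^ n) ^ 4)) * mom 4 := by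
      rw [ENNReal.ofReal_mul (by positivity), ENNReal.ofReal_mul (by positivity),
        ENNReal.ofReal_pow (by norm_num : (0 : ℝ) ≤ 2)]
      simp only [ENNReal.ofReal_ofNat]
      ring
    rw [h1, mul_right_comm, ← ENNReal.ofReal_pow (by norm_num), ← ENNReal.ofReal_mul (by positivity)]
    refine mul_le_mul' (ENNReal.ofReal_le_ofReal ?_) le_rfl
    have h2 : √((T : ℝ) / 2 ^ n) ^ 4 = ((T : ℝ) / 2 ^ n) ^ 2 := by
      rw [show (4 : ℕ) = 2 * 2 from rfl, pow_mul, Real.sq_sqrt (by positivity)]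
    rw [h2]
    have h3 : ((10 / 9 : ℝ) ^ n) ^ 4 * (2 ^ n * ((T : ℝ) / 2 ^ n) ^ 2) =
        (T : ℝ) ^ 2 * (((10 / 9 : ℝ) ^ 4 / 2) ^ n) := by
      rw [div_pow ((10 / 9 : ℝ) ^ 4) 2 n, pow_right_comm (10 / 9 : ℝ) n 4]
      generalize ((10 / 9 : ℝ) ^ 4) ^ n = a
      field_simp
    rw [h3]
    exact mul_le_mul_of_nonneg_left (pow_le_pow_left₀ (by norm_num) (by norm_num) n) (by positivity)
  refine (ENNReal.tsum_le_tsum key).trans ?_
  rw [ENNReal.tsum_mul_left]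
  exact le_of_eq (by ring)

/-- the pathwise bound -/
lemma abs_le_zet {Ω : Type*} {B : ℝ≥0 → Ω → ℝ} {ω : Ω} (hc : Continuous fun t => B t ω)
    (h0 : B 0 ω = 0) {T : ℝ≥0} (hT0 : 0 < T) (hz : zet B T 4 ω ≠ ∞) {t : ℝ≥0} (ht : t ≤ T) :
    |B t ω| ≤ 10 * (zet B T 4 ω).toReal ^ (((4 : ℕ) : ℝ)⁻¹) := by
  set z := (zet B T 4 ω).toReal ^ (((4 : ℕ) : ℝ)⁻¹) with hzd
  have hz0 : 0 ≤ z := by positivity
  have key : ∀ N m : ℕ, m ≤ 2 ^ N → |B (dyp T N m) ω| ≤ 10 * z := by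
    intro N m hm
    have := chain T z ω (fun n k hk ↦ incr_le T 4 (by norm_num) ω hz n k hk) N m hm
    rw [h0, abs_zero, zero_add] at this
    exact this.trans (geom_le z hz0 _)
  have hTp : (0 : ℝ) < T := by exact_mod_cast hT0
  -- the dyadic approximations
  have hlim : Tendsto (fun N : ℕ ↦ dyp T N ⌊(t : ℝ) / T * 2 ^ N⌋₊) atTop (𝓝 t) := by
    rw [← NNReal.tendsto_coe]
    have e : ∀ N : ℕ, ((dyp T N ⌊(t : ℝ) / T * 2 ^ N⌋₊ : ℝ≥0) : ℝ) =
        T * (⌊(t : ℝ) / T * 2 ^ N⌋₊ / 2 ^ N) := by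
      intro N; simp [dyp]; ring
    simp only [e]
    have h1 : Tendsto (fun N : ℕ ↦ (⌊(t : ℝ) / T * 2 ^ N⌋₊ : ℝ) / 2 ^ N) atTop
        (𝓝 ((t : ℝ) / T)) := by
      have := tendsto_nat_floor_mul_div_atTop (R := ℝ) (a := (t : ℝ) / T) (by positivity)
      exact this.comp (tendsto_pow_atTop_atTop_of_one_lt (by norm_num : (1 : ℝ) < 2))
    have h2 := h1.const_mul (T : ℝ)
    rwa [mul_div_cancel₀ _ hTp.ne'] at h2
  have hlim2 : Tendsto (fun N : ℕ ↦ |B (dyp T N ⌊(t : ℝ) / T * 2 ^ N⌋₊) ω|) atTop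
      (𝓝 |B t ω|) := ((hc.tendsto t).comp hlim).abs
  refine le_of_tendsto hlim2 (Filter.Eventually.of_forall fun N ↦ key N _ ?_)
  apply Nat.floor_le_of_le
  push_cast
  have : (t : ℝ) / T ≤ 1 := by
    rw [div_le_one hTp]; exact_mod_cast ht
  calc (t : ℝ) / T * 2 ^ N ≤ 1 * 2 ^ N := by gcongr
    _ = _ := one_mul _

lemma ae_small {Ω : Type*} [MeasurableSpace Ω] {P : Measure Ω} {B : ℝ≥0 → Ω → ℝ}
    (hB : IsPreBrownianReal B P) : ∀ᵐ ω ∂P, ∀ᶠ n : ℕ in atTop,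
      zet B ((n : ℝ≥0) + 1) 4 ω ≤ ENNReal.ofReal ((((n : ℝ) + 1) / 80) ^ 4) := by
  obtain ⟨C, hC, hCb⟩ := lint_zet_le hB
  obtain ⟨g, hg⟩ : ∃ g : ℕ → Ω → ℝ≥0∞, g = fun (n : ℕ) (ω : Ω) =>
      ENNReal.ofReal ((80 / ((n : ℝ) + 1)) ^ 4) * zet B ((n : ℝ≥0) + 1) 4 ω := ⟨_, rfl⟩
  have hgm : ∀ n, AEMeasurable (g n) P := by
    intro n
    rw [hg]
    exact (aem_zet hB _ 4).const_mul _
  have hgi : ∀ n, ∫⁻ ω, g n ω ∂P ≤ C * ENNReal.ofReal (80 ^ 4 * (1 / ((n : ℝ) + 1) ^ 2)) := by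
    intro n
    rw [hg]
    simp only
    rw [lintegral_const_mul'' _ (aem_zet hB _ 4)]
    refine (mul_le_mul' le_rfl (hCb _)).trans ?_
    rw [mul_left_comm, ← ENNReal.ofReal_mul (by positivity)]
    refine mul_le_mul' le_rfl (ENNReal.ofReal_le_ofReal (le_of_eq ?_))
    push_cast
    have h1 : ((n : ℝ) + 1) ≠ 0 := by positivity
    field_simp
  have hsum : ∫⁻ ω, ∑' n, g n ω ∂P < ∞ := by
    rw [lintegral_tsum hgm]
    refine lt_of_le_of_lt (ENNReal.tsum_le_tsum hgi) ?_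
    rw [ENNReal.tsum_mul_left]
    refine ENNReal.mul_lt_top hC ?_
    have hs : Summable (fun n : ℕ => (80 : ℝ) ^ 4 * (1 / ((n : ℝ) + 1) ^ 2)) := by
      refine Summable.mul_left _ ?_
      have h1 : Summable (fun n : ℕ => 1 / (n : ℝ) ^ 2) :=
        Real.summable_one_div_nat_pow.2 (by norm_num)
      have h2 := (summable_nat_add_iff 1).2 h1
      refine h2.congr fun n => ?_
      push_cast
      rfl
    rw [← ENNReal.ofReal_tsum_of_nonneg (fun n => by positivity) hs]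
    exact ENNReal.ofReal_lt_top
  have hae := ae_lt_top' (AEMeasurable.tsum hgm) hsum.ne
  filter_upwards [hae] with ω hω
  have h1 : Tendsto (fun n => g n ω) atTop (𝓝 0) := ENNReal.tendsto_atTop_zero_of_tsum_ne_top hω.ne
  have h2 : ∀ᶠ n in atTop, g n ω < 1 := h1.eventually (gt_mem_nhds zero_lt_one)
  filter_upwards [h2] with n hn
  rw [hg] at hn
  simp only at hn
  have h3 : (0 : ℝ) < (80 / ((n : ℝ) + 1)) ^ 4 := by positivity
  have h4 : ENNReal.ofReal ((80 / ((n : ℝ) + 1)) ^ 4) ≠ 0 := by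
    rw [Ne, ENNReal.ofReal_eq_zero, not_le]
    exact h3
  have h5 : zet B ((n : ℝ≥0) + 1) 4 ω ≤ (ENNReal.ofReal ((80 / ((n : ℝ) + 1)) ^ 4))⁻¹ := by
    rw [ENNReal.le_inv_iff_mul_le, mul_comm]
    exact hn.le
  refine h5.trans (le_of_eq ?_)
  rw [← ENNReal.ofReal_inv_of_pos h3]
  congr 1
  rw [← inv_pow, inv_div]

/-- `exp (B_t - t / 2)` tends to zero -/
lemma ae_lim {Ω : Type*} [MeasurableSpace Ω] {P : Measure Ω} {B : ℝ≥0 → Ω → ℝ}
    (hB : IsBrownianReal B P) : ∀ᵐ ω ∂P,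
      Tendsto (fun t : ℝ≥0 => Real.exp (B t ω - t / 2)) atTop (𝓝 0) := by
  have hpB := hB.toIsPreBrownianReal
  filter_upwards [hB.cont, hpB.eval_zero_ae_eq_zero, ae_small hpB] with ω hc h0 hs
  obtain ⟨N, hN⟩ := eventually_atTop.1 hs
  have hbound : ∀ᶠ t : ℝ≥0 in atTop, Real.exp (B t ω - t / 2) ≤ Real.exp (1 / 8 - 3 / 8 * (t : ℝ)) := by
    filter_upwards [eventually_ge_atTop ((N : ℝ≥0) + 1)] with t ht
    have hfl : ((⌊t⌋₊ : ℕ) : ℝ≥0) ≤ t := Nat.floor_le (zero_le (a := t))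
    have hfl2 : t ≤ ((⌊t⌋₊ : ℕ) : ℝ≥0) + 1 := (Nat.lt_floor_add_one t).le
    have hfN : N ≤ ⌊t⌋₊ := Nat.le_floor (le_trans (by simp) ht)
    have h1 := hN _ hfN
    have h2 : zet B (((⌊t⌋₊ : ℕ) : ℝ≥0) + 1) 4 ω ≠ ∞ := ne_top_of_le_ne_top ENNReal.ofReal_ne_top h1
    have h3 := abs_le_zet hc h0 (by positivity) h2 hfl2
    have h4 : (zet B (((⌊t⌋₊ : ℕ) : ℝ≥0) + 1) 4 ω).toReal ≤ ((((⌊t⌋₊ : ℕ) : ℝ) + 1) / 80) ^ 4 :=
      ENNReal.toReal_le_of_le_ofReal (by positivity) h1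
    have h5 : (zet B (((⌊t⌋₊ : ℕ) : ℝ≥0) + 1) 4 ω).toReal ^ (((4 : ℕ) : ℝ)⁻¹) ≤
        (((⌊t⌋₊ : ℕ) : ℝ) + 1) / 80 := by
      have h6 := Real.rpow_le_rpow ENNReal.toReal_nonneg h4
        (by positivity : (0 : ℝ) ≤ ((4 : ℕ) : ℝ)⁻¹)
      rwa [Real.pow_rpow_inv_natCast (by positivity) (by norm_num)] at h6
    have h7 : ((⌊t⌋₊ : ℕ) : ℝ) ≤ (t : ℝ) := by exact_mod_cast hfl
    have h8 := (le_abs_self _).trans h3
    apply Real.exp_le_exp.2
    linarith
  have hz : Tendsto (fun t : ℝ≥0 => Real.exp (1 / 8 - 3 / 8 * (t : ℝ))) atTop (𝓝 0) := by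
    refine Real.tendsto_exp_atBot.comp ?_
    have h1 : Tendsto (fun t : ℝ≥0 => (t : ℝ)) atTop atTop := NNReal.tendsto_coe_atTop.2 tendsto_id
    have h2 : Tendsto (fun t : ℝ≥0 => 3 / 8 * (t : ℝ)) atTop atTop :=
      h1.const_mul_atTop (by norm_num)
    have h3 := tendsto_atBot_add_const_left atTop (1 / 8 : ℝ) (tendsto_neg_atTop_atBot.comp h2)
    refine h3.congr fun t => ?_
    simp only [Function.comp]
    ring
  exact squeeze_zero' (Eventually.of_forall fun t => (Real.exp_pos _).le) hbound hz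

end EXB

theorem t_EXB : S_EXB := by
  classical
  obtain ⟨Ω, mΩ, P, hP, hPc, B2, hB2⟩ := Pool.Agent.Helper41.BS.exists_bm2
  obtain ⟨B, hBd⟩ : ∃ B : ℝ≥0 → Ω → ℝ, B = B2 0 := ⟨_, rfl⟩
  have hB : IsBrownianReal B P := hBd ▸ hB2.bm 0
  have hmeas : ∀ t, Measurable (B t) := fun t => by rw [hBd]; exact hB2.meas 0 t
  have hpB := hB.toIsPreBrownianReal
  obtain ⟨G, hG⟩ : ∃ G : Set Ω, G = {ω | Continuous (fun t => B t ω) ∧ B 0 ω = 0 ∧
    Tendsto (fun t : ℝ≥0 => Real.exp (B t ω - t / 2)) atTop (𝓝 0)} := ⟨_, rfl⟩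
  have hGae : ∀ᵐ ω ∂P, ω ∈ G := by
    filter_upwards [hB.cont, hpB.eval_zero_ae_eq_zero, EXB.ae_lim hB] with ω h1 h2 h3
    rw [hG]
    exact ⟨h1, h2, h3⟩
  have hG0 : P Gᶜ = 0 := hGae
  obtain ⟨W, hW⟩ : ∃ W : ℝ≥0 → Ω → ℝ, W = fun t ω => if ω ∈ G then B t ω else 0 := ⟨_, rfl⟩
  have hWB : ∀ t, ∀ ω ∈ G, W t ω = B t ω := by
    intro t ω hω
    rw [hW]
    simp only [hω, if_true]
  have hW0 : ∀ t, ∀ ω, ω ∉ G → W t ω = 0 := by
    intro t ω hω
    rw [hW]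
    simp only [hω, if_false]
  obtain ⟨m, hm⟩ : ∃ m : ℝ≥0 → MeasurableSpace Ω, m = fun s =>
    MeasurableSpace.comap (fun ω (r : Set.Iic s) => B r ω) inferInstance := ⟨_, rfl⟩
  have hBm : ∀ s r, r ≤ s → Measurable[m s] (B r) := by
    intro s r hr
    rw [hm]
    have e : B r = (fun f : Set.Iic s → ℝ => f ⟨r, hr⟩) ∘ (fun ω (r : Set.Iic s) => B r ω) := rfl
    rw [e]
    exact (measurable_pi_apply _).comp (comap_measurable _)
  have hmle : ∀ s, m s ≤ mΩ := by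
    intro s
    rw [hm]
    exact Measurable.comap_le (measurable_pi_lambda _ fun r => hmeas r)
  have hmmono : ∀ s t, s ≤ t → m s ≤ m t := by
    intro s t hst
    have h1 : @Measurable Ω (Set.Iic s → ℝ) (m t) _ (fun ω (r : Set.Iic s) => B r ω) :=
      @measurable_pi_lambda _ _ _ (_) _ _ fun r => hBm t r (le_trans r.2 hst)
    have h2 := h1.comap_le
    rw [hm] at h2 ⊢
    exact h2
  let F : Filtration ℝ≥0 mΩ :=
    { seq := fun t => m t ⊔ MeasurableSpace.generateFrom {A : Set Ω | P A = 0}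
      mono' := fun s t hst => sup_le_sup_right (hmmono s t hst) _
      le' := fun t => sup_le (hmle t) (MeasurableSpace.generateFrom_le fun A hA => by
        have hA0 : P A = 0 := by simpa using hA
        exact measurableSet_of_null hA0) }
  have hF : ∀ t, F t = m t ⊔ MeasurableSpace.generateFrom {A : Set Ω | P A = 0} := fun t => rfl
  have hnull : ∀ (t : ℝ≥0) (A : Set Ω), P A = 0 → MeasurableSet[F t] A := by
    intro t A hA
    have h1 : MeasurableSet[MeasurableSpace.generateFrom {A : Set Ω | P A = 0}] A :=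
      MeasurableSpace.measurableSet_generateFrom hA
    exact (le_sup_right : MeasurableSpace.generateFrom {A : Set Ω | P A = 0} ≤ F t) _ h1
  have hGm : ∀ t, MeasurableSet[F t] G := by
    intro t
    have h1 := hnull t _ hG0
    have h2 := @MeasurableSet.compl _ _ (F t) h1
    rwa [compl_compl] at h2
  have hcont : ∀ ω, Continuous fun t => W t ω := by
    intro ω
    by_cases hω : ω ∈ G
    · have h1 : (fun t => W t ω) = fun t => B t ω := by
        funext t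
        exact hWB t ω hω
      rw [h1]
      rw [hG] at hω
      exact hω.1
    · have h1 : (fun t => W t ω) = fun t => 0 := by
        funext t
        exact hW0 t ω hω
      rw [h1]
      exact continuous_const
  have hae : ∀ t, W t =ᵐ[P] B t := by
    intro t
    filter_upwards [hGae] with ω hω
    exact hWB t ω hω
  refine ⟨Ω, mΩ, P, hP, hPc, F, W, hcont, ?_, ?_, hnull, ?_, ?_, ?_⟩
  · intro ω
    by_cases hω : ω ∈ G
    · rw [hWB 0 ω hω]
      rw [hG] at hω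
      exact hω.2.1
    · exact hW0 0 ω hω
  · intro t
    have h1 : Measurable[F t] (B t) := (hBm t t le_rfl).mono le_sup_left le_rfl
    rw [hW]
    refine Measurable.ite (f := B t) (g := fun _ => (0 : ℝ)) (p := fun ω => ω ∈ G) (hGm t) h1 ?_
    exact measurable_const
  · intro s t hst
    rw [hF]
    refine Pool.Agent.R228.BD.indep_sup_null _ _ ?_
    have h := (hpB.indepFun_shift s).symm
    have h2 : IndepFun (fun ω (r : Set.Iic s) => B r ω) (fun ω => B t ω - B s ω) P := by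
      have hψ : Measurable (fun g : ℝ≥0 → ℝ => g (t - s)) := measurable_pi_apply _
      have h3 := h.comp measurable_id hψ
      have e : (fun ω => B t ω - B s ω) = (fun g : ℝ≥0 → ℝ => g (t - s)) ∘
          (fun ω (r : ℝ≥0) => B (s + r) ω - B s ω) := by
        funext ω
        simp only [Function.comp, add_tsub_cancel_of_le hst]
      rw [e]
      exact h3
    have h4 : IndepFun (fun ω (r : Set.Iic s) => B r ω) (fun ω => W t ω - W s ω) P :=
      h2.congr (ae_eq_refl _) ((hae t).sub (hae s)).symm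
    rw [hm]
    exact (IndepFun_iff_Indep _ _ _).1 h4
  · intro s t hst
    have h1 : P.map (fun ω => W t ω - W s ω) = P.map (B t - B s) :=
      Measure.map_congr ((hae t).sub (hae s))
    rw [h1, (hpB.hasLaw_sub t s).map_eq]
    congr 1
    ext
    rw [coe_nndist, Real.dist_eq]
    have h2 : (s : ℝ) ≤ t := hst
    rw [NNReal.coe_sub hst]
    exact abs_of_nonneg (by simpa using h2)
  · intro ω
    by_cases hω : ω ∈ G
    · have h1 : (fun t : ℝ≥0 => Real.exp (W t ω - t / 2)) =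
          fun t : ℝ≥0 => Real.exp (B t ω - t / 2) := by
        funext t
        rw [hWB t ω hω]
      rw [h1]
      rw [hG] at hω
      exact hω.2.2
    · have h1 : (fun t : ℝ≥0 => Real.exp (W t ω - t / 2)) =
          fun t : ℝ≥0 => Real.exp (0 - t / 2) := by
        funext t
        rw [hW0 t ω hω]
      rw [h1]
      refine Real.tendsto_exp_atBot.comp ?_
      have h1 : Tendsto (fun t : ℝ≥0 => (t : ℝ)) atTop atTop := NNReal.tendsto_coe_atTop.2 tendsto_id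
      have h2 : Tendsto (fun t : ℝ≥0 => (1 / 2 : ℝ) * (t : ℝ)) atTop atTop :=
        h1.const_mul_atTop (by norm_num)
      refine (tendsto_neg_atTop_atBot.comp h2).congr fun t => ?_
      simp only [Function.comp]
      ring

end Pool.Agent.T2h33.RG
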