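import Pool.Agent.T2h33.RG.Basic

/-!
# Project RG, part FIN (helper38)
-/

set_option autoImplicit false
set_option linter.all false

open MeasureTheory ProbabilityTheory Filter Topology Set
open scoped NNReal ENNReal

namespace Pool.Agent.T2h33.RG

namespace FIN

lemma jc {m : ℝ≥0 → ℝ} (hm : Continuous m) : Continuous fun u : ℝ => m u.toNNReal :=
  hm.comp continuous_real_toNNReal

lemma jint_cont {m : ℝ≥0 → ℝ} (hm : Continuous m) : Continuous fun t : ℝ≥0 => jint m 0 t := by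
  unfold jint
  exact (intervalIntegral.continuous_primitive
    (fun a b => (jc hm).intervalIntegrable a b) _).comp NNReal.continuous_coe

lemma jint_mono {m : ℝ≥0 → ℝ} (hm : Continuous m) (h0 : ∀ t, 0 ≤ m t) :
    Monotone fun t : ℝ≥0 => jint m 0 t := by
  intro s t hst
  show jint m 0 s ≤ jint m 0 t
  unfold jint
  rw [← intervalIntegral.integral_add_adjacent_intervals
    ((jc hm).intervalIntegrable ((0 : ℝ≥0) : ℝ) (s : ℝ)) ((jc hm).intervalIntegrable (s : ℝ) (t : ℝ))]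
  have h1 : 0 ≤ ∫ u in (s : ℝ)..t, m u.toNNReal :=
    intervalIntegral.integral_nonneg (by exact_mod_cast hst) fun u _ => h0 _
  linarith

lemma jint_zero (m : ℝ≥0 → ℝ) : jint m 0 0 = 0 := by
  unfold jint
  simp

lemma evar_sub {α : Type*} [LinearOrder α] (p q : α → ℝ) (s : Set α) :
    eVariationOn (fun x => p x - q x) s ≤ eVariationOn p s + eVariationOn q s := by
  refine iSup_le ?_
  rintro ⟨n, ⟨u, hu, us⟩⟩
  calc ∑ i ∈ Finset.range n, edist (p (u (i + 1)) - q (u (i + 1))) (p (u i) - q (u i))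
      ≤ ∑ i ∈ Finset.range n, (edist (p (u (i + 1))) (p (u i)) + edist (q (u (i + 1))) (q (u i))) := by
        refine Finset.sum_le_sum fun i _ => ?_
        rw [edist_dist, edist_dist, edist_dist, ← ENNReal.ofReal_add dist_nonneg dist_nonneg]
        exact ENNReal.ofReal_le_ofReal (dist_sub_sub_le _ _ _ _)
    _ = ∑ i ∈ Finset.range n, edist (p (u (i + 1))) (p (u i)) +
        ∑ i ∈ Finset.range n, edist (q (u (i + 1))) (q (u i)) := Finset.sum_add_distrib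
    _ ≤ _ := add_le_add (eVariationOn.sum_le hu us) (eVariationOn.sum_le hu us)

lemma fvar {p q : ℝ≥0 → ℝ} (hp : Monotone p) (hq : Monotone q) : FVar fun t => p t - q t := by
  intro T
  have h1 : ∀ r : ℝ≥0 → ℝ, Monotone r → eVariationOn r (Icc 0 T) ≠ ⊤ := by
    intro r hr
    have := (hr.monotoneOn (univ : Set ℝ≥0)).eVariationOn_eq (mem_univ 0) (mem_univ T)
    rw [univ_inter] at this
    rw [this]
    exact ENNReal.ofReal_ne_top
  exact ne_top_of_le_ne_top (ENNReal.add_ne_top.2 ⟨h1 p hp, h1 q hq⟩) (evar_sub p q _)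

end FIN

open FIN

theorem t_FIN (hPTH : S_PTH) (hTEL : S_TEL) (hKPA : S_KPA) (hNAC : S_NAC) (hEXB : S_EXB)
    (hSUPM : S_SUPM) (hMEA : S_MEA) (hSTEP : S_STEP) (hDOOB : S_DOOB) (hDOOK : S_DOOK)
    (hPSI : S_PSI) (hFUB : S_FUB) (hASM : S_ASM) (hGMA : S_GMA) (hMQ : S_MQ) (hSIN : S_SIN) :
    S_FIN := by
  obtain ⟨Ω, mΩ, P, hP, hc, F, W, h⟩ := hEXB
  obtain ⟨G, hG, hGA, hGN⟩ := hGMA hPTH hKPA hSUPM hMEA hTEL hSTEP hDOOB hDOOK hPSI hFUB hASM
    Ω mΩ P F W h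
  obtain ⟨hM1, hM2⟩ := hMQ hPTH hKPA hSUPM hMEA hSTEP Ω mΩ P F W h
  have hS := hSIN hPTH hKPA hSUPM hMEA hTEL hSTEP hDOOB hDOOK Ω mΩ P F W h
  have hK := fun ω => hKPA (pm W ω) (h.pm_cont ω) (pm_pos ω) (h.pm_lim ω)
  have hcJ : ∀ ω, Continuous fun t : ℝ≥0 => jint (pm W ω) 0 t := fun ω => jint_cont (h.pm_cont ω)
  have hcA : ∀ ω, Continuous fun t => AA W t ω := by
    intro ω
    exact (hcJ ω).sub ((continuous_const.sub (hK ω).2.1).const_mul 2 |>.congr fun t => rfl)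
  have hcM : ∀ ω, Continuous fun t => mm W t ω := h.pm_cont
  refine ⟨Ω, mΩ, P, hP, hc, F, G, mm W, NN W, AA W, QQ W, fun t => ?_, h.null 0, hM1, hcM, hM2,
    fun ω => ⟨jint_cont ((h.pm_cont ω).pow 2), jint_mono ((h.pm_cont ω).pow 2) fun t => sq_nonneg _,
      jint_zero _⟩, fun t ω => ?_, hGN, fun ω => (hcM ω).sub (hcA ω), hGA,
    fun ω => ⟨hcA ω, ?_, ?_⟩, ?_⟩
  · rw [hG t]
    exact le_sup_left
  · show mm W t ω = (mm W t ω - AA W t ω) + AA W t ω
    ring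
  · have h1 : Monotone fun t : ℝ≥0 => 2 * (KK W 0 ω - KK W t ω) := by
      intro s t hst
      have := (hK ω).1 hst
      show 2 * (fsup (pm W ω) 0 - fsup (pm W ω) s) ≤ 2 * (fsup (pm W ω) 0 - fsup (pm W ω) t)
      linarith
    exact fvar (jint_mono (h.pm_cont ω) fun t => (pm_pos ω t).le) h1
  · show jint (pm W ω) 0 0 - 2 * (KK W 0 ω - KK W 0 ω) = 0
    rw [jint_zero]
    ring
  · filter_upwards [hS] with ω hω
    exact hNAC hKPA (pm W ω) (h.pm_cont ω) (pm_pos ω) (h.pm_lim ω) hω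

end Pool.Agent.T2h33.RG
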