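import Pool.Agent.T2h33.RG.StmU

/-! Project RG (helper33): the final theorem with all decompositions -/

set_option autoImplicit false
set_option linter.all false

open MeasureTheory ProbabilityTheory Filter Topology Set
open scoped NNReal ENNReal

namespace Pool.Agent.T2h33.RG

theorem t_FINU (hF : S_FIN) (hV : S_UVAR) (hU : S_UNI) : S_FINU := by
  obtain ⟨Ω, mΩ, P, hP, hc, F, G, M, N, A, Q, hFG, hnull, hM, hMc, hMQ, hQ, hdec, hN, hNc, hAm,
    hA, hnot⟩ := hF
  have hcl : CLM P G N := by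
    refine ⟨fun t => (hN.1 t).measurable, hNc, fun _ _ => ⊤, isLocalizingSequence_const_top G P,
      fun n => ?_⟩
    have h1 : Martingale (fun (_ : ℝ≥0) => N 0) G P :=
      martingale_const_fun G P (hN.1 0) (hN.integrable 0)
    have h2 := hN.sub h1
    simp only [stoppedProcess_const_top]
    exact h2
  have hd : Dec P G M N A :=
    ⟨hcl, hAm, fun ω => (hA ω).1, fun ω => (hA ω).2.1, fun ω => (hA ω).2.2, hdec⟩
  have hnull' : ∀ B : Set Ω, P B = 0 → MeasurableSet[G 0] B := fun B hB => hFG 0 B (hnull B hB)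
  refine ⟨Ω, mΩ, P, hP, hc, F, G, M, Q, hFG, hnull, hM, hMc, hMQ, hQ, ⟨N, A, hN, hd⟩,
    fun N' A' h' => ?_⟩
  filter_upwards [hU hV Ω mΩ P G hnull' M N A N' A' hd h', hnot] with ω h1 h2
  have : (fun t => A' t ω) = fun t => A t ω := by
    funext t
    exact (h1 t).symm
  rw [this]
  exact h2

end Pool.Agent.T2h33.RG
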