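import Pool.Agent.T2h33.RG.Basic

/-! Task FUB (project RG): Fubini for the future supremum -/

set_option autoImplicit false
set_option linter.unusedVariables false

open MeasureTheory ProbabilityTheory Filter Topology Set
open scoped NNReal ENNReal

namespace Pool.Agent.T2h33.RG

namespace FUB

lemma inner1 {Y S K : ℝ} (hY : 0 ≤ Y) (hK : 0 < K) :
    ∫⁻ x in Ioi (0 : ℝ), ENNReal.ofReal (Y * (if x < S then (1 - if x < K then 1 else 0) else 0)) =
      ENNReal.ofReal (Y * max (S - K) 0) := by
  have h1 : ∀ x : ℝ, ENNReal.ofReal (Y * (if x < S then (1 - if x < K then 1 else 0) else 0)) =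
      (Ico K S).indicator (fun _ => ENNReal.ofReal Y) x := by
    intro x
    by_cases hx : x ∈ Ico K S
    · rw [indicator_of_mem hx, if_pos hx.2, if_neg (not_lt.2 hx.1), sub_zero, mul_one]
    · rw [indicator_of_notMem hx]
      by_cases h2 : x < S
      · have h3 : x < K := by
          by_contra hc
          exact hx ⟨not_lt.1 hc, h2⟩
        rw [if_pos h2, if_pos h3, sub_self, mul_zero, ENNReal.ofReal_zero]
      · rw [if_neg h2, mul_zero, ENNReal.ofReal_zero]
  rw [lintegral_congr h1, lintegral_indicator measurableSet_Ico, Measure.restrict_restrict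
    measurableSet_Ico, lintegral_const, Measure.restrict_apply_univ]
  have h2 : Ico K S ∩ Ioi 0 = Ico K S := by
    rw [inter_eq_left]
    intro x hx
    exact hK.trans_le hx.1
  rw [h2, Real.volume_Ico, ENNReal.ofReal_mul hY]
  congr 1
  rcases le_total (S - K) 0 with h3 | h3
  · rw [max_eq_right h3, ENNReal.ofReal_zero, ENNReal.ofReal_of_nonpos h3]
  · rw [max_eq_left h3]

lemma inner2 {Y S M : ℝ} (hY : 0 ≤ Y) (hM : 0 < M) (hMS : M ≤ S) :
    ∫⁻ x in Ioi (0 : ℝ), ENNReal.ofReal (Y * (if x < S then (1 - min 1 (M / x)) else 0)) =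
      ENNReal.ofReal (Y * (S - M - M * Real.log S + M * Real.log M)) := by
  have h1 : ∀ x ∈ Ioi (0 : ℝ), ENNReal.ofReal (Y * (if x < S then (1 - min 1 (M / x)) else 0)) =
      (Ioo M S).indicator (fun x => ENNReal.ofReal (Y * (1 - M / x))) x := by
    intro x hx0
    have hx0' : (0 : ℝ) < x := hx0
    by_cases hx : x ∈ Ioo M S
    · rw [indicator_of_mem hx, if_pos hx.2, min_eq_right]
      rw [div_le_one hx0']
      exact hx.1.le
    · rw [indicator_of_notMem hx]
      by_cases h2 : x < S
      · have h3 : x ≤ M := by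
          by_contra hc
          exact hx ⟨not_le.1 hc, h2⟩
        rw [if_pos h2, min_eq_left, sub_self, mul_zero, ENNReal.ofReal_zero]
        rwa [one_le_div hx0']
      · rw [if_neg h2, mul_zero, ENNReal.ofReal_zero]
  rw [setLIntegral_congr_fun measurableSet_Ioi h1, lintegral_indicator measurableSet_Ioo,
    Measure.restrict_restrict measurableSet_Ioo]
  have h2 : Ioo M S ∩ Ioi 0 = Ioo M S := by
    rw [inter_eq_left]
    intro x hx
    exact hM.trans hx.1
  rw [h2, Measure.restrict_congr_set Ioo_ae_eq_Ioc]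
  have hint : IntervalIntegrable (fun x : ℝ => Y * (1 - M / x)) volume M S := by
    refine ContinuousOn.intervalIntegrable ?_
    refine continuousOn_const.mul (continuousOn_const.sub (continuousOn_const.div continuousOn_id ?_))
    intro x hx
    rw [uIcc_of_le hMS] at hx
    exact (hM.trans_le hx.1).ne'
  rw [← ofReal_integral_eq_lintegral_ofReal]
  · rw [← intervalIntegral.integral_of_le hMS]
    congr 1
    rw [intervalIntegral.integral_const_mul]
    congr 1
    have h3 : IntervalIntegrable (fun x : ℝ => M * x⁻¹) volume M S := by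
      refine ContinuousOn.intervalIntegrable ?_
      refine continuousOn_const.mul (continuousOn_id.inv₀ ?_)
      intro x hx
      rw [uIcc_of_le hMS] at hx
      exact (hM.trans_le hx.1).ne'
    have h4 : ∀ x : ℝ, 1 - M / x = 1 - M * x⁻¹ := fun x => by rw [div_eq_mul_inv]
    simp_rw [h4]
    rw [intervalIntegral.integral_sub intervalIntegrable_const h3, intervalIntegral.integral_const,
      intervalIntegral.integral_const_mul, integral_inv_of_pos hM (hM.trans_le hMS),
      Real.log_div (hM.trans_le hMS).ne' hM.ne', smul_eq_mul]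
    ring
  · rw [intervalIntegrable_iff_integrableOn_Ioc_of_le hMS] at hint
    exact hint
  · rw [EventuallyLE, ae_restrict_iff' measurableSet_Ioc]
    refine Eventually.of_forall fun x hx => ?_
    have h3 : 0 < x := hM.trans hx.1
    have h4 : M / x ≤ 1 := by
      rw [div_le_one h3]
      exact hx.1.le
    exact mul_nonneg hY (by linarith)

end FUB

open FUB

theorem t_FUB : S_FUB := by
  classical
  intro hP hK hS hM hTel hSt hDoob hDook Ω mΩ P _ F W h t S Y hSm hYm hSP hYP hY0 hSM
  have hFt : F t ≤ mΩ := F.le t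
  have hSm' : Measurable S := hSm.mono hFt le_rfl
  have hYm' : Measurable Y := hYm.mono hFt le_rfl
  have hMm : Measurable (mm W t) := (h.mm_meas le_rfl).mono hFt le_rfl
  have hKm : Measurable (KK W t) := (hM hP hK Ω mΩ P F W h).2 t
  have hKM : ∀ ω, mm W t ω ≤ KK W t ω := fun ω =>
    (hK (pm W ω) (h.pm_cont ω) (pm_pos ω) (h.pm_lim ω)).2.2.2.1 t
  have hK0 : ∀ ω, 0 < KK W t ω := fun ω => (mm_pos t ω).trans_le (hKM ω)
  have hYi : Integrable Y P := hYP.integrable h hP hS hYm'
  obtain ⟨g1, hg1⟩ : ∃ g1 : ℝ → Ω → ℝ, ∀ x ω, g1 x ω =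
      Y ω * (if x < S ω then (1 - if x < KK W t ω then 1 else 0) else 0) := ⟨_, fun _ _ => rfl⟩
  obtain ⟨g2, hg2⟩ : ∃ g2 : ℝ → Ω → ℝ, ∀ x ω, g2 x ω =
      Y ω * (if x < S ω then (1 - min 1 (mm W t ω / x)) else 0) := ⟨_, fun _ _ => rfl⟩
  -- joint measurability
  have hg1m : Measurable (fun p : Ω × ℝ => g1 p.2 p.1) := by
    simp_rw [hg1]
    refine (hYm'.comp measurable_fst).mul (Measurable.ite ?_ ?_ measurable_const)
    · exact measurableSet_lt measurable_snd (hSm'.comp measurable_fst)
    · refine measurable_const.sub (Measurable.ite ?_ measurable_const measurable_const)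
      exact measurableSet_lt measurable_snd (hKm.comp measurable_fst)
  have hg2m : Measurable (fun p : Ω × ℝ => g2 p.2 p.1) := by
    simp_rw [hg2]
    refine (hYm'.comp measurable_fst).mul (Measurable.ite ?_ ?_ measurable_const)
    · exact measurableSet_lt measurable_snd (hSm'.comp measurable_fst)
    · exact measurable_const.sub (measurable_const.min
        ((hMm.comp measurable_fst).div measurable_snd))
  -- bounds
  have hb1 : ∀ x ω, 0 ≤ g1 x ω ∧ g1 x ω ≤ Y ω := by
    intro x ω
    rw [hg1]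
    have h1 : (0 : ℝ) ≤ (if x < S ω then (1 - if x < KK W t ω then 1 else 0) else 0) ∧
        (if x < S ω then (1 - if x < KK W t ω then 1 else 0) else 0) ≤ (1 : ℝ) := by
      split_ifs <;> norm_num
    exact ⟨mul_nonneg (hY0 ω) h1.1, mul_le_of_le_one_right (hY0 ω) h1.2⟩
  have hb2 : ∀ x, 0 < x → ∀ ω, 0 ≤ g2 x ω ∧ g2 x ω ≤ Y ω := by
    intro x hx ω
    rw [hg2]
    have h0 : 0 ≤ min 1 (mm W t ω / x) := le_min zero_le_one (div_nonneg (mm_pos t ω).le hx.le)
    have h00 : min 1 (mm W t ω / x) ≤ 1 := min_le_left _ _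
    have h1 : (0 : ℝ) ≤ (if x < S ω then (1 - min 1 (mm W t ω / x)) else 0) ∧
        (if x < S ω then (1 - min 1 (mm W t ω / x)) else 0) ≤ (1 : ℝ) := by
      split_ifs
      · constructor <;> linarith
      · norm_num
    exact ⟨mul_nonneg (hY0 ω) h1.1, mul_le_of_le_one_right (hY0 ω) h1.2⟩
  have hgi : ∀ (g : Ω → ℝ), Measurable g → (∀ ω, 0 ≤ g ω ∧ g ω ≤ Y ω) → Integrable g P := by
    intro g hg hb
    refine hYi.mono' hg.aestronglyMeasurable (Eventually.of_forall fun ω => ?_)
    rw [Real.norm_eq_abs, abs_of_nonneg (hb ω).1]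
    exact (hb ω).2
  have hg1m' : ∀ x, Measurable (g1 x) := fun x => hg1m.comp (measurable_prodMk_right (y := x))
  have hg2m' : ∀ x, Measurable (g2 x) := fun x => hg2m.comp (measurable_prodMk_right (y := x))
  -- the identity for each `x`
  have hkey : ∀ x, 0 < x → ∫ ω, g1 x ω ∂P = ∫ ω, g2 x ω ∂P := by
    intro x hx
    obtain ⟨Y', hY'⟩ : ∃ Y' : Ω → ℝ, ∀ ω, Y' ω = if x < S ω then Y ω else 0 := ⟨_, fun _ => rfl⟩
    have hY'm : Measurable[F t] Y' := by
      have : Y' = fun ω => if x < S ω then Y ω else 0 := funext hY'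
      rw [this]
      exact Measurable.ite (measurableSet_lt measurable_const hSm) hYm measurable_const
    have hY'b : ∀ ω, 0 ≤ Y' ω ∧ Y' ω ≤ Y ω := by
      intro ω
      rw [hY']
      have := hY0 ω
      split_ifs
      · exact ⟨this, le_rfl⟩
      · exact ⟨le_rfl, this⟩
    have hY'P : Pg W t Y' := hYP.of_abs_le fun ω => by
      rw [abs_of_nonneg (hY'b ω).1, abs_of_nonneg (hY0 ω)]
      exact (hY'b ω).2
    have hY'm' : Measurable Y' := hY'm.mono hFt le_rfl
    have h1 := hDook hP hK hS hM hDoob hTel hSt Ω mΩ P F W h t (fun _ => x) Y' x measurable_const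
      hY'm hx (fun _ => le_rfl) hY'P
    have e1 : ∀ ω, g1 x ω = Y' ω - Y' ω * (if x < KK W t ω then 1 else 0) := by
      intro ω
      rw [hg1, hY']
      split_ifs <;> ring
    have e2 : ∀ ω, g2 x ω = Y' ω - Y' ω * min 1 (mm W t ω / x) := by
      intro ω
      rw [hg2, hY']
      split_ifs <;> ring
    have i0 : Integrable Y' P := hgi Y' hY'm' hY'b
    have i1 : Integrable (fun ω => Y' ω * (if x < KK W t ω then 1 else 0)) P := by
      have : (fun ω => Y' ω * (if x < KK W t ω then 1 else 0)) = fun ω => Y' ω - g1 x ω :=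
        funext fun ω => by rw [e1]; ring
      rw [this]
      exact i0.sub (hgi _ (hg1m' x) (hb1 x))
    have i2 : Integrable (fun ω => Y' ω * min 1 (mm W t ω / x)) P := by
      have : (fun ω => Y' ω * min 1 (mm W t ω / x)) = fun ω => Y' ω - g2 x ω :=
        funext fun ω => by rw [e2]; ring
      rw [this]
      exact i0.sub (hgi _ (hg2m' x) (hb2 x hx))
    rw [integral_congr_ae (Eventually.of_forall e1), integral_congr_ae (Eventually.of_forall e2),
      integral_sub i0 i1, integral_sub i0 i2]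
    rw [h1]
  -- nonnegativity of the right-hand side
  have hlog : ∀ ω, 0 ≤ S ω - mm W t ω - mm W t ω * Real.log (S ω) +
      mm W t ω * Real.log (mm W t ω) := by
    intro ω
    have h1 := mm_pos (W := W) t ω
    have h2 : 0 < S ω := h1.trans_le (hSM ω)
    have h3 := Real.log_le_sub_one_of_pos (div_pos h2 h1)
    rw [Real.log_div h2.ne' h1.ne'] at h3
    have h4 := mul_le_mul_of_nonneg_left h3 h1.le
    have h5 : mm W t ω * (S ω / mm W t ω - 1) = S ω - mm W t ω := by
      field_simp
    rw [h5] at h4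
    linarith
  -- Tonelli
  have hT : ∫⁻ ω, ENNReal.ofReal (Y ω * max (S ω - KK W t ω) 0) ∂P =
      ∫⁻ ω, ENNReal.ofReal (Y ω * (S ω - mm W t ω - mm W t ω * Real.log (S ω) +
          mm W t ω * Real.log (mm W t ω))) ∂P := by
    have s1 : ∫⁻ ω, ENNReal.ofReal (Y ω * max (S ω - KK W t ω) 0) ∂P =
        ∫⁻ ω, (∫⁻ x in Ioi (0 : ℝ), ENNReal.ofReal (g1 x ω)) ∂P := by
      refine lintegral_congr fun ω => ?_
      rw [← inner1 (hY0 ω) (hK0 ω)]
      refine lintegral_congr fun x => ?_
      rw [hg1]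
    have s2 : ∫⁻ ω, ENNReal.ofReal (Y ω * (S ω - mm W t ω - mm W t ω * Real.log (S ω) +
          mm W t ω * Real.log (mm W t ω))) ∂P =
        ∫⁻ ω, (∫⁻ x in Ioi (0 : ℝ), ENNReal.ofReal (g2 x ω)) ∂P := by
      refine lintegral_congr fun ω => ?_
      rw [← inner2 (hY0 ω) (mm_pos t ω) (hSM ω)]
      refine lintegral_congr fun x => ?_
      rw [hg2]
    have sw1 := lintegral_lintegral_swap (μ := P) (ν := volume.restrict (Ioi (0 : ℝ)))
      (f := fun ω x => ENNReal.ofReal (g1 x ω)) (ENNReal.measurable_ofReal.comp hg1m).aemeasurable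
    have sw2 := lintegral_lintegral_swap (μ := P) (ν := volume.restrict (Ioi (0 : ℝ)))
      (f := fun ω x => ENNReal.ofReal (g2 x ω)) (ENNReal.measurable_ofReal.comp hg2m).aemeasurable
    rw [s1, s2, sw1, sw2]
    refine setLIntegral_congr_fun measurableSet_Ioi fun x hx => ?_
    have hx' : (0 : ℝ) < x := hx
    show ∫⁻ ω, ENNReal.ofReal (g1 x ω) ∂P = ∫⁻ ω, ENNReal.ofReal (g2 x ω) ∂P
    rw [← ofReal_integral_eq_lintegral_ofReal (hgi _ (hg1m' x) (hb1 x))
      (Eventually.of_forall fun ω => (hb1 x ω).1),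
      ← ofReal_integral_eq_lintegral_ofReal (hgi _ (hg2m' x) (hb2 x hx'))
      (Eventually.of_forall fun ω => (hb2 x hx' ω).1), hkey x hx']
  rw [integral_eq_lintegral_of_nonneg_ae, integral_eq_lintegral_of_nonneg_ae, hT]
  · exact Eventually.of_forall fun ω => mul_nonneg (hY0 ω) (hlog ω)
  · refine Measurable.aestronglyMeasurable ?_
    exact hYm'.mul (((hSm'.sub hMm).sub (hMm.mul (Real.measurable_log.comp hSm'))).add
      (hMm.mul (Real.measurable_log.comp hMm)))
  · exact Eventually.of_forall fun ω => mul_nonneg (hY0 ω) (le_max_right _ _)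
  · refine Measurable.aestronglyMeasurable ?_
    exact hYm'.mul ((hSm'.sub hKm).max measurable_const)

end Pool.Agent.T2h33.RG
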