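import Pool.Agent.T2h33.RG.Basic

/-!
# Project RG, task KPA: paths of the future supremum (helper60)
-/

set_option autoImplicit false
set_option linter.all false

open MeasureTheory ProbabilityTheory Filter Topology Set
open scoped NNReal ENNReal

namespace Pool.Agent.T2h33.RG

namespace KPA

variable {m : ℝ≥0 → ℝ}

lemma bdd (hm : Continuous m) (h0 : Tendsto m atTop (𝓝 0)) (t : ℝ≥0) : BddAbove (m '' Ici t) := by
  have h1 : ∀ᶠ u in atTop, m u < 1 := h0.eventually (gt_mem_nhds zero_lt_one)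
  obtain ⟨T, hT⟩ := eventually_atTop.1 h1
  obtain ⟨C, hC⟩ := ssup_bdd hm t T
  refine ⟨max C 1, ?_⟩
  rintro _ ⟨u, hu, rfl⟩
  rcases le_total T u with h | h
  · exact (hT u h).le.trans (le_max_right _ _)
  · exact (hC ⟨u, ⟨hu, h⟩, rfl⟩).trans (le_max_left _ _)

lemma le_f (hm : Continuous m) (h0 : Tendsto m atTop (𝓝 0)) {s u : ℝ≥0} (h : s ≤ u) :
    m u ≤ fsup m s := le_csSup (bdd hm h0 s) ⟨u, h, rfl⟩

lemma f_le {s : ℝ≥0} {c : ℝ} (h : ∀ u, s ≤ u → m u ≤ c) : fsup m s ≤ c := by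
  refine csSup_le ⟨m s, s, (le_refl s : s ≤ s), rfl⟩ ?_
  rintro _ ⟨u, hu, rfl⟩
  exact h u hu

lemma anti (hm : Continuous m) (h0 : Tendsto m atTop (𝓝 0)) : Antitone (fsup m) := by
  intro s t hst
  exact f_le fun u hu => le_f hm h0 (hst.trans hu)

lemma split (hm : Continuous m) (h0 : Tendsto m atTop (𝓝 0)) {s t : ℝ≥0} (hst : s ≤ t) :
    fsup m s = max (ssup m s t) (fsup m t) := by
  apply le_antisymm
  · refine f_le fun u hu => ?_
    rcases le_total u t with h | h
    · exact (le_ssup hm hu h).trans (le_max_left _ _)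
    · exact (le_f hm h0 h).trans (le_max_right _ _)
  · refine max_le (ssup_le hst fun u h1 h2 => le_f hm h0 h1) (anti hm h0 hst)

lemma lim (hm : Continuous m) (hp : ∀ t, 0 < m t) (h0 : Tendsto m atTop (𝓝 0)) :
    Tendsto (fsup m) atTop (𝓝 0) := by
  rw [Metric.tendsto_atTop]
  intro ε hε
  have h1 : ∀ᶠ u in atTop, m u < ε / 2 := h0.eventually (gt_mem_nhds (half_pos hε))
  obtain ⟨T, hT⟩ := eventually_atTop.1 h1
  refine ⟨T, fun t ht => ?_⟩
  have h2 : fsup m t ≤ ε / 2 := f_le fun u hu => (hT u (ht.le.trans hu)).le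
  have h3 : 0 < fsup m t := (hp t).trans_le (le_f hm h0 le_rfl)
  rw [Real.dist_eq, sub_zero, abs_of_pos h3]
  linarith

lemma attained (hm : Continuous m) (hp : ∀ t, 0 < m t) (h0 : Tendsto m atTop (𝓝 0)) (t : ℝ≥0) :
    ∃ u, t ≤ u ∧ m u = fsup m t := by
  have h1 : ∀ᶠ T in atTop, fsup m T < m t := (lim hm hp h0).eventually (gt_mem_nhds (hp t))
  obtain ⟨T, hT, htT⟩ := (h1.and (eventually_ge_atTop t)).exists
  obtain ⟨u, hu, hmax⟩ := (isCompact_Icc (a := t) (b := T)).exists_isMaxOn ⟨t, le_rfl, htT⟩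
    hm.continuousOn
  refine ⟨u, hu.1, le_antisymm (le_f hm h0 hu.1) (f_le fun v hv => ?_)⟩
  rcases le_total v T with h | h
  · exact hmax ⟨hv, h⟩
  · have h3 : m t ≤ m u := hmax (⟨le_rfl, htT⟩ : t ∈ Icc t T)
    exact ((le_f hm h0 h).trans hT.le).trans h3

lemma locconst (hm : Continuous m) (hp : ∀ t, 0 < m t) (h0 : Tendsto m atTop (𝓝 0)) (t : ℝ≥0)
    (ht : m t < fsup m t) : ∀ᶠ u in 𝓝 t, fsup m u = fsup m t := by
  obtain ⟨u, htu, hu⟩ := attained hm hp h0 t
  have hlt : t < u := by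
    refine lt_of_le_of_ne htu ?_
    rintro rfl
    exact ht.ne hu
  have h1 : ∀ᶠ v in 𝓝 t, m v < fsup m t := hm.continuousAt.eventually (gt_mem_nhds ht)
  obtain ⟨ε, hε, hball⟩ := Metric.eventually_nhds_iff.1 h1
  have h2 : ∀ᶠ v in 𝓝 t, v < u := gt_mem_nhds hlt
  have h3 : ∀ᶠ v in 𝓝 t, dist v t < ε := Metric.eventually_nhds_iff.2 ⟨ε, hε, fun v hv => hv⟩
  filter_upwards [h2, h3] with v hv2 hv3
  rcases le_total t v with h | h
  · refine le_antisymm (anti hm h0 h) ?_
    rw [← hu]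
    exact le_f hm h0 hv2.le
  · rw [split hm h0 h]
    refine max_eq_right (ssup_le h fun w hw1 hw2 => (hball ?_).le)
    refine lt_of_le_of_lt ?_ hv3
    rw [NNReal.dist_eq, NNReal.dist_eq, abs_sub_comm, abs_sub_comm (v : ℝ)]
    have e1 : (v : ℝ) ≤ w := hw1
    have e2 : (w : ℝ) ≤ t := hw2
    rw [abs_of_nonneg (by linarith), abs_of_nonneg (by linarith)]
    linarith

lemma cont (hm : Continuous m) (hp : ∀ t, 0 < m t) (h0 : Tendsto m atTop (𝓝 0)) :
    Continuous (fsup m) := by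
  rw [continuous_iff_continuousAt]
  intro t
  rcases (le_f hm h0 (le_refl t)).lt_or_eq with ht | ht
  · exact (continuousAt_const (y := fsup m t)).congr
      ((locconst hm hp h0 t ht).mono fun u hu => hu.symm)
  · rw [Metric.continuousAt_iff]
    intro ε hε
    obtain ⟨δ, hδ, hball⟩ := Metric.continuousAt_iff.1 (hm.continuousAt (x := t)) (ε / 2)
      (half_pos hε)
    refine ⟨δ, hδ, fun {v} hv => ?_⟩
    rw [Real.dist_eq]
    rcases le_total t v with h | h
    · have h1 := anti hm h0 h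
      have h2 := le_f hm h0 (le_refl v)
      have h3 := hball hv
      rw [Real.dist_eq, abs_lt] at h3
      rw [abs_lt]
      constructor <;> linarith [h3.1, h3.2]
    · have h1 := anti hm h0 h
      have h2 : fsup m v ≤ m t + ε / 2 := by
        rw [split hm h0 h]
        refine max_le (ssup_le h fun w hw1 hw2 => ?_) (by linarith)
        have h3 : dist w t < δ := by
          refine lt_of_le_of_lt ?_ hv
          rw [NNReal.dist_eq, NNReal.dist_eq, abs_sub_comm, abs_sub_comm (v : ℝ)]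
          have e1 : (v : ℝ) ≤ w := hw1
          have e2 : (w : ℝ) ≤ t := hw2
          rw [abs_of_nonneg (by linarith), abs_of_nonneg (by linarith)]
          linarith
        have h4 := hball h3
        rw [Real.dist_eq, abs_lt] at h4
        linarith [h4.2]
      rw [abs_lt]
      constructor <;> linarith

end KPA

theorem t_KPA : S_KPA := by
  intro m hm hp h0
  refine ⟨KPA.anti hm h0, KPA.cont hm hp h0, fun s t hst => KPA.split hm h0 hst,
    fun t => KPA.le_f hm h0 le_rfl, KPA.locconst hm hp h0, KPA.lim hm hp h0, fun s x => ⟨?_, ?_⟩⟩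
  · intro h
    obtain ⟨u, hu, hu'⟩ := KPA.attained hm hp h0 s
    refine ⟨u, hu, ?_⟩
    rw [← hu'] at h
    exact h.trans_le (le_ssup hm hu le_rfl)
  · rintro ⟨t, hst, ht⟩
    exact ht.trans_le (ssup_le hst fun u h1 _ => KPA.le_f hm h0 h1)

end Pool.Agent.T2h33.RG
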