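import Pool.Agent.T2h33.RG.Basic

/-!
# Project RG, part MEA (helper38)
-/

set_option autoImplicit false
set_option linter.all false

open MeasureTheory ProbabilityTheory Filter Topology Set
open scoped NNReal ENNReal

namespace Pool.Agent.T2h33.RG

namespace MEA

variable {Ω : Type}

lemma mx_meas {m : MeasurableSpace Ω} (x : ℕ → Ω → ℝ) (k : ℕ) (hx : ∀ j, j ≤ k → Measurable (x j)) :
    Measurable (fun ω => mx (fun j => x j ω) k) := by
  induction k with
  | zero => exact hx 0 le_rfl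
  | succ k ih =>
    have h1 := ih fun j hj => hx j (hj.trans (Nat.le_succ k))
    exact h1.max (hx (k + 1) le_rfl)

lemma sm_meas {m : MeasurableSpace Ω} (x : ℕ → Ω → ℝ) (Δ : ℝ) (k : ℕ)
    (hx : ∀ j, j ≤ k → Measurable (x j)) : Measurable (fun ω => sm (fun j => x j ω) Δ k) := by
  unfold sm
  refine Measurable.const_mul ?_ Δ
  exact Finset.measurable_fun_sum _ fun i hi => hx i (Finset.mem_range.1 hi).le

lemma pow2_meas (m : MeasurableSpace Ω) {f : Ω → ℝ} (hf : Measurable[m] f) :
    Measurable[m] (fun ω => f ω ^ 2) := hf.pow_const 2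

end MEA

open MEA

theorem t_MEA : S_MEA := by
  intro hP hK Ω mΩ P _ F W h
  have hG : ∀ s t : ℝ≥0, s ≤ t → ∀ n j : ℕ, j ≤ n → Measurable[F t] (mm W (gp s t n j)) := by
    intro s t hst n j hj
    -- any continuous function
    have := ((hP (fun _ => 0) continuous_const s t hst).2.2.2.1 n j hj).2.1
    exact h.mm_meas this
  have h1 : ∀ s t : ℝ≥0, s ≤ t → Measurable[F t] (fun ω => ssup (pm W ω) s t) := by
    intro s t hst
    refine @measurable_of_tendsto_metrizable Ω ℝ (F t) _ _ _ _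
      (fun n ω => mx (fun j => mm W (gp s t n j) ω) n) _
      (fun n => @mx_meas Ω (F t) (fun j => mm W (gp s t n j)) n (hG s t hst n)) ?_
    rw [tendsto_pi_nhds]
    intro ω
    exact (hP (pm W ω) (h.pm_cont ω) s t hst).2.1
  refine ⟨fun s t hst => ⟨h1 s t hst, ?_, ?_⟩, fun s => ?_⟩
  · refine @measurable_of_tendsto_metrizable Ω ℝ (F t) _ _ _ _
      (fun n ω => sm (fun j => mm W (gp s t n j) ω) (((t : ℝ) - s) / n) n) _
      (fun n => @sm_meas Ω (F t) (fun j => mm W (gp s t n j)) _ n (hG s t hst n)) ?_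
    rw [tendsto_pi_nhds]
    intro ω
    exact (hP (pm W ω) (h.pm_cont ω) s t hst).2.2.1
  · refine @measurable_of_tendsto_metrizable Ω ℝ (F t) _ _ _ _
      (fun n ω => sm (fun j => mm W (gp s t n j) ω ^ 2) (((t : ℝ) - s) / n) n) _
      (fun n => @sm_meas Ω (F t) (fun j ω => mm W (gp s t n j) ω ^ 2) _ n
        (fun j hj => pow2_meas (F t) (hG s t hst n j hj))) ?_
    rw [tendsto_pi_nhds]
    intro ω
    exact (hP (fun u => pm W ω u ^ 2) ((h.pm_cont ω).pow 2) s t hst).2.2.1
  · refine measurable_of_Ioi fun x => ?_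
    have h2 : (fun ω => KK W s ω) ⁻¹' Ioi x = ⋃ n : ℕ, {ω | x < ssup (pm W ω) s (s + n)} := by
      ext ω
      simp only [mem_preimage, mem_Ioi, mem_iUnion, mem_setOf_eq]
      have h3 := (hK (pm W ω) (h.pm_cont ω) (pm_pos ω) (h.pm_lim ω)).2.2.2.2.2.2 s x
      unfold KK
      rw [h3]
      constructor
      · rintro ⟨t, hst, ht⟩
        obtain ⟨n, hn⟩ := exists_nat_ge t
        exact ⟨n, ht.trans_le (ssup_mono (h.pm_cont ω) le_rfl (hn.trans le_add_self) hst)⟩
      · rintro ⟨n, hn⟩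
        exact ⟨s + n, le_self_add, hn⟩
    rw [h2]
    refine MeasurableSet.iUnion fun n => ?_
    have h4 : Measurable (fun ω => ssup (pm W ω) s (s + n)) :=
      (h1 s (s + n) le_self_add).mono (F.le _) le_rfl
    exact measurableSet_lt measurable_const h4

end Pool.Agent.T2h33.RG
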