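import Pool.Agent.T2h33.RG.Basic

/-!
# Project RG, task MQ (helper59)
-/

set_option autoImplicit false
set_option linter.all false

open MeasureTheory ProbabilityTheory Filter Topology Set
open scoped NNReal ENNReal

namespace Pool.Agent.T2h33.RG

/-- additivity of the integrals -/
lemma jint_add {m : ℝ≥0 → ℝ} (hm : Continuous m) (a b c : ℝ≥0) :
    jint m a b + jint m b c = jint m a c := by
  unfold jint
  have h : Continuous fun u : ℝ => m u.toNNReal := hm.comp continuous_real_toNNReal
  exact intervalIntegral.integral_add_adjacent_intervals (h.intervalIntegrable _ _)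
    (h.intervalIntegrable _ _)

lemma jint_self (m : ℝ≥0 → ℝ) (a : ℝ≥0) : jint m a a = 0 := intervalIntegral.integral_same

theorem t_MQ : S_MQ := by
  intro hP hK hS hM hSt Ω mΩ P _ F W h
  have hMe := hM hP hK Ω mΩ P F W h
  have hMm : ∀ t, Measurable (mm W t) := fun t => (h.mm_meas (le_refl t)).mono (F.le _) le_rfl
  have hcont : ∀ ω, Continuous fun u => pm W ω u ^ 2 := fun ω => (h.pm_cont ω).pow 2
  have hMi : ∀ t, Integrable (mm W t) P := fun t =>
    (Pg.mm h (le_refl t)).integrable h hP hS (hMm t)
  have hM2i : ∀ t, Integrable (fun ω => mm W t ω ^ 2) P := fun t =>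
    ((Pg.mm h (le_refl t)).pow h 2).integrable h hP hS ((hMm t).pow_const 2)
  -- the steps over a set
  have hstep : ∀ u v : ℝ≥0, u ≤ v → ∀ A : Set Ω, MeasurableSet[F u] A →
      ∫ ω in A, mm W v ω ∂P = ∫ ω in A, mm W u ω ∂P ∧
      ∫ ω in A, mm W v ω ^ 2 ∂P = Real.exp ((v : ℝ) - u) * ∫ ω in A, mm W u ω ^ 2 ∂P := by
    intro u v huv A hA
    have hA' : MeasurableSet A := F.le _ _ hA
    have hZ : Measurable[F u] (A.indicator (fun _ => (1 : ℝ))) :=
      Measurable.indicator measurable_const hA
    have hZg : Pg W u (A.indicator (fun _ => (1 : ℝ))) := by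
      refine (Pg.const u (1 : ℝ)).of_abs_le fun ω => ?_
      by_cases hω : ω ∈ A
      · rw [indicator_of_mem hω]
      · rw [indicator_of_notMem hω]
        simp
    obtain ⟨h1, h2, -⟩ := hSt hP hS Ω mΩ P F W h u v huv _ hZ hZg
    have e : ∀ f : Ω → ℝ, ∫ ω, A.indicator (fun _ => (1 : ℝ)) ω * f ω ∂P = ∫ ω in A, f ω ∂P := by
      intro f
      rw [← integral_indicator hA']
      refine integral_congr_ae (Eventually.of_forall fun ω => ?_)
      by_cases hω : ω ∈ A
      · simp [indicator_of_mem hω]
      · simp [indicator_of_notMem hω]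
    rw [e, e] at h1
    rw [e (fun ω => mm W v ω ^ 2), e (fun ω => mm W u ω ^ 2)] at h2
    exact ⟨h1, h2⟩
  -- the quadratic variation
  have hQm : ∀ t, Measurable[F t] (QQ W t) := fun t => (hMe.1 0 t (zero_le (a := t))).2.2
  have hbd : ∀ (s t : ℝ≥0), s ≤ t → ∀ ω, |jint (fun u => pm W ω u ^ 2) s t| ≤
      ssup (pm W ω) 0 t ^ 2 * t := by
    intro s t hst ω
    unfold jint
    have hst' : (s : ℝ) ≤ t := by exact_mod_cast hst
    have hs0 := ssup_pos h (zero_le (a := t)) ω
    have h1 := intervalIntegral.norm_integral_le_of_norm_le_const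
      (a := (s : ℝ)) (b := t) (C := ssup (pm W ω) 0 t ^ 2)
      (f := fun u : ℝ => pm W ω u.toNNReal ^ 2) (by
        intro x hx
        rw [uIoc_of_le hst'] at hx
        rw [Real.norm_eq_abs, abs_of_nonneg (sq_nonneg _)]
        refine pow_le_pow_left₀ (pm_pos ω _).le (le_ssup (h.pm_cont ω) zero_le' ?_) 2
        exact Real.toNNReal_le_iff_le_coe.2 hx.2)
    rw [Real.norm_eq_abs] at h1
    refine h1.trans (mul_le_mul_of_nonneg_left ?_ (sq_nonneg _))
    rw [abs_of_nonneg (by linarith)]
    have : (0 : ℝ) ≤ s := s.2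
    linarith
  have hQg : ∀ t, Pg W t (QQ W t) := by
    intro t
    refine (((Pg.ssup h (zero_le (a := t)) (le_refl t)).pow h 2).mul h
      (Pg.const t (t : ℝ))).of_abs_le fun ω => ?_
    refine (hbd 0 t (zero_le (a := t)) ω).trans (le_abs_self _)
  have hQi : ∀ t, Integrable (QQ W t) P := fun t =>
    (hQg t).integrable h hP hS ((hQm t).mono (F.le _) le_rfl)
  -- Fubini
  have hfub : ∀ s t : ℝ≥0, s ≤ t → ∀ A : Set Ω, MeasurableSet[F s] A →
      ∫ ω in A, jint (fun u => pm W ω u ^ 2) s t ∂P =
        (Real.exp ((t : ℝ) - s) - 1) * ∫ ω in A, mm W s ω ^ 2 ∂P := by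
    intro s t hst A hA
    have hst' : (s : ℝ) ≤ t := by exact_mod_cast hst
    have hjM : Measurable (Function.uncurry fun (x : ℝ) (ω : Ω) => mm W x.toNNReal ω) := by
      refine measurable_uncurry_of_continuous_of_measurable (fun ω => ?_) (fun x => hMm _)
      exact (h.pm_cont ω).comp continuous_real_toNNReal
    have hint : Integrable (Function.uncurry fun (x : ℝ) (ω : Ω) => pm W ω x.toNNReal ^ 2)
        ((volume.restrict (uIoc (s : ℝ) t)).prod (P.restrict A)) := by
      have hb : Integrable (fun ω => (1 + ssup (pm W ω) 0 t) ^ 2) (P.restrict A) :=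
        (hS hP Ω mΩ P F W h t 2).restrict
      have hb2 : Integrable (fun q : ℝ × Ω => (1 + ssup (pm W q.2) 0 t) ^ 2)
          ((volume.restrict (uIoc (s : ℝ) t)).prod (P.restrict A)) := by
        have : IsFiniteMeasure (volume.restrict (uIoc (s : ℝ) t)) := by
          rw [uIoc_of_le hst']
          infer_instance
        exact hb.comp_snd (volume.restrict (uIoc (s : ℝ) t))
      refine hb2.mono' (hjM.pow_const 2).aestronglyMeasurable ?_
      have h3 : ∀ᵐ q : ℝ × Ω ∂((volume.restrict (uIoc (s : ℝ) t)).prod (P.restrict A)),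
          q.1 ∈ uIoc (s : ℝ) t := by
        have h4 : ∀ᵐ x ∂(volume.restrict (uIoc (s : ℝ) t)), x ∈ uIoc (s : ℝ) t :=
          ae_restrict_mem measurableSet_uIoc
        exact Measure.quasiMeasurePreserving_fst.ae h4
      filter_upwards [h3] with q hq
      rw [uIoc_of_le hst'] at hq
      have h5 : pm W q.2 q.1.toNNReal ≤ ssup (pm W q.2) 0 t :=
        le_ssup (h.pm_cont q.2) zero_le' (Real.toNNReal_le_iff_le_coe.2 hq.2)
      have h6 := pm_pos (W := W) q.2 q.1.toNNReal
      simp only [Function.uncurry]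
      rw [Real.norm_eq_abs, abs_of_nonneg (sq_nonneg _)]
      exact pow_le_pow_left₀ h6.le (by linarith) 2
    have h1 := intervalIntegral_integral_swap hint
    unfold jint
    rw [← h1]
    have h2 : ∀ x ∈ uIcc (s : ℝ) t, ∫ ω in A, pm W ω x.toNNReal ^ 2 ∂P =
        Real.exp (x - s) * ∫ ω in A, mm W s ω ^ 2 ∂P := by
      intro x hx
      rw [uIcc_of_le hst'] at hx
      have hx0 : 0 ≤ x := s.2.trans hx.1
      have hsx : s ≤ x.toNNReal := by
        rw [← NNReal.coe_le_coe, Real.coe_toNNReal x hx0]
        exact hx.1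
      have h3 := (hstep s x.toNNReal hsx A hA).2
      rw [Real.coe_toNNReal x hx0] at h3
      exact h3
    rw [intervalIntegral.integral_congr h2, intervalIntegral.integral_mul_const]
    congr 1
    rw [intervalIntegral.integral_comp_sub_right (fun x => Real.exp x) (s : ℝ), integral_exp,
      sub_self, Real.exp_zero]
  constructor
  · refine ⟨fun t => (h.mm_meas (le_refl t)).stronglyMeasurable, fun s t hst => ?_⟩
    symm
    refine ae_eq_condExp_of_forall_setIntegral_eq (F.le s) (hMi t)
      (fun A _ _ => (hMi s).integrableOn) (fun A hA _ => ?_)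
      (h.mm_meas (le_refl s)).stronglyMeasurable.aestronglyMeasurable
    exact (hstep s t hst A hA).1.symm
  · refine ⟨fun t => ?_, fun s t hst => ?_⟩
    · exact (((h.mm_meas (le_refl t)).pow_const 2).sub (hQm t)).stronglyMeasurable
    · symm
      refine ae_eq_condExp_of_forall_setIntegral_eq (F.le s) ((hM2i t).sub (hQi t))
        (fun A _ _ => ((hM2i s).sub (hQi s)).integrableOn) (fun A hA _ => ?_)
        (((h.mm_meas (le_refl s)).pow_const 2).sub (hQm s)).stronglyMeasurable.aestronglyMeasurable
      have h1 : ∀ ω, QQ W t ω = QQ W s ω + jint (fun u => pm W ω u ^ 2) s t := by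
        intro ω
        unfold QQ
        rw [jint_add (hcont ω)]
      have hji : Integrable (fun ω => jint (fun u => pm W ω u ^ 2) s t) P := by
        refine ((hQi t).sub (hQi s)).congr (Eventually.of_forall fun ω => ?_)
        simp only [Pi.sub_apply]
        rw [h1 ω]
        ring
      have h2 := (hstep s t hst A hA).2
      have h3 := hfub s t hst A hA
      rw [integral_sub (hM2i s).integrableOn (hQi s).integrableOn,
        integral_sub (hM2i t).integrableOn (hQi t).integrableOn]
      have h4 : ∫ ω in A, QQ W t ω ∂P = ∫ ω in A, QQ W s ω ∂P +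
          ∫ ω in A, jint (fun u => pm W ω u ^ 2) s t ∂P := by
        rw [← integral_add (hQi s).integrableOn hji.integrableOn]
        exact integral_congr_ae (Eventually.of_forall fun ω => h1 ω)
      rw [h4, h2, h3]
      ring

end Pool.Agent.T2h33.RG
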