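import Pool.Agent.T2h33.RG.Basic

/-! Task NAC (project RG): the part of finite variation is not absolutely continuous -/

set_option autoImplicit false
set_option linter.unusedVariables false

open MeasureTheory ProbabilityTheory Filter Topology Set
open scoped NNReal ENNReal

namespace Pool.Agent.T2h33.RG

namespace NAC

lemma jint_sub {f : ℝ≥0 → ℝ} (hf : Continuous f) (x y : ℝ≥0) :
    jint f 0 y - jint f 0 x = ∫ u in (x : ℝ)..y, f u.toNNReal := by
  unfold jint
  have hc : Continuous (fun u : ℝ => f u.toNNReal) := hf.comp continuous_real_toNNReal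
  rw [intervalIntegral.integral_interval_sub_left (hc.intervalIntegrable _ _)
    (hc.intervalIntegrable _ _)]

lemma jint_sub_le {f : ℝ≥0 → ℝ} (hf : Continuous f) {x y : ℝ≥0} (hxy : x ≤ y) {B : ℝ}
    (hB : ∀ u, u ≤ y → f u ≤ B) : jint f 0 y - jint f 0 x ≤ B * ((y : ℝ) - x) := by
  rw [jint_sub hf]
  have hc : Continuous (fun u : ℝ => f u.toNNReal) := hf.comp continuous_real_toNNReal
  have hxy' : (x : ℝ) ≤ y := by exact_mod_cast hxy
  have h1 : ∫ u in (x : ℝ)..y, f u.toNNReal ≤ ∫ u in (x : ℝ)..y, B := by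
    refine intervalIntegral.integral_mono_on hxy' (hc.intervalIntegrable _ _)
      intervalIntegrable_const ?_
    intro u hu
    refine hB _ ?_
    rw [Real.toNNReal_le_iff_le_coe]
    exact hu.2
  rw [intervalIntegral.integral_const, smul_eq_mul] at h1
  linarith

/-- a function which is locally constant on `[x, y]` is constant there -/
lemma const_of_locally {f : ℝ≥0 → ℝ} (hf : Continuous f) {x y : ℝ≥0} (hxy : x ≤ y)
    (h : ∀ u, x ≤ u → u ≤ y → ∀ᶠ v in 𝓝 u, f v = f u) : f y = f x := by
  have h1 : Icc x y ⊆ {u | f u = f x} := by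
    refine IsClosed.Icc_subset_of_forall_exists_gt ?_ rfl ?_
    · exact (isClosed_eq hf continuous_const).inter isClosed_Icc
    · rintro u ⟨hu, hu1, hu2⟩ v hv
      have h2 := h u hu1 hu2.le
      have h3 : ∀ᶠ w in 𝓝[>] u, f w = f u := h2.filter_mono nhdsWithin_le_nhds
      have h4 : ∀ᶠ w in 𝓝[>] u, w ∈ Ioc u v := Ioc_mem_nhdsGT hv
      obtain ⟨w, hw, hw'⟩ := (h3.and h4).exists
      exact ⟨w, hw.trans hu, hw'⟩
  exact h1 ⟨hxy, le_rfl⟩

end NAC

open NAC

theorem t_NAC : S_NAC := by
  classical
  intro hK m hm hpos hlim hnull hAC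
  obtain ⟨hanti, hcont, -, hle, hloc, hlim', -⟩ := hK m hm hpos hlim
  set f := fsup m with hf
  -- it is enough that `f` is constant
  have hmain : ∀ T : ℝ≥0, f 0 ≤ f T := by
    intro T
    refine le_of_forall_pos_le_add fun ε hε => ?_
    obtain ⟨δ, hδ, H⟩ := hAC T ε hε
    -- a bound for `m`
    obtain ⟨B, hB1, hB⟩ : ∃ B : ℝ, 1 ≤ B ∧ ∀ u, u ≤ T → m u ≤ B := by
      refine ⟨max 1 (ssup m 0 T), le_max_left _ _, fun u hu => ?_⟩
      exact (le_ssup hm (zero_le (a := u)) hu).trans (le_max_right _ _)
    have hB0 : 0 < B := by linarith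
    set C : Set ℝ := {x : ℝ | (0 ≤ x ∧ x ≤ T) ∧ f x.toNNReal ≤ m x.toNNReal} with hC
    have hCc : IsCompact C := by
      have h1 : C = Icc (0 : ℝ) T ∩ {x : ℝ | f x.toNNReal ≤ m x.toNNReal} := by
        ext x; simp [hC]
      rw [h1]
      refine isCompact_Icc.inter_right ?_
      exact isClosed_le (hcont.comp continuous_real_toNNReal) (hm.comp continuous_real_toNNReal)
    have hC0 : volume C = 0 := by
      refine measure_mono_null ?_ hnull
      intro x hx
      exact ⟨hx.1.1, hx.2⟩
    have hth : Tendsto (fun r => volume (Metric.cthickening r C)) (𝓝 0) (𝓝 0) := by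
      have := tendsto_measure_cthickening_of_isCompact (μ := volume) hCc
      rwa [hC0] at this
    set κ : ℝ := min (δ / (2 * B ^ 2)) (ε / B) with hκ
    have hκ0 : 0 < κ := lt_min (by positivity) (by positivity)
    have hev : ∀ᶠ r : ℝ in 𝓝 0, volume (Metric.cthickening r C) < ENNReal.ofReal κ :=
      hth.eventually_lt_const (ENNReal.ofReal_pos.2 hκ0)
    have hn : Tendsto (fun n : ℕ => (T : ℝ) / (n : ℝ)) atTop (𝓝 0) :=
      tendsto_const_div_atTop_nhds_zero_nat _
    obtain ⟨n, hn1, hn2⟩ := ((hn.eventually hev).and (eventually_ge_atTop 1)).exists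
    have hn0 : (0 : ℝ) < n := by exact_mod_cast hn2
    -- the grid
    obtain ⟨g, hg⟩ : ∃ g : ℕ → ℝ≥0, ∀ j, g j = (j : ℝ≥0) * (T / n) := ⟨_, fun _ => rfl⟩
    have hgc : ∀ j, ((g j : ℝ≥0) : ℝ) = (j : ℝ) * (T / n) := by
      intro j; rw [hg]; push_cast; rfl
    have hTn : (0 : ℝ) ≤ (T : ℝ) / n := by positivity
    have hgstep : ∀ j, ((g (j + 1) : ℝ≥0) : ℝ) - g j = T / n := by
      intro j; rw [hgc, hgc]; push_cast; ring
    have hgmono : Monotone g := by
      refine monotone_nat_of_le_succ fun j => ?_
      have := hgstep j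
      have h1 : ((g j : ℝ≥0) : ℝ) ≤ g (j + 1) := by linarith
      exact_mod_cast h1
    have hg0 : g 0 = 0 := by rw [hg]; simp
    have hgn : g n = T := by
      rw [hg]
      have : (n : ℝ≥0) ≠ 0 := by
        have : n ≠ 0 := by omega
        exact_mod_cast this
      field_simp
    have hgT : ∀ j, j ≤ n → g j ≤ T := fun j hj => hgn ▸ hgmono hj
    set I : Finset (Fin n) := Finset.univ.filter fun i =>
      ∃ u : ℝ≥0, g i ≤ u ∧ u ≤ g (i + 1) ∧ f u ≤ m u with hI
    -- the measure
    set L : ℝ := I.card * (T / n) with hL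
    have hLκ : L < κ := by
      have h1 : (⋃ i ∈ I, Ioo ((g i : ℝ≥0) : ℝ) (g (i + 1))) ⊆ Metric.cthickening ((T : ℝ) / n) C := by
        intro z hz
        simp only [mem_iUnion] at hz
        obtain ⟨i, hi, hz⟩ := hz
        rw [hI, Finset.mem_filter] at hi
        obtain ⟨-, u, hu1, hu2, hu3⟩ := hi
        refine Metric.mem_cthickening_of_dist_le z (u : ℝ) _ C ?_ ?_
        · refine ⟨⟨u.2, ?_⟩, ?_⟩
          · have : u ≤ T := hu2.trans (hgT _ (by have := i.2; omega))
            exact_mod_cast this
          · rw [Real.toNNReal_coe]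
            exact hu3
        · rw [Real.dist_eq, abs_le]
          have h3 : ((g i : ℝ≥0) : ℝ) ≤ u := by exact_mod_cast hu1
          have h4 : (u : ℝ) ≤ g (i + 1) := by exact_mod_cast hu2
          have h5 := hgstep i
          have h6 := hz.1
          have h7 := hz.2
          constructor <;> linarith
      have h2 : volume (⋃ i ∈ I, Ioo ((g i : ℝ≥0) : ℝ) (g (i + 1))) = ENNReal.ofReal L := by
        rw [measure_biUnion_finset]
        · have : ∀ i ∈ I, volume (Ioo ((g i : ℝ≥0) : ℝ) (g (i + 1))) = ENNReal.ofReal (T / n) := by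
            intro i _
            rw [Real.volume_Ioo, hgstep]
          rw [Finset.sum_congr rfl this, Finset.sum_const, nsmul_eq_mul, hL,
            ENNReal.ofReal_mul (Nat.cast_nonneg _), ENNReal.ofReal_natCast]
        · intro i _ j _ hij
          show Disjoint _ _
          rw [Set.disjoint_left]
          intro z hz1 hz2
          rcases lt_or_gt_of_ne hij with h3 | h3
          · have h4 : g (i + 1) ≤ g j := hgmono (by have : (i : ℕ) < j := h3; omega)
            have h5 : ((g (i + 1) : ℝ≥0) : ℝ) ≤ g j := by exact_mod_cast h4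
            have := hz1.2
            have := hz2.1
            linarith
          · have h4 : g (j + 1) ≤ g i := hgmono (by have : (j : ℕ) < i := h3; omega)
            have h5 : ((g (j + 1) : ℝ≥0) : ℝ) ≤ g i := by exact_mod_cast h4
            have := hz2.2
            have := hz1.1
            linarith
        · intro i _
          exact measurableSet_Ioo
      have h3 := (measure_mono h1).trans_lt hn1
      rw [h2] at h3
      exact (ENNReal.ofReal_lt_ofReal_iff hκ0).1 h3
    have hL0 : 0 ≤ L := mul_nonneg (Nat.cast_nonneg _) hTn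
    -- the intervals
    obtain ⟨x, hx⟩ : ∃ x : Fin n → ℝ≥0, ∀ i, x i = g i := ⟨_, fun _ => rfl⟩
    obtain ⟨y, hy⟩ : ∃ y : Fin n → ℝ≥0, ∀ i, y i = if i ∈ I then g (i + 1) else g i :=
      ⟨_, fun _ => rfl⟩
    have hyI : ∀ i ∈ I, y i = g (i + 1) := fun i hi => by rw [hy, if_pos hi]
    have hyI' : ∀ i, i ∉ I → y i = g i := fun i hi => by rw [hy, if_neg hi]
    have hyle : ∀ i, y i ≤ g (i + 1) := by
      intro i
      by_cases hi : i ∈ I
      · rw [hyI i hi]
      · rw [hyI' i hi]; exact hgmono (Nat.le_succ _)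
    have hxy : ∀ i, x i ≤ y i ∧ y i ≤ T := by
      intro i
      refine ⟨?_, (hyle i).trans (hgT _ (by have := i.2; omega))⟩
      by_cases hi : i ∈ I
      · rw [hyI i hi, hx]; exact hgmono (Nat.le_succ _)
      · rw [hyI' i hi, hx]
    have hdis : ∀ i j, i ≠ j → Disjoint (Ioo (x i) (y i)) (Ioo (x j) (y j)) := by
      intro i j hij
      rw [Set.disjoint_left]
      intro z hz1 hz2
      rcases lt_or_gt_of_ne hij with h3 | h3
      · have h4 : g (i + 1) ≤ g j := hgmono (by have : (i : ℕ) < j := h3; omega)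
        have h5 := hz2.1
        rw [hx] at h5
        exact absurd (hz1.2.trans_le ((hyle i).trans h4)) (not_lt.2 h5.le)
      · have h4 : g (j + 1) ≤ g i := hgmono (by have : (j : ℕ) < i := h3; omega)
        have h5 := hz1.1
        rw [hx] at h5
        exact absurd (hz2.2.trans_le ((hyle j).trans h4)) (not_lt.2 h5.le)
    have hsum : ∑ i, (jint (fun u => m u ^ 2) 0 (y i) - jint (fun u => m u ^ 2) 0 (x i)) < δ := by
      have h1 : ∑ i, (jint (fun u => m u ^ 2) 0 (y i) - jint (fun u => m u ^ 2) 0 (x i)) ≤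
          ∑ i, (if i ∈ I then B ^ 2 * (T / n) else 0) := by
        refine Finset.sum_le_sum fun i _ => ?_
        by_cases hi : i ∈ I
        · rw [if_pos hi, hyI i hi, hx]
          have h2 := jint_sub_le (hm.pow 2) (hgmono (Nat.le_succ (i : ℕ))) (B := B ^ 2) (by
            intro u hu
            refine pow_le_pow_left₀ (hpos u).le (hB u (hu.trans (hgT _ ?_))) 2
            have := i.2
            omega)
          rwa [Nat.succ_eq_add_one, hgstep] at h2
        · rw [if_neg hi, hyI' i hi, hx, sub_self]
      rw [← Finset.sum_filter, Finset.filter_mem_eq_inter, Finset.univ_inter, Finset.sum_const,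
        nsmul_eq_mul] at h1
      have h2 : (I.card : ℝ) * (B ^ 2 * (T / n)) = B ^ 2 * L := by rw [hL]; ring
      rw [h2] at h1
      have h3 : B ^ 2 * L < δ := by
        have h4 : L < δ / (2 * B ^ 2) := hLκ.trans_le (min_le_left _ _)
        rw [lt_div_iff₀ (by positivity)] at h4
        nlinarith
      exact h1.trans_lt h3
    have hfin := H n x y hxy hdis hsum
    -- telescoping
    have htel : f 0 - f T = ∑ i : Fin n, (f (g i) - f (g (i + 1))) := by
      rw [Fin.sum_univ_eq_sum_range (fun i => f (g i) - f (g (i + 1))) n, Finset.sum_range_sub', hg0,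
        hgn]
    have hb : 2 * (f 0 - f T) ≤ ε + B * L := by
      rw [htel, Finset.mul_sum]
      have h1 : ∀ i ∈ (Finset.univ : Finset (Fin n)), 2 * (f (g i) - f (g (i + 1))) ≤
          |(jint m 0 (y i) - 2 * (f 0 - f (y i))) - (jint m 0 (x i) - 2 * (f 0 - f (x i)))| +
            (if i ∈ I then B * (T / n) else 0) := by
        intro i _
        by_cases hi : i ∈ I
        · rw [if_pos hi, hyI i hi, hx]
          have h2 := jint_sub_le hm (hgmono (Nat.le_succ (i : ℕ))) (B := B) (by
            intro u hu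
            refine hB u (hu.trans (hgT _ ?_))
            have := i.2
            omega)
          rw [Nat.succ_eq_add_one, hgstep] at h2
          have h3 := neg_abs_le ((jint m 0 (g (i + 1)) - 2 * (f 0 - f (g (i + 1)))) -
            (jint m 0 (g i) - 2 * (f 0 - f (g i))))
          linarith
        · rw [if_neg hi, hyI' i hi, hx, sub_self, abs_zero, add_zero]
          have h2 : f (g (i + 1)) = f (g i) := by
            refine const_of_locally hcont (hgmono (Nat.le_succ (i : ℕ))) fun u hu1 hu2 => ?_
            refine hloc u ?_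
            by_contra hcon
            exact hi (by
              rw [hI, Finset.mem_filter]
              exact ⟨Finset.mem_univ _, u, hu1, hu2, not_lt.1 hcon⟩)
          rw [h2, sub_self, mul_zero]
      refine (Finset.sum_le_sum h1).trans ?_
      rw [Finset.sum_add_distrib, ← Finset.sum_filter, Finset.filter_mem_eq_inter,
        Finset.univ_inter, Finset.sum_const, nsmul_eq_mul]
      have h2 : (I.card : ℝ) * (B * (T / n)) = B * L := by rw [hL]; ring
      rw [h2]
      have h4 : ∑ i, |(jint m 0 (y i) - 2 * (f 0 - f (y i))) -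
          (jint m 0 (x i) - 2 * (f 0 - f (x i)))| < ε := hfin
      linarith
    have hBL : B * L ≤ ε := by
      have h4 : L < ε / B := hLκ.trans_le (min_le_right _ _)
      rw [lt_div_iff₀ hB0] at h4
      linarith
    linarith
  have h1 : f 0 ≤ 0 := ge_of_tendsto' hlim' hmain
  have h2 := (hpos 0).trans_le (hle 0)
  linarith

end Pool.Agent.T2h33.RG
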