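import Pool.Agent.T2h33.RG.Basic

/-! Task PSI (project RG): the function `Psi` has mean zero -/

set_option autoImplicit false
set_option linter.unusedVariables false

open MeasureTheory ProbabilityTheory Filter Topology Set
open scoped NNReal ENNReal

namespace Pool.Agent.T2h33.RG

namespace PSI

/-! ### deterministic facts -/

lemma gp_mono (s t : ℝ≥0) (n : ℕ) : Monotone (gp s t n) := by
  intro i j hij
  unfold gp
  have h1 : (i : ℝ≥0) ≤ j := by exact_mod_cast hij
  gcongr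

lemma gp_zero (s t : ℝ≥0) (n : ℕ) : gp s t n 0 = s := by simp [gp]

lemma gp_step {s t : ℝ≥0} (hst : s ≤ t) (n j : ℕ) :
    ((gp s t n (j + 1) : ℝ≥0) : ℝ) - gp s t n j = ((t : ℝ) - s) / n := by
  unfold gp
  push_cast [NNReal.coe_sub hst]
  ring

lemma mx_le {x : ℕ → ℝ} {c : ℝ} {j : ℕ} (h : ∀ i ≤ j, x i ≤ c) : mx x j ≤ c := by
  induction j with
  | zero => exact h 0 le_rfl
  | succ j ih => exact max_le (ih fun i hi => h i (by omega)) (h _ le_rfl)

lemma le_mx (x : ℕ → ℝ) (j : ℕ) : x j ≤ mx x j := by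
  cases j with
  | zero => exact le_rfl
  | succ j => exact le_max_right _ _

lemma osc_nonneg (x : ℕ → ℝ) (j : ℕ) : 0 ≤ osc x j := by
  cases j with
  | zero => exact le_rfl
  | succ j => exact (abs_nonneg _).trans (le_max_right _ _)

lemma osc_le {x : ℕ → ℝ} {c : ℝ} (hc : 0 ≤ c) {j : ℕ} (h : ∀ i < j, |x (i + 1) - x i| ≤ c) :
    osc x j ≤ c := by
  induction j with
  | zero => exact hc
  | succ j ih => exact max_le (ih fun i hi => h i (by omega)) (h j (by omega))

lemma sm_succ (x : ℕ → ℝ) (Δ : ℝ) (j : ℕ) : sm x Δ (j + 1) = sm x Δ j + Δ * x j := by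
  unfold sm
  rw [Finset.sum_range_succ]
  ring

lemma abs_sm_le {x : ℕ → ℝ} {Δ c : ℝ} (hΔ : 0 ≤ Δ) {j : ℕ} (h : ∀ i < j, |x i| ≤ c) :
    |sm x Δ j| ≤ Δ * (j * c) := by
  unfold sm
  rw [abs_mul, abs_of_nonneg hΔ]
  refine mul_le_mul_of_nonneg_left ?_ hΔ
  refine (Finset.abs_sum_le_sum_abs _ _).trans ?_
  refine (Finset.sum_le_sum fun i hi => h i (Finset.mem_range.1 hi)).trans ?_
  rw [Finset.sum_const, Finset.card_range, nsmul_eq_mul]

lemma psi_zero (κ Δ : ℝ) (x : ℕ → ℝ) : psi κ Δ x 0 = 0 := by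
  have h1 : mx x 0 = x 0 := rfl
  have h2 : sm x Δ 0 = 0 := by simp [sm]
  unfold psi
  rw [h1, h2]
  split_ifs <;> ring

lemma expn {c : ℝ} (hc : 0 ≤ c) :
    Tendsto (fun n : ℕ => (n : ℝ) * (Real.exp (c / n) - 1 - c / n)) atTop (𝓝 0) := by
  have h1 : Tendsto (fun n : ℕ => c ^ 2 / (n : ℝ)) atTop (𝓝 0) :=
    tendsto_const_div_atTop_nhds_zero_nat _
  obtain ⟨N, hN⟩ := exists_nat_ge c
  refine squeeze_zero_norm' ?_ h1
  filter_upwards [eventually_ge_atTop (N + 1)] with n hn
  have hn0 : (0 : ℝ) < n := by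
    have : 0 < n := by omega
    exact_mod_cast this
  have hnN : (N : ℝ) ≤ n := by
    have : N ≤ n := by omega
    exact_mod_cast this
  have h2 : |c / n| ≤ 1 := by
    rw [abs_of_nonneg (by positivity), div_le_one hn0]
    linarith
  have h3 := Real.abs_exp_sub_one_sub_id_le h2
  rw [norm_mul, Real.norm_eq_abs, Real.norm_eq_abs, abs_of_pos hn0]
  calc (n : ℝ) * |Real.exp (c / n) - 1 - c / n| ≤ n * (c / n) ^ 2 :=
        mul_le_mul_of_nonneg_left h3 hn0.le
    _ = c ^ 2 / n := by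
        field_simp

lemma abs_log_le {κ y : ℝ} (hκ : 0 < κ) (hy : κ < y) : |Real.log y| ≤ |Real.log κ| + y := by
  have hy0 : 0 < y := hκ.trans hy
  have h1 : Real.log y ≤ y - 1 := Real.log_le_sub_one_of_pos hy0
  have h2 : Real.log κ ≤ Real.log y := Real.log_le_log hκ hy.le
  have h3 := abs_nonneg (Real.log κ)
  have h4 := neg_abs_le (Real.log κ)
  rw [abs_le]
  constructor <;> linarith

/-! ### measurability -/

variable {Ω : Type}

lemma mx_meas {m0 : MeasurableSpace Ω} {x : ℕ → Ω → ℝ} {j : ℕ}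
    (h : ∀ i ≤ j, Measurable[m0] (x i)) : Measurable[m0] (fun ω => mx (fun i => x i ω) j) := by
  induction j with
  | zero => exact h 0 le_rfl
  | succ j ih => exact (ih fun i hi => h i (by omega)).max (h _ le_rfl)

lemma sm_meas {m0 : MeasurableSpace Ω} {x : ℕ → Ω → ℝ} {j : ℕ} (Δ : ℝ)
    (h : ∀ i < j, Measurable[m0] (x i)) : Measurable[m0] (fun ω => sm (fun i => x i ω) Δ j) := by
  unfold sm
  exact (Finset.measurable_fun_sum _ fun i hi => h i (Finset.mem_range.1 hi)).const_mul _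

variable {mΩ : MeasurableSpace Ω} {W : ℝ≥0 → Ω → ℝ}

lemma pair_zero {P : Measure Ω} {f g : Ω → ℝ} (hf : Integrable f P) (hg : Integrable g P)
    (h : ∫ ω, f ω ∂P = ∫ ω, g ω ∂P) :
    Integrable (fun ω => f ω - g ω) P ∧ ∫ ω, (f ω - g ω) ∂P = 0 :=
  ⟨hf.sub hg, by rw [integral_sub hf hg, h, sub_self]⟩

section
variable {P : Measure Ω} [IsProbabilityMeasure P] {F : Filtration ℝ≥0 mΩ}

/-- the terms `al` have mean zero on `A` -/
lemma al_zero (hP : S_PTH) (hS : S_SUPM) (hSt : S_STEP) (h : BMF P F W) {s t : ℝ≥0} (hst : s ≤ t)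
    {κ : ℝ} (hκ : 0 < κ) {A : Set Ω} (hA : MeasurableSet[F s] A) (n j : ℕ) :
    Integrable (A.indicator fun ω => al κ (((t : ℝ) - s) / n) (fun i => pm W ω (gp s t n i)) j) P ∧
      ∫ ω, (A.indicator fun ω => al κ (((t : ℝ) - s) / n) (fun i => pm W ω (gp s t n i)) j) ω ∂P
        = 0 := by
  classical
  obtain ⟨u, hu⟩ : ∃ u, u = gp s t n j := ⟨_, rfl⟩
  obtain ⟨v, hv⟩ : ∃ v, v = gp s t n (j + 1) := ⟨_, rfl⟩
  have huv : u ≤ v := by rw [hu, hv]; exact gp_mono s t n (Nat.le_succ j)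
  have hΔ : (v : ℝ) - u = ((t : ℝ) - s) / n := by rw [hu, hv]; exact gp_step hst n j
  set Δ : ℝ := ((t : ℝ) - s) / n with hΔd
  have hst' : (s : ℝ) ≤ t := by exact_mod_cast hst
  have hΔ0 : 0 ≤ Δ := div_nonneg (by linarith) (Nat.cast_nonneg n)
  have hsu : s ≤ u := by
    rw [hu]
    have := gp_mono s t n (Nat.zero_le j)
    rwa [gp_zero] at this
  have hFu : F u ≤ mΩ := F.le u
  have hgu : ∀ i ≤ j, gp s t n i ≤ u := fun i hi => hu ▸ gp_mono s t n hi
  -- measurability of the ingredients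
  have hxm : ∀ i ≤ j, Measurable[F u] (fun ω => pm W ω (gp s t n i)) := fun i hi =>
    h.mm_meas (hgu i hi)
  have hmxm : Measurable[F u] (fun ω => mx (fun i => pm W ω (gp s t n i)) j) := mx_meas hxm
  have hsmm : Measurable[F u] (fun ω => sm (fun i => pm W ω (gp s t n i)) Δ j) :=
    sm_meas Δ fun i hi => hxm i hi.le
  have hAu : MeasurableSet[F u] A := F.mono hsu A hA
  have hset : MeasurableSet[F u] {ω | κ < mx (fun i => pm W ω (gp s t n i)) j} :=
    measurableSet_lt measurable_const hmxm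
  -- growth of the ingredients
  have hxP : ∀ i ≤ j, Pg W u (fun ω => pm W ω (gp s t n i)) := fun i hi => Pg.mm h (hgu i hi)
  have hmxb : ∀ ω, 0 < mx (fun i => pm W ω (gp s t n i)) j ∧
      mx (fun i => pm W ω (gp s t n i)) j ≤ ssup (pm W ω) 0 u := by
    intro ω
    refine ⟨(pm_pos ω (gp s t n j)).trans_le (le_mx (fun i => pm W ω (gp s t n i)) j),
      mx_le fun i hi => ?_⟩
    exact mm_le_ssup h (zero_le (a := gp s t n i)) (hgu i hi) ω
  have hmxP : Pg W u (fun ω => mx (fun i => pm W ω (gp s t n i)) j) := by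
    refine (Pg.ssup h (zero_le (a := u)) le_rfl).of_abs_le fun ω => ?_
    rw [abs_of_pos (hmxb ω).1]
    exact (hmxb ω).2.trans (le_abs_self _)
  have hsmP : Pg W u (fun ω => sm (fun i => pm W ω (gp s t n i)) Δ j) := by
    refine ((Pg.ssup h (zero_le (a := u)) le_rfl).mul h (Pg.const u (Δ * j))).of_abs_le fun ω => ?_
    have h1 : |sm (fun i => pm W ω (gp s t n i)) Δ j| ≤ Δ * (j * ssup (pm W ω) 0 u) :=
      abs_sm_le hΔ0 fun i hi => by
        rw [abs_of_pos (pm_pos ω _)]
        exact mm_le_ssup h (zero_le (a := gp s t n i)) (hgu i hi.le) ω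
    refine h1.trans (le_trans (le_of_eq ?_) (le_abs_self _))
    ring
  have hind : ∀ (f : Ω → ℝ), Measurable[F u] f → Pg W u f →
      Measurable[F u] (A.indicator f) ∧ Pg W u (A.indicator f) := by
    intro f hf hfP
    refine ⟨hf.indicator hAu, hfP.of_abs_le fun ω => ?_⟩
    by_cases hω : ω ∈ A
    · rw [indicator_of_mem hω]
    · rw [indicator_of_notMem hω, abs_zero]
      exact abs_nonneg _
  have hite1 : ∀ (f : Ω → ℝ), Measurable[F u] f →
      Measurable[F u] (fun ω => if κ < mx (fun i => pm W ω (gp s t n i)) j then f ω else 0) :=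
    fun f hf => Measurable.ite hset hf measurable_const
  have hite2 : ∀ (f : Ω → ℝ), Measurable[F u] f →
      Measurable[F u] (fun ω => if κ < mx (fun i => pm W ω (gp s t n i)) j then 0 else f ω) :=
    fun f hf => Measurable.ite hset measurable_const hf
  have hite1P : ∀ (f : Ω → ℝ), Pg W u f →
      Pg W u (fun ω => if κ < mx (fun i => pm W ω (gp s t n i)) j then f ω else 0) := by
    intro f hf
    refine hf.of_abs_le fun ω => ?_
    by_cases h1 : κ < mx (fun i => pm W ω (gp s t n i)) j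
    · rw [if_pos h1]
    · rw [if_neg h1, abs_zero]; exact abs_nonneg _
  have hite2P : ∀ (f : Ω → ℝ), Pg W u f →
      Pg W u (fun ω => if κ < mx (fun i => pm W ω (gp s t n i)) j then 0 else f ω) := by
    intro f hf
    refine hf.of_abs_le fun ω => ?_
    by_cases h1 : κ < mx (fun i => pm W ω (gp s t n i)) j
    · rw [if_pos h1, abs_zero]; exact abs_nonneg _
    · rw [if_neg h1]
  -- the four multipliers
  obtain ⟨Z1, hZ1⟩ : ∃ Z1 : Ω → ℝ, Z1 = A.indicator (fun ω =>
      if κ < mx (fun i => pm W ω (gp s t n i)) j then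
        -1 - 2 * Real.log (mx (fun i => pm W ω (gp s t n i)) j) else 0) := ⟨_, rfl⟩
  obtain ⟨Z3, hZ3⟩ : ∃ Z3 : Ω → ℝ, Z3 = A.indicator (fun ω =>
      if κ < mx (fun i => pm W ω (gp s t n i)) j then (2 : ℝ) else 0) := ⟨_, rfl⟩
  obtain ⟨Z2, hZ2⟩ : ∃ Z2 : Ω → ℝ, Z2 = A.indicator (fun ω =>
      if κ < mx (fun i => pm W ω (gp s t n i)) j then 0 else 1 / κ) := ⟨_, rfl⟩
  obtain ⟨Z4, hZ4⟩ : ∃ Z4 : Ω → ℝ, Z4 = A.indicator (fun ω =>
      if κ < mx (fun i => pm W ω (gp s t n i)) j then 0 else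
        (pm W ω (gp s t n 0) + sm (fun i => pm W ω (gp s t n i)) Δ j +
          Δ * pm W ω (gp s t n j)) * (1 / κ)) := ⟨_, rfl⟩
  have hZ3' : Measurable[F u] Z3 ∧ Pg W u Z3 := by
    rw [hZ3]
    exact hind _ (hite1 _ measurable_const) (hite1P _ (Pg.const u 2))
  have hZ2' : Measurable[F u] Z2 ∧ Pg W u Z2 := by
    rw [hZ2]
    exact hind _ (hite2 _ measurable_const) (hite2P _ (Pg.const u (1 / κ)))
  have hZ4' : Measurable[F u] Z4 ∧ Pg W u Z4 := by
    rw [hZ4]
    refine hind _ (hite2 _ ?_) (hite2P _ ?_)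
    · exact (((hxm 0 (Nat.zero_le j)).add hsmm).add ((hxm j le_rfl).const_mul Δ)).mul_const _
    · exact (((hxP 0 (Nat.zero_le j)).add h hsmP).add h ((Pg.const u Δ).mul h (hxP j le_rfl))).mul h
        (Pg.const u (1 / κ))
  have hZ1' : Measurable[F u] Z1 ∧ Pg W u Z1 := by
    rw [hZ1]
    refine hind _ (hite1 _ ?_) ?_
    · exact measurable_const.sub ((Real.measurable_log.comp hmxm).const_mul 2)
    · have h1 : Pg W u (fun ω => (1 + 2 * |Real.log κ|) +
          2 * mx (fun i => pm W ω (gp s t n i)) j) :=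
        (Pg.const u _).add h ((Pg.const u 2).mul h hmxP)
      refine h1.of_abs_le fun ω => ?_
      have h2 := (hmxb ω).1
      have h3 : 0 ≤ |Real.log κ| := abs_nonneg _
      rw [abs_of_nonneg (a := (1 + 2 * |Real.log κ|) + _) (by positivity)]
      by_cases h4 : κ < mx (fun i => pm W ω (gp s t n i)) j
      · rw [if_pos h4]
        have h5 := abs_log_le hκ h4
        have h6 := abs_sub (-1 : ℝ) (2 * Real.log (mx (fun i => pm W ω (gp s t n i)) j))
        rw [abs_mul, abs_neg, abs_one, abs_of_pos (by norm_num : (0 : ℝ) < 2)] at h6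
        linarith
      · rw [if_neg h4, abs_zero]
        positivity
  -- the four identities
  have hmu : Measurable (mm W u) := (h.mm_meas le_rfl).mono hFu le_rfl
  have hmv : Measurable (mm W v) := (h.mm_meas le_rfl).mono (F.le v) le_rfl
  have hPu : Pg W v (mm W u) := Pg.mm h huv
  have hPv : Pg W v (mm W v) := Pg.mm h le_rfl
  have hlu : Pg W v (fun ω => mm W u ω * Real.log (mm W u ω)) := Pg.mul_log h huv
  have hlv : Pg W v (fun ω => mm W v ω * Real.log (mm W v ω)) := Pg.mul_log h le_rfl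
  have hI : ∀ (Z g : Ω → ℝ), Measurable[F u] Z → Pg W u Z → Measurable g → Pg W v g →
      Integrable (fun ω => Z ω * g ω) P := by
    intro Z g hZ hZP hg hgP
    exact ((hZP.mono h huv).mul h hgP).integrable h hP hS ((hZ.mono hFu le_rfl).mul hg)
  have st := fun (Z : Ω → ℝ) (hZ : Measurable[F u] Z) (hZP : Pg W u Z) =>
    hSt hP hS Ω mΩ P F W h u v huv Z hZ hZP
  have d1 := pair_zero (hI Z1 _ hZ1'.1 hZ1'.2 hmv hPv) (hI Z1 _ hZ1'.1 hZ1'.2 hmu hPu)
    (st Z1 hZ1'.1 hZ1'.2).1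
  have d4 := pair_zero (hI Z4 _ hZ4'.1 hZ4'.2 hmv hPv) (hI Z4 _ hZ4'.1 hZ4'.2 hmu hPu)
    (st Z4 hZ4'.1 hZ4'.2).1
  have d2 := pair_zero (hI Z2 _ hZ2'.1 hZ2'.2 (hmv.pow_const 2) (hPv.pow h 2))
    ((hI Z2 _ hZ2'.1 hZ2'.2 (hmu.pow_const 2) (hPu.pow h 2)).const_mul (Real.exp ((v : ℝ) - u)))
    (by rw [integral_const_mul]; exact (st Z2 hZ2'.1 hZ2'.2).2.1)
  have d3 := pair_zero (hI Z3 _ hZ3'.1 hZ3'.2 (hmv.mul (Real.measurable_log.comp hmv)) hlv)
    (hI Z3 _ hZ3'.1 hZ3'.2 ((hmu.mul (Real.measurable_log.comp hmu)).add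
      (hmu.mul_const (((v : ℝ) - u) / 2))) (hlu.add h (hPu.mul h (Pg.const v _))))
    (st Z3 hZ3'.1 hZ3'.2).2.2
  have key : ∀ ω, (A.indicator fun ω => al κ Δ (fun i => pm W ω (gp s t n i)) j) ω =
      (Z1 ω * mm W v ω - Z1 ω * mm W u ω) +
      (Z3 ω * (mm W v ω * Real.log (mm W v ω)) -
        Z3 ω * (mm W u ω * Real.log (mm W u ω) + mm W u ω * (((v : ℝ) - u) / 2))) +
      (Z2 ω * mm W v ω ^ 2 - Real.exp ((v : ℝ) - u) * (Z2 ω * mm W u ω ^ 2)) -
      (Z4 ω * mm W v ω - Z4 ω * mm W u ω) := by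
    intro ω
    by_cases hω : ω ∈ A
    · rw [hZ1, hZ2, hZ3, hZ4, indicator_of_mem hω, indicator_of_mem hω, indicator_of_mem hω,
        indicator_of_mem hω, indicator_of_mem hω]
      have e1 : pm W ω (gp s t n j) = mm W u ω := by rw [hu]; rfl
      have e2 : pm W ω (gp s t n (j + 1)) = mm W v ω := by rw [hv]; rfl
      unfold al
      simp only []
      rw [sm_succ, e1, e2, hΔ]
      by_cases h1 : κ < mx (fun i => pm W ω (gp s t n i)) j
      · rw [if_pos h1, if_pos h1, if_pos h1, if_pos h1, if_pos h1]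
        ring
      · rw [if_neg h1, if_neg h1, if_neg h1, if_neg h1, if_neg h1]
        field_simp
        ring
    · rw [hZ1, hZ2, hZ3, hZ4, indicator_of_notMem hω, indicator_of_notMem hω,
        indicator_of_notMem hω, indicator_of_notMem hω, indicator_of_notMem hω]
      ring
  obtain ⟨f1, hf1⟩ : ∃ f1 : Ω → ℝ, f1 = fun ω => Z1 ω * mm W v ω - Z1 ω * mm W u ω := ⟨_, rfl⟩
  obtain ⟨f3, hf3⟩ : ∃ f3 : Ω → ℝ, f3 = fun ω => Z3 ω * (mm W v ω * Real.log (mm W v ω)) -
        Z3 ω * (mm W u ω * Real.log (mm W u ω) + mm W u ω * (((v : ℝ) - u) / 2)) := ⟨_, rfl⟩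
  obtain ⟨f2, hf2⟩ : ∃ f2 : Ω → ℝ, f2 = fun ω => Z2 ω * mm W v ω ^ 2 -
        Real.exp ((v : ℝ) - u) * (Z2 ω * mm W u ω ^ 2) := ⟨_, rfl⟩
  obtain ⟨f4, hf4⟩ : ∃ f4 : Ω → ℝ, f4 = fun ω => Z4 ω * mm W v ω - Z4 ω * mm W u ω := ⟨_, rfl⟩
  have D1 : Integrable f1 P ∧ ∫ ω, f1 ω ∂P = 0 := by rw [hf1]; exact d1
  have D2 : Integrable f2 P ∧ ∫ ω, f2 ω ∂P = 0 := by rw [hf2]; exact d2
  have D3 : Integrable f3 P ∧ ∫ ω, f3 ω ∂P = 0 := by rw [hf3]; exact d3
  have D4 : Integrable f4 P ∧ ∫ ω, f4 ω ∂P = 0 := by rw [hf4]; exact d4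
  have hfun : (A.indicator fun ω => al κ Δ (fun i => pm W ω (gp s t n i)) j) =
      fun ω => (f1 ω + f3 ω + f2 ω) - f4 ω := by
    funext ω
    rw [key ω, hf1, hf2, hf3, hf4]
  have i13 : Integrable (fun ω => f1 ω + f3 ω) P := D1.1.add D3.1
  have i132 : Integrable (fun ω => f1 ω + f3 ω + f2 ω) P := i13.add D2.1
  rw [hfun]
  refine ⟨i132.sub D4.1, ?_⟩
  show ∫ ω, ((f1 ω + f3 ω + f2 ω) - f4 ω) ∂P = 0
  rw [integral_sub i132 D4.1, integral_add i13 D2.1, integral_add D1.1 D3.1, D1.2, D2.2, D3.2, D4.2]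
  ring

end

end PSI

open PSI

theorem t_PSI : S_PSI := by
  classical
  intro hP hT hS hM hK hSt Ω mΩ P _ F W h s t κ A hst hκ hA
  have hst' : (s : ℝ) ≤ t := by exact_mod_cast hst
  set c : ℝ := (t : ℝ) - s with hc
  have hc0 : 0 ≤ c := by linarith
  have hFt : F t ≤ mΩ := F.le t
  have hA' : MeasurableSet A := F.le s A hA
  have hpth := fun ω => hP (pm W ω) (h.pm_cont ω) s t hst
  -- the base
  set b : Ω → ℝ := fun ω => 1 + ssup (pm W ω) 0 t with hb
  have hb1 : ∀ ω, 1 ≤ b ω := fun ω => one_le_base h t ω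
  have hbi : Integrable (fun ω => b ω ^ 2) P := hS hP Ω mΩ P F W h t 2
  -- bounds of the grid quantities
  have hxb : ∀ n j ω, j ≤ n → 0 < pm W ω (gp s t n j) ∧ pm W ω (gp s t n j) ≤ b ω := by
    intro n j ω hj
    refine ⟨pm_pos ω _, ?_⟩
    have h1 := mm_le_ssup h (zero_le (a := gp s t n j)) ((hpth ω).2.2.2.1 n j hj).2.1 ω
    have h2 : pm W ω (gp s t n j) = mm W (gp s t n j) ω := rfl
    rw [h2, hb]
    linarith
  have hmxb : ∀ n ω, 0 < mx (fun j => pm W ω (gp s t n j)) n ∧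
      mx (fun j => pm W ω (gp s t n j)) n ≤ b ω := by
    intro n ω
    exact ⟨(pm_pos ω (gp s t n n)).trans_le (le_mx (fun j => pm W ω (gp s t n j)) n),
      mx_le fun i hi => (hxb n i ω hi).2⟩
  have hoscb : ∀ n ω, 0 ≤ osc (fun j => pm W ω (gp s t n j)) n ∧
      osc (fun j => pm W ω (gp s t n j)) n ≤ b ω := by
    intro n ω
    refine ⟨osc_nonneg _ _, osc_le (by linarith [hb1 ω]) fun i hi => ?_⟩
    have h1 := hxb n i ω hi.le
    have h2 := hxb n (i + 1) ω hi
    rw [abs_le]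
    constructor <;> linarith
  have hnc : ∀ n : ℕ, (n : ℝ) * (c / n) ≤ c := by
    intro n
    rcases Nat.eq_zero_or_pos n with rfl | hn
    · simpa using hc0
    · have : (n : ℝ) ≠ 0 := by exact_mod_cast hn.ne'
      rw [mul_div_cancel₀ _ this]
  have hsmb : ∀ n ω, |sm (fun j => pm W ω (gp s t n j)) (c / n) n| ≤ c * b ω := by
    intro n ω
    have h1 : |sm (fun j => pm W ω (gp s t n j)) (c / n) n| ≤ (c / n) * (n * b ω) :=
      abs_sm_le (by positivity) fun i hi => by
        rw [abs_of_pos (hxb n i ω hi.le).1]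
        exact (hxb n i ω hi.le).2
    refine h1.trans ?_
    have h2 := hnc n
    have h3 := hb1 ω
    calc (c / n) * (n * b ω) = (n * (c / n)) * b ω := by ring
      _ ≤ c * b ω := mul_le_mul_of_nonneg_right h2 (by linarith)
  -- the functions
  obtain ⟨ψ, hψ⟩ : ∃ ψ : ℕ → Ω → ℝ, ∀ n ω, ψ n ω =
      psi κ (c / n) (fun j => pm W ω (gp s t n j)) n := ⟨_, fun _ _ => rfl⟩
  obtain ⟨α, hα⟩ : ∃ α : ℕ → ℕ → Ω → ℝ, ∀ n j ω, α n j ω =
      al κ (c / n) (fun j => pm W ω (gp s t n j)) j := ⟨_, fun _ _ _ => rfl⟩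
  have hα0 : ∀ n j, Integrable (A.indicator (α n j)) P ∧ ∫ ω, A.indicator (α n j) ω ∂P = 0 := by
    intro n j
    have h1 := al_zero hP hS hSt h hst hκ hA n j
    have h2 : α n j = fun ω => al κ (((t : ℝ) - s) / n) (fun i => pm W ω (gp s t n i)) j :=
      funext fun ω => hα n j ω
    rw [h2]
    exact h1
  -- measurability of `ψ`
  have hxm : ∀ n j, Measurable (fun ω => pm W ω (gp s t n j)) := fun n j =>
    (h.mm_meas (le_refl (gp s t n j))).mono (F.le _) le_rfl
  have hψm : ∀ n, Measurable (ψ n) := by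
    intro n
    have h1 : ψ n = fun ω => psi κ (c / n) (fun j => pm W ω (gp s t n j)) n := funext (hψ n)
    rw [h1]
    unfold psi
    have hmx : Measurable (fun ω => mx (fun j => pm W ω (gp s t n j)) n) :=
      mx_meas fun i _ => hxm n i
    have hsm : Measurable (fun ω => sm (fun j => pm W ω (gp s t n j)) (c / n) n) :=
      sm_meas _ fun i _ => hxm n i
    refine Measurable.ite (measurableSet_lt measurable_const hmx) ?_ ?_
    · refine Measurable.add (((hxm n n).sub (hxm n 0)).sub hsm) (Measurable.const_mul ?_ 2)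
      exact (((hmx.sub (hxm n n)).sub ((hxm n n).mul (Real.measurable_log.comp hmx))).add
        ((hxm n n).mul (Real.measurable_log.comp (hxm n n))))
    · exact (((hxm n n).sub (hxm n 0)).sub hsm).mul ((hxm n n).div_const κ)
  -- the bound of `ψ`
  set L : ℝ := |Real.log κ| with hL
  have hL0 : 0 ≤ L := abs_nonneg _
  set C1 : ℝ := (2 + c) + 2 * (4 + L) + (2 + c) / κ with hC1
  have hψb : ∀ n ω, |ψ n ω| ≤ C1 * b ω ^ 2 := by
    intro n ω
    rw [hψ]
    have x1 := hxb n n ω le_rfl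
    have x0 := hxb n 0 ω (Nat.zero_le n)
    have xm := hmxb n ω
    have xs := hsmb n ω
    have hb' := hb1 ω
    have hbb : b ω ≤ b ω ^ 2 := by nlinarith
    have e1 : |pm W ω (gp s t n n) - pm W ω (gp s t n 0) -
        sm (fun j => pm W ω (gp s t n j)) (c / n) n| ≤ (2 + c) * b ω := by
      rw [abs_le] at xs ⊢
      constructor <;> linarith [xs.1, xs.2, x1.1, x1.2, x0.1, x0.2]
    have hκ' : 0 ≤ (2 + c) / κ := by positivity
    unfold psi
    split_ifs with h1
    · have e2 := abs_log_le hκ h1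
      have e3 := abs_mul_log_le x1.1
      have e4 : |pm W ω (gp s t n n) * Real.log (mx (fun j => pm W ω (gp s t n j)) n)| ≤
          b ω * (L + b ω) := by
        rw [abs_mul, abs_of_pos x1.1]
        refine mul_le_mul x1.2 (e2.trans ?_) (abs_nonneg _) (by linarith)
        linarith [xm.2]
      have e5 : pm W ω (gp s t n n) ^ 2 ≤ b ω ^ 2 := pow_le_pow_left₀ x1.1.le x1.2 2
      have e6 : |2 * (mx (fun j => pm W ω (gp s t n j)) n - pm W ω (gp s t n n) -
          pm W ω (gp s t n n) * Real.log (mx (fun j => pm W ω (gp s t n j)) n) +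
          pm W ω (gp s t n n) * Real.log (pm W ω (gp s t n n)))| ≤
          2 * (b ω + b ω * (L + b ω) + (1 + b ω ^ 2)) := by
        rw [abs_mul, abs_of_pos (by norm_num : (0 : ℝ) < 2)]
        refine mul_le_mul_of_nonneg_left ?_ (by norm_num)
        rw [abs_le] at e3 e4 ⊢
        constructor <;> linarith [e3.1, e3.2, e4.1, e4.2, x1.1, x1.2, xm.1, xm.2, e5]
      refine (abs_add_le _ _).trans ((add_le_add e1 e6).trans ?_)
      have e7 : (2 + c) * b ω ≤ (2 + c) * b ω ^ 2 := mul_le_mul_of_nonneg_left hbb (by linarith)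
      have e8 : L * b ω ≤ L * b ω ^ 2 := mul_le_mul_of_nonneg_left hbb hL0
      have e9 : 0 ≤ (2 + c) / κ * b ω ^ 2 := by positivity
      rw [hC1]
      nlinarith
    · rw [abs_mul, abs_div, abs_of_pos x1.1, abs_of_pos hκ]
      have e2 : |pm W ω (gp s t n n) - pm W ω (gp s t n 0) -
        sm (fun j => pm W ω (gp s t n j)) (c / n) n| * (pm W ω (gp s t n n) / κ) ≤
          ((2 + c) * b ω) * (b ω / κ) := by
        refine mul_le_mul e1 (div_le_div_of_nonneg_right x1.2 hκ.le) (div_nonneg x1.1.le hκ.le)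
          (by positivity)
      refine e2.trans ?_
      have e3 : (2 + c) * b ω * (b ω / κ) = (2 + c) / κ * b ω ^ 2 := by ring
      rw [e3, hC1]
      refine mul_le_mul_of_nonneg_right ?_ (by positivity)
      linarith
  -- the pointwise limit
  have hlim : ∀ ω, Tendsto (fun n => ψ n ω) atTop (𝓝 (Psi κ (pm W ω) s t)) := by
    intro ω
    obtain ⟨p1, p2, p3, p4, p5⟩ := hpth ω
    have hx0 : ∀ n, pm W ω (gp s t n 0) = pm W ω s := fun n => by rw [gp_zero]
    have hss : 0 < ssup (pm W ω) s t := ssup_pos h hst ω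
    unfold Psi
    by_cases h1 : κ < ssup (pm W ω) s t
    · rw [if_pos h1]
      have h2 : ∀ᶠ n : ℕ in atTop, κ < mx (fun j => pm W ω (gp s t n j)) n :=
        p2.eventually (lt_mem_nhds h1)
      have h3 : Tendsto (fun n : ℕ => (pm W ω t - pm W ω s -
          sm (fun j => pm W ω (gp s t n j)) (c / n) n) +
          2 * (mx (fun j => pm W ω (gp s t n j)) n - pm W ω t -
            pm W ω t * Real.log (mx (fun j => pm W ω (gp s t n j)) n) +
            pm W ω t * Real.log (pm W ω t))) atTop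
          (𝓝 ((pm W ω t - pm W ω s - jint (pm W ω) s t) +
            2 * (ssup (pm W ω) s t - pm W ω t - pm W ω t * Real.log (ssup (pm W ω) s t) +
              pm W ω t * Real.log (pm W ω t)))) := by
        have hlog : Tendsto (fun n : ℕ => Real.log (mx (fun j => pm W ω (gp s t n j)) n)) atTop
            (𝓝 (Real.log (ssup (pm W ω) s t))) := p2.log hss.ne'
        exact (tendsto_const_nhds.sub p3).add (((p2.sub tendsto_const_nhds).sub
          (hlog.const_mul _)).add tendsto_const_nhds |>.const_mul 2)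
      refine h3.congr' ?_
      filter_upwards [h2, eventually_ge_atTop 1] with n hn hn1
      rw [hψ]
      unfold psi
      rw [if_pos hn]
      simp only [p5 n hn1, hx0]
    · rw [if_neg h1]
      have h3 : Tendsto (fun n : ℕ => (pm W ω t - pm W ω s -
          sm (fun j => pm W ω (gp s t n j)) (c / n) n) * (pm W ω t / κ)) atTop
          (𝓝 ((pm W ω t - pm W ω s - jint (pm W ω) s t) * (pm W ω t / κ))) :=
        (tendsto_const_nhds.sub p3).mul_const _
      refine h3.congr' ?_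
      filter_upwards [eventually_ge_atTop 1] with n hn1
      rw [hψ]
      unfold psi
      rw [if_neg (not_lt.2 ((p4 n n le_rfl).2.2.trans (not_lt.1 h1)))]
      simp only [p5 n hn1, hx0]
  have hPb : ∀ ω, |Psi κ (pm W ω) s t| ≤ C1 * b ω ^ 2 := fun ω =>
    le_of_tendsto' (hlim ω).abs fun n => hψb n ω
  have hPm : Measurable (fun ω => Psi κ (pm W ω) s t) :=
    measurable_of_tendsto_metrizable hψm (tendsto_pi_nhds.2 hlim)
  have hPi : Integrable (fun ω => Psi κ (pm W ω) s t) P :=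
    (hbi.const_mul C1).mono' hPm.aestronglyMeasurable (Eventually.of_forall hPb)
  refine ⟨hPi, ?_⟩
  -- first limit
  have hindle : ∀ (f : Ω → ℝ) ω, ‖A.indicator f ω‖ ≤ |f ω| := by
    intro f ω
    by_cases hω : ω ∈ A
    · rw [indicator_of_mem hω]; exact le_rfl
    · rw [indicator_of_notMem hω, norm_zero]; exact abs_nonneg _
  have hL1 : Tendsto (fun n => ∫ ω, A.indicator (ψ n) ω ∂P) atTop
      (𝓝 (∫ ω, A.indicator (fun ω => Psi κ (pm W ω) s t) ω ∂P)) := by
    refine tendsto_integral_of_dominated_convergence (fun ω => C1 * b ω ^ 2)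
      (fun n => ((hψm n).indicator hA').aestronglyMeasurable) (hbi.const_mul C1)
      (fun n => Eventually.of_forall fun ω => (hindle _ ω).trans (hψb n ω))
      (Eventually.of_forall fun ω => ?_)
    by_cases hω : ω ∈ A
    · simp only [indicator_of_mem hω]
      exact hlim ω
    · simp only [indicator_of_notMem hω]
      exact tendsto_const_nhds
  -- second limit
  obtain ⟨B, hB⟩ := (expn hc0).bddAbove_range
  have hB' : ∀ n : ℕ, (n : ℝ) * (Real.exp (c / n) - 1 - c / n) ≤ B := fun n => hB ⟨n, rfl⟩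
  have hexp0 : ∀ n : ℕ, 0 ≤ (n : ℝ) * (Real.exp (c / n) - 1 - c / n) := by
    intro n
    refine mul_nonneg (Nat.cast_nonneg n) ?_
    have := Real.add_one_le_exp (c / n)
    linarith
  have hB0 : 0 ≤ B := (hexp0 0).trans (hB' 0)
  obtain ⟨R, hR⟩ : ∃ R : ℕ → Ω → ℝ, ∀ n ω, R n ω =
      2 / κ * (osc (fun j => pm W ω (gp s t n j)) n * mx (fun j => pm W ω (gp s t n j)) n) +
        n * (Real.exp (c / n) - 1 - c / n) * mx (fun j => pm W ω (gp s t n j)) n ^ 2 / κ +
        (2 + n * (c / n)) * mx (fun j => pm W ω (gp s t n j)) n *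
          osc (fun j => pm W ω (gp s t n j)) n / κ := ⟨_, fun _ _ => rfl⟩
  obtain ⟨D, hD⟩ : ∃ D : ℕ → Ω → ℝ, ∀ n ω, D n ω =
      A.indicator (ψ n) ω - ∑ j ∈ Finset.range n, A.indicator (α n j) ω := ⟨_, fun _ _ => rfl⟩
  have hDR : ∀ n ω, |D n ω| ≤ R n ω := by
    intro n ω
    have h1 := (hT (fun j => pm W ω (gp s t n j)) (fun j => pm_pos ω _)).2 κ (c / n) hκ
      (by positivity) n
    have h2 : |ψ n ω - ∑ j ∈ Finset.range n, α n j ω| ≤ R n ω := by
      rw [hR]
      refine le_trans ?_ h1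
      have h3 : ψ n ω - ∑ j ∈ Finset.range n, α n j ω = ∑ j ∈ Finset.range n,
          (psi κ (c / n) (fun j => pm W ω (gp s t n j)) (j + 1) -
            psi κ (c / n) (fun j => pm W ω (gp s t n j)) j -
            al κ (c / n) (fun j => pm W ω (gp s t n j)) j) := by
        rw [Finset.sum_sub_distrib, Finset.sum_range_sub (fun j => psi κ (c / n)
          (fun j => pm W ω (gp s t n j)) j) n, psi_zero, sub_zero, hψ]
        simp only [hα]
      rw [h3]
      exact Finset.abs_sum_le_sum_abs _ _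
    rw [hD]
    by_cases hω : ω ∈ A
    · simp only [indicator_of_mem hω]
      exact h2
    · simp only [indicator_of_notMem hω, Finset.sum_const_zero, sub_zero, abs_zero]
      exact (abs_nonneg _).trans h2
  set C2 : ℝ := 2 / κ + B / κ + (2 + c) / κ with hC2
  have hRb : ∀ n ω, R n ω ≤ C2 * b ω ^ 2 := by
    intro n ω
    rw [hR]
    have xm := hmxb n ω
    have xo := hoscb n ω
    have hb' := hb1 ω
    have e1 : osc (fun j => pm W ω (gp s t n j)) n * mx (fun j => pm W ω (gp s t n j)) n ≤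
        b ω ^ 2 := by
      rw [sq]
      exact mul_le_mul xo.2 xm.2 xm.1.le (by linarith)
    have e2 : mx (fun j => pm W ω (gp s t n j)) n ^ 2 ≤ b ω ^ 2 :=
      pow_le_pow_left₀ xm.1.le xm.2 2
    have f1 : 2 / κ * (osc (fun j => pm W ω (gp s t n j)) n *
        mx (fun j => pm W ω (gp s t n j)) n) ≤ 2 / κ * b ω ^ 2 :=
      mul_le_mul_of_nonneg_left e1 (by positivity)
    have f2 : n * (Real.exp (c / n) - 1 - c / n) * mx (fun j => pm W ω (gp s t n j)) n ^ 2 / κ ≤
        B / κ * b ω ^ 2 := by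
      rw [div_mul_eq_mul_div]
      refine div_le_div_of_nonneg_right ?_ hκ.le
      exact mul_le_mul (hB' n) e2 (by positivity) hB0
    have f3 : (2 + n * (c / n)) * mx (fun j => pm W ω (gp s t n j)) n *
          osc (fun j => pm W ω (gp s t n j)) n / κ ≤ (2 + c) / κ * b ω ^ 2 := by
      rw [div_mul_eq_mul_div]
      refine div_le_div_of_nonneg_right ?_ hκ.le
      rw [mul_assoc]
      refine mul_le_mul ?_ ?_ (mul_nonneg xm.1.le xo.1) (by linarith)
      · have := hnc n
        linarith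
      · rw [mul_comm]
        exact e1
    rw [hC2]
    nlinarith
  have hR0 : ∀ ω, Tendsto (fun n => R n ω) atTop (𝓝 0) := by
    intro ω
    obtain ⟨p1, p2, p3, p4, p5⟩ := hpth ω
    have h1 : Tendsto (fun n : ℕ => 2 + (n : ℝ) * (c / n)) atTop (𝓝 (2 + c)) := by
      refine (tendsto_const_nhds (x := 2 + c)).congr' ?_
      filter_upwards [eventually_ge_atTop 1] with n hn
      have : (n : ℝ) ≠ 0 := by
        have : n ≠ 0 := by omega
        exact_mod_cast this
      rw [mul_div_cancel₀ _ this]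
    have h2 := (((p1.mul p2).const_mul (2 / κ)).add
      (((expn hc0).mul (p2.pow 2)).div_const κ)).add (((h1.mul p2).mul p1).div_const κ)
    have h3 : 2 / κ * (0 * ssup (pm W ω) s t) + 0 * ssup (pm W ω) s t ^ 2 / κ +
        (2 + c) * ssup (pm W ω) s t * 0 / κ = 0 := by ring
    rw [h3] at h2
    refine h2.congr fun n => ?_
    rw [hR]
  have hDm : ∀ n, Measurable (D n) := by
    intro n
    have h1 : D n = fun ω => A.indicator (ψ n) ω - ∑ j ∈ Finset.range n, A.indicator (α n j) ω :=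
      funext (hD n)
    rw [h1]
    refine ((hψm n).indicator hA').sub (Finset.measurable_fun_sum _ fun j _ => ?_)
    refine Measurable.indicator ?_ hA'
    have h2 : α n j = fun ω => al κ (c / n) (fun i => pm W ω (gp s t n i)) j := funext (hα n j)
    rw [h2]
    unfold al
    have hmx : Measurable (fun ω => mx (fun i => pm W ω (gp s t n i)) j) :=
      mx_meas fun i _ => hxm n i
    have hsm : ∀ k, Measurable (fun ω => sm (fun i => pm W ω (gp s t n i)) (c / n) k) := fun k =>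
      sm_meas _ fun i _ => hxm n i
    have hj := hxm n j
    have hj1 := hxm n (j + 1)
    have h0 := hxm n 0
    refine Measurable.ite (measurableSet_lt measurable_const hmx) ?_ ?_
    · refine Measurable.add (((hj1.sub hj).neg.sub (hj.mul_const _)).sub
        (((hj1.sub hj).const_mul 2).mul (Real.measurable_log.comp hmx))) (Measurable.const_mul ?_ 2)
      exact (hj1.mul (Real.measurable_log.comp hj1)).sub (hj.mul (Real.measurable_log.comp hj))
    · exact ((((((hj1.sub h0).sub (hsm (j + 1))).mul hj1)).sub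
        (((hj.sub h0).sub (hsm j)).mul hj)).sub ((hj.pow_const 2).mul_const _)).div_const κ
  have hL2 : Tendsto (fun n => ∫ ω, D n ω ∂P) atTop (𝓝 (∫ ω, (0 : ℝ) ∂P)) := by
    refine tendsto_integral_of_dominated_convergence (fun ω => C2 * b ω ^ 2)
      (fun n => (hDm n).aestronglyMeasurable) (hbi.const_mul C2)
      (fun n => Eventually.of_forall fun ω => (hDR n ω).trans (hRb n ω))
      (Eventually.of_forall fun ω => ?_)
    exact squeeze_zero_norm (fun n => hDR n ω) (hR0 ω)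
  have hDψ : ∀ n, ∫ ω, D n ω ∂P = ∫ ω, A.indicator (ψ n) ω ∂P := by
    intro n
    have h1 : D n = fun ω => A.indicator (ψ n) ω - ∑ j ∈ Finset.range n, A.indicator (α n j) ω :=
      funext (hD n)
    have i1 : Integrable (A.indicator (ψ n)) P :=
      (hbi.const_mul C1).mono' ((hψm n).indicator hA').aestronglyMeasurable
        (Eventually.of_forall fun ω => (hindle _ ω).trans (hψb n ω))
    rw [h1, integral_sub i1 (integrable_finsetSum _ fun j _ => (hα0 n j).1),
      integral_finsetSum _ fun j _ => (hα0 n j).1, Finset.sum_eq_zero fun j _ => (hα0 n j).2,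
      sub_zero]
  simp only [hDψ, integral_zero] at hL2
  have := tendsto_nhds_unique hL1 hL2
  rwa [integral_indicator hA'] at this

end Pool.Agent.T2h33.RG
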