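import Pool.Agent.T2h33.RG.Basic

/-!
# Project RG, task SIN (helper59)
-/

set_option autoImplicit false
set_option linter.all false

open MeasureTheory ProbabilityTheory Filter Topology Set
open scoped NNReal ENNReal

namespace Pool.Agent.T2h33.RG

theorem t_SIN : S_SIN := by
  intro hP hK hS hM hT hSt hD hDK Ω mΩ P _ F W h
  have hMe := hM hP hK Ω mΩ P F W h
  have hKm : ∀ t, Measurable (KK W t) := hMe.2
  have hMm : ∀ t, Measurable (mm W t) := fun t => (h.mm_meas (le_refl t)).mono (F.le _) le_rfl
  -- first step: for each `t`
  have hA : ∀ t : ℝ≥0, ∀ᵐ ω ∂P, mm W t ω < KK W t ω := by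
    intro t
    set c : ℕ → ℝ := fun n => 1 + 1 / ((n : ℝ) + 1) with hc
    set δ : ℕ → ℝ := fun n => 1 / ((n : ℝ) + 1) with hδ
    have hδ0 : ∀ n, 0 < δ n := fun n => by
      simp only [hδ]
      positivity
    have hc1 : ∀ n, 1 < c n := fun n => by
      have := hδ0 n
      simp only [hc, hδ] at this ⊢
      linarith
    have hδl : Tendsto δ atTop (𝓝 0) := tendsto_one_div_add_atTop_nhds_zero_nat
    have hcl : Tendsto c atTop (𝓝 1) := by
      have := hδl.const_add 1
      rw [add_zero] at this
      exact this
    set B : Set Ω := {ω | mm W t ω < KK W t ω} with hB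
    have hBm : MeasurableSet B := measurableSet_lt (hMm t) (hKm t)
    set g : ℕ → Ω → ℝ := fun n ω => if δ n ≤ c n * mm W t ω then 1 / c n else 0 with hg
    have hgle : ∀ n, ∫ ω, g n ω ∂P ≤ P.real B := by
      intro n
      set Y : Ω → ℝ := fun ω => if δ n ≤ c n * mm W t ω then 1 else 0 with hY
      set X : Ω → ℝ := fun ω => max (c n * mm W t ω) (δ n) with hX
      have hXm : Measurable[F t] X := ((h.mm_meas (le_refl t)).const_mul _).max measurable_const
      have hYm : Measurable[F t] Y := by
        refine Measurable.ite ?_ measurable_const measurable_const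
        exact measurableSet_le measurable_const ((h.mm_meas (le_refl t)).const_mul _)
      have hYg : Pg W t Y := by
        refine (Pg.const t (1 : ℝ)).of_abs_le fun ω => ?_
        simp only [hY]
        split_ifs <;> simp
      have h1 := hDK hP hK hS hM hD hT hSt Ω mΩ P F W h t X Y (δ n) hXm hYm (hδ0 n)
        (fun ω => le_max_right _ _) hYg
      have h2 : ∀ ω, Y ω * min 1 (mm W t ω / X ω) = g n ω := by
        intro ω
        simp only [hY, hg]
        split_ifs with h3
        · have h4 : X ω = c n * mm W t ω := max_eq_left h3
          have h5 := mm_pos (W := W) t ω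
          have h6 : mm W t ω / X ω = 1 / c n := by
            rw [h4]
            have : c n ≠ 0 := (zero_lt_one.trans (hc1 n)).ne'
            field_simp
          rw [one_mul, h6, min_eq_right]
          rw [div_le_one (zero_lt_one.trans (hc1 n))]
          exact (hc1 n).le
        · rw [zero_mul]
      simp only [h2] at h1
      rw [← h1, ← integral_indicator_one hBm]
      refine integral_mono_of_nonneg (Eventually.of_forall fun ω => ?_) ?_
        (Eventually.of_forall fun ω => ?_)
      · simp only [hY, Pi.zero_apply]
        split_ifs <;> norm_num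
      · exact (integrable_const (1 : ℝ)).indicator hBm
      · simp only [hY]
        by_cases h3 : X ω < KK W t ω
        · have h4 : ω ∈ B := by
            have h5 := mm_pos (W := W) t ω
            have h6 : mm W t ω ≤ X ω := by
              refine le_trans ?_ (le_max_left _ _)
              nlinarith [hc1 n]
            exact h6.trans_lt h3
          rw [if_pos h3, indicator_of_mem h4]
          split_ifs <;> simp
        · rw [if_neg h3, mul_zero]
          exact indicator_nonneg (fun _ _ => zero_le_one) ω
    have hgl : Tendsto (fun n => ∫ ω, g n ω ∂P) atTop (𝓝 (∫ ω, (1 : ℝ) ∂P)) := by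
      refine tendsto_integral_of_dominated_convergence (fun _ => 1) ?_ (integrable_const _) ?_ ?_
      · intro n
        refine (Measurable.ite ?_ measurable_const measurable_const).aestronglyMeasurable
        exact measurableSet_le measurable_const ((hMm t).const_mul _)
      · intro n
        refine Eventually.of_forall fun ω => ?_
        simp only [hg]
        have h3 := zero_lt_one.trans (hc1 n)
        split_ifs
        · rw [Real.norm_eq_abs, abs_of_pos (by positivity), div_le_one h3]
          exact (hc1 n).le
        · simp
      · refine Eventually.of_forall fun ω => ?_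
        have h5 := mm_pos (W := W) t ω
        have h6 : ∀ᶠ n in atTop, δ n < mm W t ω := hδl.eventually_lt_const h5
        have h7 : Tendsto (fun n => 1 / c n) atTop (𝓝 1) := by
          have := (tendsto_const_nhds (x := (1 : ℝ))).div hcl one_ne_zero
          rwa [div_one] at this
        refine h7.congr' ?_
        filter_upwards [h6] with n hn
        simp only [hg]
        rw [if_pos]
        nlinarith [hc1 n]
    have h1 : (1 : ℝ) ≤ P.real B := by
      have := le_of_tendsto' hgl hgle
      simpa using this
    have h2 : P.real B = 1 := le_antisymm measureReal_le_one h1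
    have h3 : P.real Bᶜ = 0 := by
      rw [probReal_compl_eq_one_sub hBm, h2, sub_self]
    have h4 : P Bᶜ = 0 := by
      rwa [measureReal_eq_zero_iff] at h3
    exact h4
  -- second step: Fubini
  have hjK : Measurable (Function.uncurry fun (x : ℝ) (ω : Ω) => KK W x.toNNReal ω) := by
    refine measurable_uncurry_of_continuous_of_measurable (fun ω => ?_) (fun x => hKm _)
    exact (hK (pm W ω) (h.pm_cont ω) (pm_pos ω) (h.pm_lim ω)).2.1.comp continuous_real_toNNReal
  have hjM : Measurable (Function.uncurry fun (x : ℝ) (ω : Ω) => mm W x.toNNReal ω) := by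
    refine measurable_uncurry_of_continuous_of_measurable (fun ω => ?_) (fun x => hMm _)
    exact (h.pm_cont ω).comp continuous_real_toNNReal
  set E : Set (Ω × ℝ) := {q | 0 ≤ q.2 ∧ KK W q.2.toNNReal q.1 ≤ mm W q.2.toNNReal q.1} with hE
  have hEm : MeasurableSet E := by
    refine (measurableSet_le measurable_const measurable_snd).inter ?_
    exact measurableSet_le (hjK.comp measurable_swap) (hjM.comp measurable_swap)
  have hE0 : (P.prod volume) E = 0 := by
    rw [Measure.prod_apply_symm hEm]
    refine (lintegral_congr fun x => ?_).trans lintegral_zero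
    refine measure_mono_null ?_ (hA x.toNNReal)
    intro ω hω
    exact not_lt.2 hω.2
  exact Measure.measure_ae_null_of_prod_null hE0

end Pool.Agent.T2h33.RG
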