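import Pool.Agent.T2h33.RG.Basic

/-!
# Project RG, part STEP (helper97)
-/

set_option autoImplicit false
set_option linter.all false

open MeasureTheory ProbabilityTheory Filter Topology Set
open scoped NNReal ENNReal

namespace Pool.Agent.T2h33.RG

namespace STEP

/-! ### Gaussian integrals -/

lemma g_int (v : ℝ≥0) (t : ℝ) : Integrable (fun x : ℝ => Real.exp (t * x)) (gaussianReal 0 v) :=
  integrable_exp_mul_gaussianReal t

lemma g_exp (v : ℝ≥0) (t : ℝ) :
    ∫ x, Real.exp (t * x) ∂(gaussianReal 0 v) = Real.exp (v * t ^ 2 / 2) := by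
  have h := congrFun (mgf_id_gaussianReal (μ := 0) (v := v)) t
  simpa [mgf] using h

lemma g_int2 (v : ℝ≥0) (t : ℝ) :
    Integrable (fun x : ℝ => x * Real.exp (t * x)) (gaussianReal 0 v) := by
  have h : t ∈ interior (integrableExpSet id (gaussianReal 0 v)) := by
    rw [integrableExpSet_id_gaussianReal, interior_univ]; trivial
  have h2 := integrable_pow_abs_mul_exp_of_mem_interior_integrableExpSet h 1
  refine h2.mono' (by fun_prop) (Eventually.of_forall fun x => ?_)
  simp only [id, pow_one, Real.norm_eq_abs, abs_mul, Real.abs_exp]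
  exact le_rfl

lemma g_exp2 (v : ℝ≥0) :
    ∫ x, x * Real.exp (1 * x) ∂(gaussianReal 0 v) = v * Real.exp (v / 2) := by
  have h : (1 : ℝ) ∈ interior (integrableExpSet id (gaussianReal 0 v)) := by
    rw [integrableExpSet_id_gaussianReal, interior_univ]; trivial
  have h2 := hasDerivAt_mgf h
  rw [mgf_id_gaussianReal] at h2
  have h3 : HasDerivAt (fun t : ℝ => Real.exp (0 * t + v * t ^ 2 / 2))
      (Real.exp (0 * 1 + v * 1 ^ 2 / 2) * (v : ℝ)) 1 := by
    have h4 : HasDerivAt (fun t : ℝ => 0 * t + (v : ℝ) * t ^ 2 / 2) (v : ℝ) 1 := by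
      have h5 := ((hasDerivAt_pow 2 (1 : ℝ)).const_mul (v : ℝ)).div_const 2
      have h6 : (fun t : ℝ => 0 * t + (v : ℝ) * t ^ 2 / 2) = fun t : ℝ => (v : ℝ) * t ^ 2 / 2 := by
        funext t; ring
      rw [h6]
      have h7 : (v : ℝ) = (v : ℝ) * (((2 : ℕ) : ℝ) * 1 ^ (2 - 1)) / 2 := by norm_num
      rw [h7]
      simpa using h5
    exact h4.exp
  have h4 := h2.unique h3
  simp only [id] at h4
  rw [h4]
  norm_num
  ring

section
variable {Ω : Type} {mΩ : MeasurableSpace Ω} {P : Measure Ω} {F : Filtration ℝ≥0 mΩ}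
  {W : ℝ≥0 → Ω → ℝ}

/-- product of an `F u`-measurable function and a function of the increment -/
lemma indep_int [IsProbabilityMeasure P] (h : BMF P F W) {u v : ℝ≥0} (huv : u ≤ v) {X : Ω → ℝ}
    (hX : Measurable[F u] X) {g : ℝ → ℝ} (hg : Measurable g) :
    (∫ ω, X ω * g (W v ω - W u ω) ∂P = (∫ ω, X ω ∂P) * ∫ x, g x ∂(gaussianReal 0 (v - u))) ∧
    (Integrable X P → Integrable g (gaussianReal 0 (v - u)) →
      Integrable (fun ω => X ω * g (W v ω - W u ω)) P) := by
  have hX' : Measurable X := hX.mono (F.le u) le_rfl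
  have hWv : Measurable (W v) := (h.adapted v).mono (F.le v) le_rfl
  have hWu : Measurable (W u) := (h.adapted u).mono (F.le u) le_rfl
  have hD : Measurable (fun ω => W v ω - W u ω) := hWv.sub hWu
  have hind : IndepFun X (fun ω => g (W v ω - W u ω)) P := by
    rw [IndepFun_iff_Indep]
    refine indep_of_indep_of_le_left (indep_of_indep_of_le_right (h.indep u v huv) ?_) ?_
    · rw [show (fun ω => g (W v ω - W u ω)) = g ∘ (fun ω => W v ω - W u ω) from rfl,
        ← MeasurableSpace.comap_comp]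
      exact MeasurableSpace.comap_mono hg.comap_le
    · exact hX.comap_le
  have hmap := h.law u v huv
  constructor
  · rw [hind.integral_fun_mul_eq_mul_integral hX'.aestronglyMeasurable
      (hg.comp hD).aestronglyMeasurable]
    congr 1
    rw [← hmap, integral_map hD.aemeasurable hg.aestronglyMeasurable]
  · intro hXi hgi
    rw [← hmap] at hgi
    have h2 : Integrable (fun ω => g (W v ω - W u ω)) P :=
      (integrable_map_measure hg.aestronglyMeasurable hD.aemeasurable).1 hgi
    exact hind.integrable_mul hXi h2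

lemma mm_eq {u v : ℝ≥0} (ω : Ω) :
    mm W v ω = mm W u ω * (Real.exp (1 * (W v ω - W u ω)) * Real.exp (-(((v : ℝ) - u) / 2))) := by
  unfold mm
  rw [← Real.exp_add, ← Real.exp_add]
  congr 1
  ring

end

end STEP

open STEP in
theorem t_STEP : S_STEP := by
  intro hP hS Ω mΩ P _ F W h u v huv Z hZ hZg
  have hmu : Measurable[F u] (mm W u) := h.mm_meas le_rfl
  have hcoe : ((v - u : ℝ≥0) : ℝ) = (v : ℝ) - u := NNReal.coe_sub huv
  have hF : ∀ {X : Ω → ℝ}, Measurable[F u] X → Measurable X := fun hX => hX.mono (F.le u) le_rfl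
  set Δ : ℝ := (v : ℝ) - u with hΔ
  have hm1 : Measurable[F u] (fun ω => Z ω * mm W u ω) := hZ.mul hmu
  have hm2 : Measurable[F u] (fun ω => Z ω * mm W u ω ^ 2) := hZ.mul (hmu.pow_const 2)
  have hlog : Measurable[F u] (fun ω => Real.log (mm W u ω)) := Real.measurable_log.comp hmu
  have hm3 : Measurable[F u] (fun ω => Z ω * (mm W u ω * Real.log (mm W u ω))) :=
    hZ.mul (hmu.mul hlog)
  have hg1 : Pg W u (fun ω => Z ω * mm W u ω) := hZg.mul h (Pg.mm h le_rfl)
  have hg3 : Pg W u (fun ω => Z ω * (mm W u ω * Real.log (mm W u ω))) :=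
    hZg.mul h (Pg.mul_log h le_rfl)
  have hi1 : Integrable (fun ω => Z ω * mm W u ω) P := hg1.integrable h hP hS (hF hm1)
  have hi3 : Integrable (fun ω => Z ω * (mm W u ω * Real.log (mm W u ω))) P :=
    hg3.integrable h hP hS (hF hm3)
  -- the functions of the increment
  have e1 : ∫ x, Real.exp (1 * x) * Real.exp (-(Δ / 2)) ∂(gaussianReal 0 (v - u)) = 1 := by
    rw [integral_mul_const, g_exp, hcoe, ← Real.exp_add]
    ring_nf
    exact Real.exp_zero
  have e2 : ∫ x, (Real.exp (1 * x) * Real.exp (-(Δ / 2))) ^ 2 ∂(gaussianReal 0 (v - u)) =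
      Real.exp Δ := by
    have : ∀ x : ℝ, (Real.exp (1 * x) * Real.exp (-(Δ / 2))) ^ 2 =
        Real.exp (2 * x) * Real.exp (-Δ) := by
      intro x
      rw [← Real.exp_add, ← Real.exp_add, ← Real.exp_nat_mul]
      congr 1
      push_cast
      ring
    simp_rw [this]
    rw [integral_mul_const, g_exp, hcoe, ← Real.exp_add]
    congr 1
    ring
  have e3i1 : Integrable (fun x : ℝ => x * Real.exp (1 * x) * Real.exp (-(Δ / 2)))
      (gaussianReal 0 (v - u)) := (g_int2 (v - u) 1).mul_const _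
  have e3i2 : Integrable (fun x : ℝ => Δ / 2 * (Real.exp (1 * x) * Real.exp (-(Δ / 2))))
      (gaussianReal 0 (v - u)) := ((g_int (v - u) 1).mul_const _).const_mul _
  have e3 : ∫ x, (x * Real.exp (1 * x) * Real.exp (-(Δ / 2)) -
      Δ / 2 * (Real.exp (1 * x) * Real.exp (-(Δ / 2)))) ∂(gaussianReal 0 (v - u)) = Δ / 2 := by
    rw [integral_sub e3i1 e3i2, integral_const_mul, e1, integral_mul_const, g_exp2, hcoe,
      mul_assoc, ← Real.exp_add]
    have : Δ / 2 + -(Δ / 2) = 0 := by ring
    rw [this, Real.exp_zero]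
    ring
  refine ⟨?_, ?_, ?_⟩
  · have h1 := (indep_int h huv hm1 (g := fun x => Real.exp (1 * x) * Real.exp (-(Δ / 2)))
      (by fun_prop)).1
    rw [e1, mul_one] at h1
    rw [← h1]
    refine integral_congr_ae (Eventually.of_forall fun ω => ?_)
    simp only
    rw [mm_eq (u := u) (v := v) ω]
    ring
  · have h1 := (indep_int h huv hm2 (g := fun x => (Real.exp (1 * x) * Real.exp (-(Δ / 2))) ^ 2)
      (by fun_prop)).1
    rw [e2, mul_comm] at h1
    rw [← h1]
    refine integral_congr_ae (Eventually.of_forall fun ω => ?_)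
    simp only
    rw [mm_eq (u := u) (v := v) ω]
    ring
  · have h1 := indep_int h huv hm3 (g := fun x => Real.exp (1 * x) * Real.exp (-(Δ / 2)))
      (by fun_prop)
    have h2 := indep_int h huv hm1 (g := fun x => x * Real.exp (1 * x) * Real.exp (-(Δ / 2)) -
      Δ / 2 * (Real.exp (1 * x) * Real.exp (-(Δ / 2)))) (by fun_prop)
    have h1i := h1.2 hi3 ((g_int (v - u) 1).mul_const _)
    have h2i := h2.2 hi1 (e3i1.sub e3i2)
    have h1e := h1.1
    have h2e := h2.1
    rw [e1, mul_one] at h1e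
    rw [e3] at h2e
    have hR : ∫ ω, Z ω * (mm W u ω * Real.log (mm W u ω) + mm W u ω * (Δ / 2)) ∂P =
        (∫ ω, Z ω * (mm W u ω * Real.log (mm W u ω)) ∂P) + (∫ ω, Z ω * mm W u ω ∂P) * (Δ / 2) := by
      rw [← integral_mul_const, ← integral_add hi3 (hi1.mul_const _)]
      refine integral_congr_ae (Eventually.of_forall fun ω => ?_)
      simp only
      ring
    rw [hR, ← h1e, ← h2e, ← integral_add h1i h2i]
    refine integral_congr_ae (Eventually.of_forall fun ω => ?_)
    simp only
    rw [log_mm, log_mm, mm_eq (u := u) (v := v) ω, ← hΔ]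
    have hW : W v ω - (v : ℝ) / 2 = (W u ω - (u : ℝ) / 2) + ((W v ω - W u ω) - Δ / 2) := by
      rw [hΔ]; ring
    rw [hW]
    ring

end Pool.Agent.T2h33.RG
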