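import Pool.Agent.T2h33.RG.Basic

/-!
# Project RG, task SUPM (helper46): the moments of the supremum
-/

set_option autoImplicit false
set_option linter.all false

open MeasureTheory ProbabilityTheory Filter Topology Set
open scoped NNReal ENNReal

namespace Pool.Agent.T2h33.RG

namespace SUPM

variable {Ω : Type} {mΩ : MeasurableSpace Ω} {P : Measure Ω} [IsProbabilityMeasure P]
  {F : Filtration ℝ≥0 mΩ} {W : ℝ≥0 → Ω → ℝ}

lemma W_meas (h : BMF P F W) (u : ℝ≥0) : Measurable (W u) := (h.adapted u).mono (F.le u) le_rfl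

lemma inc_meas (h : BMF P F W) (u v : ℝ≥0) : Measurable (fun ω => W v ω - W u ω) :=
  (W_meas h v).sub (W_meas h u)

lemma inc_int (h : BMF P F W) {u v : ℝ≥0} (huv : u ≤ v) (a : ℝ) :
    Integrable (fun ω => Real.exp (a * (W v ω - W u ω))) P := by
  have h1 : Integrable (fun x : ℝ => Real.exp (a * x)) (P.map (fun ω => W v ω - W u ω)) := by
    rw [h.law u v huv]
    exact integrable_exp_mul_gaussianReal a
  exact (integrable_map_measure h1.aestronglyMeasurable (inc_meas h u v).aemeasurable).1 h1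

lemma inc_val (h : BMF P F W) {u v : ℝ≥0} (huv : u ≤ v) (a : ℝ) :
    ∫ ω, Real.exp (a * (W v ω - W u ω)) ∂P = Real.exp (((v : ℝ) - u) * a ^ 2 / 2) := by
  have h1 := mgf_gaussianReal (h.law u v huv) a
  rw [zero_mul, zero_add, NNReal.coe_sub huv] at h1
  exact h1

/-- the powers of `M` -/
lemma mm_pow (t : ℝ≥0) (q : ℕ) (ω : Ω) :
    mm W t ω ^ q = Real.exp (q * W t ω) * Real.exp (-(q * (t / 2))) := by
  unfold mm
  rw [← Real.exp_nat_mul, ← Real.exp_add]
  congr 1
  ring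

lemma pow_int (h : BMF P F W) (t : ℝ≥0) (q : ℕ) : Integrable (fun ω => mm W t ω ^ q) P := by
  have h1 := (inc_int h (zero_le (a := t)) (q : ℝ)).mul_const (Real.exp (-(q * (t / 2))))
  refine h1.congr (Eventually.of_forall fun ω => ?_)
  show Real.exp (q * (W t ω - W 0 ω)) * _ = mm W t ω ^ q
  rw [mm_pow, h.zero, sub_zero]

/-- the powers of `M` are submartingales -/
lemma step (h : BMF P F W) {u v : ℝ≥0} (huv : u ≤ v) (q : ℕ) (A : Set Ω) (hA : MeasurableSet[F u] A) :
    ∫ ω in A, mm W u ω ^ q ∂P ≤ ∫ ω in A, mm W v ω ^ q ∂P := by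
  have hA' : MeasurableSet A := F.le u _ hA
  let X : Ω → ℝ := A.indicator (fun ω => mm W u ω ^ q)
  let Y : Ω → ℝ := fun ω => Real.exp (q * (W v ω - W u ω))
  have hX : Measurable[F u] X := ((h.mm_meas le_rfl).pow_const q).indicator hA
  have hXm : Measurable X := hX.mono (F.le u) le_rfl
  have hg : Measurable (fun x : ℝ => Real.exp (q * x)) := by fun_prop
  have hYm : Measurable Y := hg.comp (inc_meas h u v)
  have hind : IndepFun X Y P := by
    rw [IndepFun_iff_Indep]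
    refine indep_of_indep_of_le_right (indep_of_indep_of_le_left (h.indep u v huv)
      (measurable_iff_comap_le.1 hX)) ?_
    have h1 : Measurable[MeasurableSpace.comap (fun ω => W v ω - W u ω) inferInstance] Y :=
      hg.comp (comap_measurable _)
    exact measurable_iff_comap_le.1 h1
  have hmul := hind.integral_mul_eq_mul_integral hXm.aestronglyMeasurable hYm.aestronglyMeasurable
  have hY : ∫ ω, Y ω ∂P = Real.exp (((v : ℝ) - u) * (q : ℝ) ^ 2 / 2) := inc_val h huv q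
  have huv' : (u : ℝ) ≤ v := by exact_mod_cast huv
  have e1 : ∫ ω in A, mm W v ω ^ q ∂P =
      (∫ ω, (X * Y) ω ∂P) * Real.exp (-(q * (((v : ℝ) - u) / 2))) := by
    rw [← integral_indicator hA', ← integral_mul_const]
    refine integral_congr_ae (Eventually.of_forall fun ω => ?_)
    show A.indicator (fun ω => mm W v ω ^ q) ω = X ω * Y ω * _
    by_cases hω : ω ∈ A
    · simp only [X, Y, indicator_of_mem hω]
      rw [mm_pow, mm_pow, mul_assoc, mul_assoc, ← Real.exp_add, ← Real.exp_add, ← Real.exp_add,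
        ← Real.exp_add]
      congr 1
      ring
    · simp only [X, Y, indicator_of_notMem hω, zero_mul]
  have e2 : ∫ ω in A, mm W u ω ^ q ∂P = ∫ ω, X ω ∂P := (integral_indicator hA').symm
  have hXn : 0 ≤ ∫ ω, X ω ∂P := integral_nonneg fun ω => indicator_nonneg (fun ω _ =>
    (pow_pos (mm_pos u ω) q).le) ω
  rw [e1, hmul, hY, mul_assoc, ← Real.exp_add, e2]
  have h3 : 1 ≤ Real.exp (((v : ℝ) - u) * (q : ℝ) ^ 2 / 2 + -(q * (((v : ℝ) - u) / 2))) := by
    rw [← Real.exp_zero]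
    apply Real.exp_le_exp.2
    have h4 : (q : ℝ) ≤ (q : ℝ) ^ 2 := by
      have : q ≤ q ^ 2 := Nat.le_self_pow two_ne_zero q
      exact_mod_cast this
    nlinarith
  nlinarith

lemma gp_mono (s t : ℝ≥0) (n : ℕ) : Monotone (gp s t n) := by
  intro i j hij
  unfold gp
  have : (i : ℝ≥0) ≤ j := by exact_mod_cast hij
  gcongr

/-- the filtration of the grid -/
noncomputable def Fd (F : Filtration ℝ≥0 mΩ) (T : ℝ≥0) (n : ℕ) : Filtration ℕ mΩ where
  seq := fun j => F (gp 0 T n j)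
  mono' := fun i j hij => F.mono (gp_mono 0 T n hij)
  le' := fun j => F.le _

lemma sub (h : BMF P F W) (T : ℝ≥0) (n q : ℕ) :
    Submartingale (fun j ω => mm W (gp 0 T n j) ω ^ q) (Fd F T n) P := by
  refine submartingale_of_setIntegral_le (fun j => ?_) (fun j => pow_int h _ q) (fun i j hij A hA => ?_)
  · exact ((h.mm_meas le_rfl).pow_const q).stronglyMeasurable
  · exact step h (gp_mono 0 T n hij) q A hA

lemma mx_exists (x : ℕ → ℝ) (n : ℕ) : ∃ j ≤ n, mx x n = x j := by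
  induction n with
  | zero => exact ⟨0, le_rfl, rfl⟩
  | succ n ih =>
    obtain ⟨j, hj, he⟩ := ih
    rcases le_total (mx x n) (x (n + 1)) with h1 | h1
    · exact ⟨n + 1, le_rfl, max_eq_right h1⟩
    · exact ⟨j, hj.trans (Nat.le_succ n), (max_eq_left h1).trans he⟩

lemma mx_meas (h : BMF P F W) (T : ℝ≥0) (n j : ℕ) :
    Measurable (fun ω => mx (fun j => pm W ω (gp 0 T n j)) j) := by
  induction j with
  | zero => exact (h.mm_meas le_rfl).mono (F.le _) le_rfl
  | succ j ih => exact ih.max ((h.mm_meas le_rfl).mono (F.le _) le_rfl)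

lemma mx_pos (T : ℝ≥0) (n j : ℕ) (ω : Ω) : 0 < mx (fun j => pm W ω (gp 0 T n j)) j := by
  obtain ⟨i, _, he⟩ := mx_exists (fun j => pm W ω (gp 0 T n j)) j
  rw [he]
  exact pm_pos _ _

/-- the tail of the maximum over the grid -/
lemma tail (h : BMF P F W) (hP : S_PTH) (T : ℝ≥0) (p n : ℕ) (hn : 1 ≤ n) (t : ℝ) (ht : 0 < t) :
    P {ω | t < mx (fun j => pm W ω (gp 0 T n j)) n ^ p} ≤
      ENNReal.ofReal ((∫ ω, mm W T ω ^ (2 * p) ∂P) * t ^ (-2 : ℝ)) := by
  obtain ⟨ε, hε⟩ : ∃ ε : ℝ≥0, (ε : ℝ) = t ^ 2 := ⟨⟨t ^ 2, by positivity⟩, rfl⟩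
  have hε0 : 0 < (ε : ℝ) := by rw [hε]; positivity
  have hmax := maximal_ineq (μ := P) (sub h T n (2 * p)) (fun j ω => (pow_pos (mm_pos _ ω) _).le)
    (ε := ε) n
  have hgn : gp 0 T n n = T := by
    unfold gp
    rw [tsub_zero, zero_add, mul_div_cancel₀]
    exact_mod_cast (by omega : n ≠ 0)
  have h1 : (ε : ℝ≥0∞) * P {ω | t < mx (fun j => pm W ω (gp 0 T n j)) n ^ p} ≤
      ENNReal.ofReal (∫ ω, mm W T ω ^ (2 * p) ∂P) := by
    refine le_trans ?_ (hmax.trans ?_)
    · refine mul_le_mul_right (measure_mono ?_) _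
      intro ω hω
      show (ε : ℝ) ≤ _
      obtain ⟨j, hj, he⟩ := mx_exists (fun j => pm W ω (gp 0 T n j)) n
      have h2 : t < pm W ω (gp 0 T n j) ^ p := by
        have := hω
        rw [mem_setOf_eq, he] at this
        exact this
      have h3 : (ε : ℝ) ≤ mm W (gp 0 T n j) ω ^ (2 * p) := by
        rw [hε, mul_comm, pow_mul]
        exact pow_le_pow_left₀ ht.le h2.le 2
      refine h3.trans ?_
      exact Finset.le_sup' (fun k => mm W (gp 0 T n k) ω ^ (2 * p)) (Finset.mem_range.2 (by omega))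
    · apply ENNReal.ofReal_le_ofReal
      rw [hgn]
      refine setIntegral_le_integral (pow_int h T _) (Eventually.of_forall fun ω => ?_)
      exact (pow_pos (mm_pos _ ω) _).le
  have hε1 : (ε : ℝ≥0∞) ≠ 0 := by
    have : ε ≠ 0 := by
      intro h0
      rw [h0] at hε0
      simp at hε0
    exact_mod_cast this
  have h2 : P {ω | t < mx (fun j => pm W ω (gp 0 T n j)) n ^ p} ≤
      ENNReal.ofReal (∫ ω, mm W T ω ^ (2 * p) ∂P) / ε := by
    rw [ENNReal.le_div_iff_mul_le (Or.inl hε1) (Or.inl ENNReal.coe_ne_top), mul_comm]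
    exact h1
  refine h2.trans (le_of_eq ?_)
  have hI : 0 ≤ ∫ ω, mm W T ω ^ (2 * p) ∂P := integral_nonneg fun ω => (pow_pos (mm_pos _ ω) _).le
  rw [ENNReal.ofReal_mul hI, div_eq_mul_inv]
  congr 1
  rw [Real.rpow_neg ht.le, Real.rpow_two, ENNReal.ofReal_inv_of_pos (by positivity), ← hε,
    ENNReal.ofReal_coe_nnreal]

/-- the moments of the maxima over the grids -/
lemma moment (h : BMF P F W) (hP : S_PTH) (T : ℝ≥0) (p : ℕ) : ∃ B : ℝ≥0∞, B < ∞ ∧ ∀ n : ℕ, 1 ≤ n →
    ∫⁻ ω, ENNReal.ofReal (mx (fun j => pm W ω (gp 0 T n j)) n ^ p) ∂P ≤ B := by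
  obtain ⟨C, hC⟩ : ∃ C : ℝ, C = ∫ ω, mm W T ω ^ (2 * p) ∂P := ⟨_, rfl⟩
  have hC0 : 0 ≤ C := by
    rw [hC]; exact integral_nonneg fun ω => (pow_pos (mm_pos _ ω) _).le
  refine ⟨1 + ∫⁻ t in Ioi (1 : ℝ), ENNReal.ofReal (C * t ^ (-2 : ℝ)), ?_, fun n hn => ?_⟩
  · refine ENNReal.add_lt_top.2 ⟨ENNReal.one_lt_top, ?_⟩
    have h1 : IntegrableOn (fun t : ℝ => C * t ^ (-2 : ℝ)) (Ioi 1) :=
      (integrableOn_Ioi_rpow_of_lt (by norm_num) one_pos).const_mul C
    exact h1.lintegral_lt_top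
  · rw [lintegral_eq_lintegral_meas_lt P (Eventually.of_forall fun ω => (pow_pos (mx_pos T n n ω) p).le)
      ((mx_meas h T n n).pow_const p).aemeasurable]
    have h1 : Ioi (0 : ℝ) = Ioc 0 1 ∪ Ioi 1 := (Ioc_union_Ioi_eq_Ioi zero_le_one).symm
    rw [h1]
    refine (lintegral_union_le _ _ _).trans (add_le_add ?_ ?_)
    · calc ∫⁻ t in Ioc (0 : ℝ) 1, P {ω | t < mx (fun j => pm W ω (gp 0 T n j)) n ^ p}
          ≤ ∫⁻ t in Ioc (0 : ℝ) 1, 1 := lintegral_mono fun t => prob_le_one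
        _ = 1 := by
            rw [setLIntegral_one, Real.volume_Ioc]
            norm_num
    · refine setLIntegral_mono' measurableSet_Ioi fun t ht => ?_
      rw [hC]
      exact tail h hP T p n hn t (lt_trans one_pos ht)

end SUPM

open SUPM in
theorem t_SUPM : S_SUPM := by
  intro hP Ω mΩ P _ F W h T p
  obtain ⟨B, hB, hBn⟩ := moment h hP T p
  have hlim : ∀ ω, Tendsto (fun n : ℕ => mx (fun j => pm W ω (gp 0 T n j)) n) atTop
      (𝓝 (ssup (pm W ω) 0 T)) := fun ω => (hP (pm W ω) (h.pm_cont ω) 0 T (zero_le (a := T))).2.1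
  have hSm : Measurable (fun ω => ssup (pm W ω) 0 T) :=
    measurable_of_tendsto_metrizable (fun n => mx_meas h T n n) (tendsto_pi_nhds.2 hlim)
  have hS0 : ∀ ω, 0 < ssup (pm W ω) 0 T := fun ω => ssup_pos h (zero_le (a := T)) ω
  -- the power of the supremum
  have hfat : ∫⁻ ω, ENNReal.ofReal (ssup (pm W ω) 0 T ^ p) ∂P ≤ B := by
    have h1 : ∀ ω, ENNReal.ofReal (ssup (pm W ω) 0 T ^ p) =
        liminf (fun n : ℕ => ENNReal.ofReal (mx (fun j => pm W ω (gp 0 T (n + 1) j)) (n + 1) ^ p)) atTop := by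
      intro ω
      have h2 := ((tendsto_add_atTop_iff_nat 1).2 (hlim ω)).pow p
      exact ((ENNReal.continuous_ofReal.tendsto _).comp h2).liminf_eq.symm
    simp_rw [h1]
    refine (lintegral_liminf_le fun n => ((mx_meas h T (n + 1) (n + 1)).pow_const p).ennreal_ofReal).trans ?_
    refine (liminf_le_liminf (Eventually.of_forall fun n => hBn (n + 1) (by omega))).trans ?_
    simp
  have hint : Integrable (fun ω => ssup (pm W ω) 0 T ^ p) P := by
    refine ⟨(hSm.pow_const p).aestronglyMeasurable, ?_⟩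
    rw [hasFiniteIntegral_iff_norm]
    refine lt_of_le_of_lt (le_of_eq ?_) (hfat.trans_lt hB)
    refine lintegral_congr fun ω => ?_
    rw [Real.norm_of_nonneg (pow_pos (hS0 ω) p).le]
  refine Integrable.mono' (((integrable_const (1 : ℝ)).add hint).const_mul (2 ^ p))
    ((measurable_const.add hSm).pow_const p).aestronglyMeasurable (Eventually.of_forall fun ω => ?_)
  have h0 := hS0 ω
  rw [Real.norm_of_nonneg (by positivity)]
  show (1 + ssup (pm W ω) 0 T) ^ p ≤ 2 ^ p * (1 + ssup (pm W ω) 0 T ^ p)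
  have h1 : (1 + ssup (pm W ω) 0 T) ^ p ≤ (2 * max 1 (ssup (pm W ω) 0 T)) ^ p := by
    apply pow_le_pow_left₀ (by positivity)
    have := le_max_left 1 (ssup (pm W ω) 0 T)
    have := le_max_right 1 (ssup (pm W ω) 0 T)
    linarith
  rw [mul_pow] at h1
  refine h1.trans (mul_le_mul_of_nonneg_left ?_ (by positivity))
  rcases le_total 1 (ssup (pm W ω) 0 T) with h2 | h2
  · rw [max_eq_right h2]
    linarith
  · rw [max_eq_left h2, one_pow]
    have := pow_pos h0 p
    linarith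

end Pool.Agent.T2h33.RG
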