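import Pool.Agent.T2h33.RG.Basic

/-! Project RG, task TEL (helper33) -/

set_option autoImplicit false
set_option linter.all false

open MeasureTheory ProbabilityTheory Filter Topology Set
open scoped NNReal ENNReal

namespace Pool.Agent.T2h33.RG

namespace TEL

lemma le_mx (x : ℕ → ℝ) (j : ℕ) : x j ≤ mx x j := by
  cases j with
  | zero => exact le_rfl
  | succ j => exact le_max_right _ _

lemma mx_succ (x : ℕ → ℝ) (j : ℕ) : mx x j ≤ mx x (j + 1) := le_max_left _ _

lemma mx_mono (x : ℕ → ℝ) : Monotone (mx x) := monotone_nat_of_le_succ (mx_succ x)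

lemma osc_succ (x : ℕ → ℝ) (j : ℕ) : osc x j ≤ osc x (j + 1) := le_max_left _ _

lemma osc_mono (x : ℕ → ℝ) : Monotone (osc x) := monotone_nat_of_le_succ (osc_succ x)

lemma osc_nonneg (x : ℕ → ℝ) (j : ℕ) : 0 ≤ osc x j := osc_mono x (Nat.zero_le j)

lemma inc_le (x : ℕ → ℝ) (j : ℕ) : |x (j + 1) - x j| ≤ osc x (j + 1) := le_max_right _ _

lemma er0_nonneg (X : ℝ) (x : ℕ → ℝ) (j : ℕ) : 0 ≤ er0 X x j := by
  unfold er0
  split_ifs
  · exact le_max_right _ _
  · exact le_rfl

/-- part one -/
lemma one {x : ℕ → ℝ} {X : ℝ} (hX : 0 < X) (n : ℕ) :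
    ∑ j ∈ Finset.range n, er0 X x j ≤ if mx x n ≤ X then 0 else osc x n / X := by
  induction n with
  | zero =>
    simp only [Finset.range_zero, Finset.sum_empty]
    split_ifs
    · exact le_rfl
    · exact div_nonneg (osc_nonneg x 0) hX.le
  | succ n ih =>
    rw [Finset.sum_range_succ]
    by_cases h1 : mx x n ≤ X
    · rw [if_pos h1] at ih
      have e : er0 X x n = max (x (n + 1) / X - 1) 0 := by unfold er0; rw [if_pos h1]
      by_cases h2 : mx x (n + 1) ≤ X
      · rw [if_pos h2]
        have h3 : x (n + 1) ≤ X := (le_mx x (n + 1)).trans h2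
        have h4 : x (n + 1) / X - 1 ≤ 0 := by
          rw [sub_nonpos, div_le_one hX]
          exact h3
        rw [e, max_eq_right h4, add_zero]
        exact ih
      · rw [if_neg h2]
        have h3 : X < x (n + 1) := by
          by_contra h
          rw [not_lt] at h
          exact h2 (max_le h1 h)
        have h4 : 0 ≤ x (n + 1) / X - 1 := by
          rw [sub_nonneg, le_div_iff₀ hX, one_mul]
          exact h3.le
        rw [e, max_eq_left h4]
        have h5 : x (n + 1) / X - 1 = (x (n + 1) - X) / X := by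
          field_simp
        have h6 : x (n + 1) - X ≤ osc x (n + 1) := by
          have := (le_abs_self _).trans (inc_le x n)
          have := (le_mx x n).trans h1
          linarith
        rw [h5]
        have h7 : (x (n + 1) - X) / X ≤ osc x (n + 1) / X := div_le_div_of_nonneg_right h6 hX.le
        linarith
    · rw [if_neg h1] at ih
      have h2 : ¬ mx x (n + 1) ≤ X := fun h => h1 ((mx_succ x n).trans h)
      rw [if_neg h2]
      have e : er0 X x n = 0 := by unfold er0; rw [if_neg h1]
      rw [e, add_zero]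
      exact ih.trans (div_le_div_of_nonneg_right (osc_succ x n) hX.le)

lemma phi_le {r : ℝ} (hr : 1 ≤ r) : 0 ≤ r * Real.log r - (r - 1) ∧ r * Real.log r - (r - 1) ≤ (r - 1) ^ 2 := by
  have h0 : 0 < r := by linarith
  constructor
  · have h1 : Real.log r⁻¹ ≤ r⁻¹ - 1 := Real.log_le_sub_one_of_pos (inv_pos.2 h0)
    rw [Real.log_inv] at h1
    have h2 := mul_le_mul_of_nonneg_left h1 h0.le
    rw [mul_sub, mul_inv_cancel₀ h0.ne'] at h2
    linarith
  · have h1 : Real.log r ≤ r - 1 := Real.log_le_sub_one_of_pos h0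
    have h2 := mul_le_mul_of_nonneg_left h1 h0.le
    nlinarith

theorem two {x : ℕ → ℝ} (hx : ∀ j, 0 < x j) {κ Δ : ℝ} (hκ : 0 < κ) (hΔ : 0 ≤ Δ) (n : ℕ) :
    ∀ j < n, |psi κ Δ x (j + 1) - psi κ Δ x j - al κ Δ x j| ≤
      2 / κ * (osc x n * (mx x (j + 1) - mx x j)) + (Real.exp Δ - 1 - Δ) * mx x n ^ 2 / κ +
        (2 + n * Δ) * mx x n * er0 κ x j := by
  intro j hj
  have hmx0 : ∀ i, 0 < mx x i := fun i => (hx i).trans_le (le_mx x i)
  have hE : 0 ≤ Real.exp Δ - 1 - Δ := by
    have := Real.add_one_le_exp Δ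
    linarith
  have t1 : 0 ≤ 2 / κ * (osc x n * (mx x (j + 1) - mx x j)) :=
    mul_nonneg (by positivity) (mul_nonneg (osc_nonneg x n) (sub_nonneg.2 (mx_succ x j)))
  have t2 : 0 ≤ (Real.exp Δ - 1 - Δ) * mx x n ^ 2 / κ := by positivity
  have t3 : 0 ≤ (2 + n * Δ) * mx x n * er0 κ x j :=
    mul_nonneg (mul_nonneg (by positivity) (hmx0 n).le) (er0_nonneg _ _ _)
  by_cases h1 : κ < mx x j
  · have h2 : κ < mx x (j + 1) := h1.trans_le (mx_succ x j)
    have e : psi κ Δ x (j + 1) - psi κ Δ x j - al κ Δ x j =
        2 * ((mx x (j + 1) - mx x j) - x (j + 1) * (Real.log (mx x (j + 1)) - Real.log (mx x j))) := by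
      unfold psi al
      rw [if_pos h2, if_pos h1, if_pos h1]
      have e1 : sm x Δ (j + 1) = sm x Δ j + Δ * x j := by
        unfold sm
        rw [Finset.sum_range_succ, mul_add]
      rw [e1]
      ring
    rw [e]
    have key : |2 * ((mx x (j + 1) - mx x j) -
        x (j + 1) * (Real.log (mx x (j + 1)) - Real.log (mx x j)))| ≤
        2 / κ * (osc x n * (mx x (j + 1) - mx x j)) := by
      rcases le_total (x (j + 1)) (mx x j) with h3 | h3
      · have e2 : mx x (j + 1) = mx x j := max_eq_left h3
        rw [e2]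
        simp
      · have e2 : mx x (j + 1) = x (j + 1) := max_eq_right h3
        rw [e2]
        set a := mx x j with ha
        have ha0 : 0 < a := hmx0 j
        set r := x (j + 1) / a with hr
        have hr1 : 1 ≤ r := by
          rw [hr, le_div_iff₀ ha0, one_mul]
          exact h3
        have er : x (j + 1) = a * r := by rw [hr]; field_simp
        have hr0 : 0 < r := by linarith
        have el : Real.log (x (j + 1)) - Real.log a = Real.log r := by
          rw [er, Real.log_mul ha0.ne' hr0.ne']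
          ring
        rw [el]
        have e3 : 2 * ((x (j + 1) - a) - x (j + 1) * Real.log r) =
            -(2 * a * (r * Real.log r - (r - 1))) := by
          rw [er]
          ring
        rw [e3, abs_neg, abs_of_nonneg (by
          have := (phi_le hr1).1
          positivity)]
        have h4 := (phi_le hr1).2
        have h5 : x (j + 1) - a ≤ osc x n := by
          have h6 := (le_abs_self _).trans (inc_le x j)
          have h7 := le_mx x j
          have h8 := osc_mono x (Nat.succ_le_of_lt hj)
          have : osc x (j + 1) ≤ osc x n := h8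
          linarith
        have h6 : 0 ≤ x (j + 1) - a := by linarith
        calc 2 * a * (r * Real.log r - (r - 1)) ≤ 2 * a * (r - 1) ^ 2 :=
              mul_le_mul_of_nonneg_left h4 (by positivity)
          _ = 2 / a * ((x (j + 1) - a) * (x (j + 1) - a)) := by
              rw [er]
              field_simp
          _ ≤ 2 / κ * ((x (j + 1) - a) * (x (j + 1) - a)) := by
              refine mul_le_mul_of_nonneg_right ?_ (mul_nonneg h6 h6)
              exact div_le_div_of_nonneg_left (by norm_num) hκ h1.le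
          _ ≤ 2 / κ * (osc x n * (x (j + 1) - a)) := by
              refine mul_le_mul_of_nonneg_left ?_ (by positivity)
              exact mul_le_mul_of_nonneg_right h5 h6
    linarith
  · have e1 : sm x Δ (j + 1) = sm x Δ j + Δ * x j := by
      unfold sm
      rw [Finset.sum_range_succ, mul_add]
    have e : psi κ Δ x (j + 1) - psi κ Δ x j - al κ Δ x j =
        x j ^ 2 * (Real.exp Δ - 1 - Δ) / κ -
          (x (j + 1) - x 0 - sm x Δ (j + 1)) * er0 κ x j := by
      have e0 : er0 κ x j = max (x (j + 1) / κ - 1) 0 := by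
        unfold er0
        rw [if_pos (not_lt.1 h1)]
      rw [e0]
      unfold psi al
      rw [if_neg h1, if_neg h1]
      by_cases h2 : κ < mx x (j + 1)
      · rw [if_pos h2]
        have h3 : mx x (j + 1) = x (j + 1) := by
          apply max_eq_right
          by_contra h
          rw [not_le] at h
          have h4 : mx x (j + 1) = mx x j := max_eq_left h.le
          rw [h4] at h2
          exact h1 h2
        rw [h3] at h2 ⊢
        have h4 : 0 ≤ x (j + 1) / κ - 1 := by
          rw [sub_nonneg, le_div_iff₀ hκ, one_mul]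
          exact h2.le
        rw [max_eq_left h4]
        field_simp
        ring
      · rw [if_neg h2]
        have h3 : x (j + 1) ≤ κ := (le_mx x (j + 1)).trans (not_lt.1 h2)
        have h4 : x (j + 1) / κ - 1 ≤ 0 := by
          rw [sub_nonpos, div_le_one hκ]
          exact h3
        rw [max_eq_right h4]
        field_simp
        ring
    rw [e]
    have hjn : j + 1 ≤ n := hj
    have hle : ∀ i ≤ n, x i ≤ mx x n := fun i hi => (le_mx x i).trans (mx_mono x hi)
    have h5 : 0 ≤ sm x Δ (j + 1) ∧ sm x Δ (j + 1) ≤ n * Δ * mx x n := by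
      unfold sm
      constructor
      · exact mul_nonneg hΔ (Finset.sum_nonneg fun i _ => (hx i).le)
      · have h6 : ∑ i ∈ Finset.range (j + 1), x i ≤ n * mx x n := by
          calc ∑ i ∈ Finset.range (j + 1), x i ≤ ∑ i ∈ Finset.range (j + 1), mx x n :=
                Finset.sum_le_sum fun i hi => hle i (by
                  have := Finset.mem_range.1 hi
                  omega)
            _ = ((j + 1 : ℕ) : ℝ) * mx x n := by rw [Finset.sum_const, Finset.card_range, nsmul_eq_mul]
            _ ≤ n * mx x n := mul_le_mul_of_nonneg_right (by exact_mod_cast hjn) (hmx0 n).le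
        calc Δ * ∑ i ∈ Finset.range (j + 1), x i ≤ Δ * (n * mx x n) :=
              mul_le_mul_of_nonneg_left h6 hΔ
          _ = _ := by ring
    have h6 : |x (j + 1) - x 0 - sm x Δ (j + 1)| ≤ (2 + n * Δ) * mx x n := by
      have a1 := hle (j + 1) hjn
      have a2 := hle 0 (Nat.zero_le n)
      have a3 := hx (j + 1)
      have a4 := hx 0
      have a5 := hmx0 n
      rw [abs_le]
      constructor <;> nlinarith [h5.1, h5.2]
    have h7 : x j ^ 2 * (Real.exp Δ - 1 - Δ) / κ ≤ (Real.exp Δ - 1 - Δ) * mx x n ^ 2 / κ := by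
      refine div_le_div_of_nonneg_right ?_ hκ.le
      rw [mul_comm]
      refine mul_le_mul_of_nonneg_left ?_ hE
      exact pow_le_pow_left₀ (hx j).le (hle j hj.le) 2
    have h8 : 0 ≤ x j ^ 2 * (Real.exp Δ - 1 - Δ) / κ := by positivity
    calc |x j ^ 2 * (Real.exp Δ - 1 - Δ) / κ -
          (x (j + 1) - x 0 - sm x Δ (j + 1)) * er0 κ x j| ≤
        |x j ^ 2 * (Real.exp Δ - 1 - Δ) / κ| +
          |(x (j + 1) - x 0 - sm x Δ (j + 1)) * er0 κ x j| := abs_sub _ _
      _ ≤ (Real.exp Δ - 1 - Δ) * mx x n ^ 2 / κ + (2 + n * Δ) * mx x n * er0 κ x j := by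
        rw [abs_of_nonneg h8, abs_mul, abs_of_nonneg (er0_nonneg κ x j)]
        exact add_le_add h7 (mul_le_mul_of_nonneg_right h6 (er0_nonneg κ x j))
      _ ≤ _ := by linarith

end TEL

open TEL in
theorem t_TEL : S_TEL := by
  intro x hx
  have hone : ∀ (X : ℝ), 0 < X → ∀ n, ∑ j ∈ Finset.range n, er0 X x j ≤ osc x n / X := by
    intro X hX n
    refine (one hX n).trans ?_
    split_ifs
    · exact div_nonneg (osc_nonneg x n) hX.le
    · exact le_rfl
  refine ⟨hone, fun κ Δ hκ hΔ n => ?_⟩
  have hmx0 : ∀ i, 0 < mx x i := fun i => (hx i).trans_le (le_mx x i)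
  have h1 := Finset.sum_le_sum (s := Finset.range n) fun j hj => two hx hκ hΔ n j (Finset.mem_range.1 hj)
  refine h1.trans ?_
  rw [Finset.sum_add_distrib, Finset.sum_add_distrib, Finset.sum_const, Finset.card_range,
    nsmul_eq_mul, ← Finset.mul_sum, ← Finset.mul_sum, ← Finset.mul_sum, Finset.sum_range_sub]
  have h2 : osc x n * (mx x n - mx x 0) ≤ osc x n * mx x n :=
    mul_le_mul_of_nonneg_left (by have := hmx0 0; linarith) (osc_nonneg x n)
  have h3 : 2 / κ * (osc x n * (mx x n - mx x 0)) ≤ 2 / κ * (osc x n * mx x n) :=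
    mul_le_mul_of_nonneg_left h2 (by positivity)
  have h4 : (2 + n * Δ) * mx x n * ∑ j ∈ Finset.range n, er0 κ x j ≤
      (2 + n * Δ) * mx x n * (osc x n / κ) :=
    mul_le_mul_of_nonneg_left (hone κ hκ n) (mul_nonneg (by positivity) (hmx0 n).le)
  have h5 : (n : ℝ) * ((Real.exp Δ - 1 - Δ) * mx x n ^ 2 / κ) =
      n * (Real.exp Δ - 1 - Δ) * mx x n ^ 2 / κ := by ring
  have h6 : (2 + n * Δ) * mx x n * (osc x n / κ) = (2 + n * Δ) * mx x n * osc x n / κ := by ring
  rw [h6] at h4
  rw [h5]
  linarith

end Pool.Agent.T2h33.RG
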