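import Pool.Agent.T2h33.RG.StmU
import Pool.Agent.Helper41.SK.SB07

/-! Project RG, task UNI (helper33): uniqueness of the decomposition, from the uniqueness theorem of
project SK (`Helper41/SK`, proved for filtrations indexed by real times) -/

set_option autoImplicit false
set_option linter.all false

open MeasureTheory ProbabilityTheory Filter Topology Set
open scoped NNReal ENNReal

namespace Pool.Agent.T2h33.RG

namespace UNI

open Pool.Agent.Helper41.SK (IsFilt IsCA IsMart IsStop IsLocMart IsIncr locmart_lin nlem_all)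

variable {Ω : Type} {mΩ : MeasurableSpace Ω} {P : Measure Ω}

/-- the filtration indexed by real times -/
@[reducible] def FR (G : Filtration ℝ≥0 mΩ) (t : ℝ) : MeasurableSpace Ω := G t.toNNReal

/-- the process indexed by real times -/
def PR (N : ℝ≥0 → Ω → ℝ) (t : ℝ) (ω : Ω) : ℝ := N t.toNNReal ω

lemma filt {G : Filtration ℝ≥0 mΩ} (hG : ∀ B : Set Ω, P B = 0 → MeasurableSet[G 0] B) :
    IsFilt P (FR G) where
  le t _ := G.le _
  mono s t _ h := G.mono (Real.toNNReal_le_toNNReal h)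
  null A hA := by
    have := hG A hA
    unfold FR
    rwa [Real.toNNReal_zero]

lemma ca {G : Filtration ℝ≥0 mΩ} {N : ℝ≥0 → Ω → ℝ} (h1 : ∀ t, Measurable[G t] (N t))
    (h2 : ∀ ω, Continuous fun t => N t ω) : IsCA (FR G) (PR N) where
  adap t _ := h1 _
  cont ω := ((h2 ω).comp continuous_real_toNNReal).continuousOn

lemma incr {G : Filtration ℝ≥0 mΩ} {N : ℝ≥0 → Ω → ℝ} (h1 : ∀ t, Measurable[G t] (N t))
    (h2 : ∀ ω, Continuous fun t => N t ω) (h3 : ∀ ω, Monotone fun t => N t ω)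
    (h4 : ∀ ω, N 0 ω = 0) : IsIncr (FR G) (PR N) where
  ca := ca h1 h2
  zero ω := by unfold PR; rw [Real.toNNReal_zero]; exact h4 ω
  mono ω s t _ h := h3 ω (Real.toNNReal_le_toNNReal h)

/-- the finite stopping time -/
noncomputable def rr (τ : Ω → WithTop ℝ≥0) (n : ℕ) (ω : Ω) : ℝ≥0 :=
  (min (((n : ℝ≥0)) : WithTop ℝ≥0) (τ ω)).untopA

lemma rr_coe (τ : Ω → WithTop ℝ≥0) (n : ℕ) (ω : Ω) :
    ((rr τ n ω : ℝ≥0) : WithTop ℝ≥0) = min ((n : ℝ≥0) : WithTop ℝ≥0) (τ ω) := by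
  unfold rr
  rw [WithTop.untopA_eq_untop (ne_top_of_le_ne_top WithTop.coe_ne_top (min_le_left _ _))]
  exact WithTop.coe_untop _ _

lemma stopped (N : ℝ≥0 → Ω → ℝ) (τ : Ω → WithTop ℝ≥0) (n : ℕ) (t : ℝ≥0) (ω : Ω) :
    stoppedProcess N τ (min t n) ω = N (min t (rr τ n ω)) ω := by
  unfold stoppedProcess
  congr 1
  have h : min ((min t (n : ℝ≥0) : ℝ≥0) : WithTop ℝ≥0) (τ ω) = ((min t (rr τ n ω) : ℝ≥0) : WithTop ℝ≥0) := by
    rw [WithTop.coe_min, WithTop.coe_min, rr_coe, min_assoc]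
  rw [h]
  exact WithTop.untopD_coe _ _

lemma conv {G : Filtration ℝ≥0 mΩ} [IsProbabilityMeasure P] {N : ℝ≥0 → Ω → ℝ} (h : CLM P G N) :
    IsLocMart P (FR G) (PR N) := by
  obtain ⟨τ, hτ, hM⟩ := h.loc
  have hstop : ∀ n, IsStop (FR G) (fun ω => (rr (τ n) n ω : ℝ)) := by
    intro n
    refine ⟨fun ω => NNReal.coe_nonneg _, fun t ht => ?_⟩
    have e : {ω | (rr (τ n) n ω : ℝ) ≤ t} =
        {ω | min ((n : ℝ≥0) : WithTop ℝ≥0) (τ n ω) ≤ (t.toNNReal : WithTop ℝ≥0)} := by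
      ext ω
      simp only [mem_setOf_eq]
      rw [← rr_coe, WithTop.coe_le_coe, ← NNReal.coe_le_coe, Real.coe_toNNReal t ht]
    rw [e]
    exact ((isStoppingTime_const G (n : ℝ≥0)).min (hτ.isStoppingTime n)) t.toNNReal
  refine ⟨ca h.adapted h.cont, fun n ω => (rr (τ n) n ω : ℝ), hstop, ?_, ?_, fun n => ?_⟩
  · filter_upwards [hτ.mono] with ω hω n
    rw [NNReal.coe_le_coe, ← WithTop.coe_le_coe, rr_coe, rr_coe]
    refine min_le_min ?_ (hω (Nat.le_succ n))
    rw [WithTop.coe_le_coe]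
    exact_mod_cast Nat.le_succ n
  · filter_upwards [hτ.tendsto_top] with ω hω
    rw [tendsto_atTop]
    intro c
    have h1 : ∀ᶠ n in atTop, (c.toNNReal : WithTop ℝ≥0) < τ n ω :=
      hω.eventually (lt_mem_nhds (WithTop.coe_lt_top _))
    have h2 : ∀ᶠ n : ℕ in atTop, c.toNNReal ≤ (n : ℝ≥0) :=
      tendsto_natCast_atTop_atTop.eventually (eventually_ge_atTop _)
    filter_upwards [h1, h2] with n h1 h2
    have h3 : c.toNNReal ≤ rr (τ n) n ω := by
      rw [← WithTop.coe_le_coe, rr_coe]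
      exact le_min (WithTop.coe_le_coe.2 h2) h1.le
    exact (Real.le_coe_toNNReal c).trans (by exact_mod_cast h3)
  · have hY := hM n
    have e : ∀ t : ℝ, (fun ω => PR N (min t (rr (τ n) n ω : ℝ)) ω - PR N 0 ω) =
        fun ω => stoppedProcess N (τ n) (min t.toNNReal n) ω - N 0 ω := by
      intro t
      funext ω
      rw [stopped]
      unfold PR
      rw [Real.toNNReal_zero]
      have : (min t (rr (τ n) n ω : ℝ)).toNNReal = min t.toNNReal (rr (τ n) n ω) := by
        have hmono : Monotone Real.toNNReal := fun a b hab => Real.toNNReal_le_toNNReal hab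
        rw [hmono.map_min, Real.toNNReal_coe]
      rw [this]
    refine ⟨fun t ht => ?_, fun t ht => ?_, fun s t hs hst A hA => ?_⟩
    · have h1 := (hY.1 (min t.toNNReal n)).measurable
      have h2 : Measurable[G t.toNNReal] (fun ω => stoppedProcess N (τ n) (min t.toNNReal n) ω - N 0 ω) :=
        h1.mono (G.mono (min_le_left _ _)) le_rfl
      have h3 := e t
      show Measurable[FR G t] (fun ω => PR N (min t (rr (τ n) n ω : ℝ)) ω - PR N 0 ω)
      rw [h3]
      exact h2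
    · show Integrable (fun ω => PR N (min t (rr (τ n) n ω : ℝ)) ω - PR N 0 ω) P
      rw [e t]
      exact hY.integrable _
    · show ∫ ω in A, (fun ω => PR N (min t (rr (τ n) n ω : ℝ)) ω - PR N 0 ω) ω ∂P =
        ∫ ω in A, (fun ω => PR N (min s (rr (τ n) n ω : ℝ)) ω - PR N 0 ω) ω ∂P
      rw [e t, e s]
      have hst' := Real.toNNReal_le_toNNReal hst
      rcases le_total s.toNNReal (n : ℝ≥0) with h1 | h1
      · rw [min_eq_left h1]
        exact (hY.setIntegral_eq (le_min hst' h1) hA).symm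
      · rw [min_eq_right h1, min_eq_right (h1.trans hst')]

end UNI

open Pool.Agent.Helper41.SK (IsFilt IsCA IsMart IsStop IsLocMart IsIncr locmart_lin nlem_all) in
theorem t_UNI : S_UNI := by
  intro hV Ω mΩ P _ G hG X N A N' A' h h'
  obtain ⟨A₁, A₂, a1, a2, a3, a4, a5, a6, a7, a8⟩ := hV Ω mΩ G A h.adapted h.cont h.fvar h.zero
  obtain ⟨B₁, B₂, b1, b2, b3, b4, b5, b6, b7, b8⟩ := hV Ω mΩ G A' h'.adapted h'.cont h'.fvar h'.zero
  have hF := UNI.filt (P := P) hG
  have i1 : IsIncr (UNI.FR G) (UNI.PR fun t ω => A₁ t ω + B₂ t ω) :=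
    UNI.incr (fun t => (a1 t).add (b2 t)) (fun ω => (a3 ω).add (b4 ω))
      (fun ω => (a5 ω).add (b6 ω)) (fun ω => by rw [(a7 ω).1, (b7 ω).2, add_zero])
  have i2 : IsIncr (UNI.FR G) (UNI.PR fun t ω => A₂ t ω + B₁ t ω) :=
    UNI.incr (fun t => (a2 t).add (b1 t)) (fun ω => (a4 ω).add (b3 ω))
      (fun ω => (a6 ω).add (b5 ω)) (fun ω => by rw [(a7 ω).2, (b7 ω).1, add_zero])
  have hL := locmart_lin hF _ _ (UNI.conv h.mart) (UNI.conv h'.mart) 1 (-1)
  have key := nlem_all hF _ _ _ _ hL i1 i2 i1 (fun _ => 0) (Eventually.of_forall fun ω t ht => by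
    unfold UNI.PR
    have e1 := h.eq t.toNNReal ω
    have e2 := h'.eq t.toNNReal ω
    have e3 := a8 t.toNNReal ω
    have e4 := b8 t.toNNReal ω
    linarith)
  filter_upwards [key] with ω hω t
  have h1 := hω (t : ℝ) t.2
  simp only [UNI.PR, Real.toNNReal_coe, Real.toNNReal_zero] at h1
  have e1 := h.eq t ω
  have e2 := h'.eq t ω
  have e3 := h.eq 0 ω
  have e4 := h'.eq 0 ω
  have e5 := h.zero ω
  have e6 := h'.zero ω
  linarith

end Pool.Agent.T2h33.RG
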