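import Pool.Agent.T2h33.RG.StmU

/-! Project RG, task UVAR (helper85) -/

set_option autoImplicit false

open MeasureTheory ProbabilityTheory Filter Topology Set
open scoped NNReal ENNReal

namespace Pool.Agent.T2h33.RG

namespace UVAR

/-- the grid -/
private noncomputable def gr (t : ℝ≥0) (n j : ℕ) : ℝ≥0 := min t ((j : ℝ≥0) / ((n : ℝ≥0) + 1))

private theorem gr_mono (t : ℝ≥0) (n : ℕ) : Monotone (gr t n) := by
  intro i j hij
  unfold gr
  have h : (i : ℝ≥0) ≤ (j : ℝ≥0) := by exact_mod_cast hij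
  exact min_le_min le_rfl (by gcongr)

private theorem gr_le (t : ℝ≥0) (n j : ℕ) : gr t n j ≤ t := min_le_left _ _

/-- rounding down -/
private noncomputable def ro (t : ℝ≥0) (n : ℕ) (x : ℝ≥0) : ℝ≥0 :=
  gr t n ⌊((n : ℝ≥0) + 1) * x⌋₊

private theorem ro_mono (t : ℝ≥0) (n : ℕ) : Monotone (ro t n) := by
  intro x y hxy
  unfold ro
  exact gr_mono t n (Nat.floor_mono (by gcongr))

private theorem ro_tendsto {t x : ℝ≥0} (hx : x ≤ t) :
    Tendsto (fun n : ℕ => ro t n x) atTop (𝓝 x) := by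
  have h1 : ∀ n : ℕ, (ro t n x : ℝ) = (⌊((n : ℝ≥0) + 1) * x⌋₊ : ℝ) / ((n : ℝ) + 1) := by
    intro n
    unfold ro gr
    have h2 : ((⌊((n : ℝ≥0) + 1) * x⌋₊ : ℕ) : ℝ≥0) / ((n : ℝ≥0) + 1) ≤ t := by
      rw [div_le_iff₀ (by positivity)]
      refine (Nat.floor_le (zero_le)).trans ?_
      rw [mul_comm]
      gcongr
    rw [min_eq_right h2]
    push_cast
    rfl
  rw [← NNReal.tendsto_coe]
  simp only [h1]
  have h3 : Tendsto (fun n : ℕ => (x : ℝ) - 1 / ((n : ℝ) + 1)) atTop (𝓝 ((x : ℝ) - 0)) :=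
    tendsto_const_nhds.sub tendsto_one_div_add_atTop_nhds_zero_nat
  rw [sub_zero] at h3
  refine tendsto_of_tendsto_of_tendsto_of_le_of_le h3 tendsto_const_nhds (fun n => ?_) fun n => ?_
  · have hn : (0 : ℝ) < (n : ℝ) + 1 := by positivity
    have h4 : ((n : ℝ≥0) + 1) * x < (⌊((n : ℝ≥0) + 1) * x⌋₊ : ℝ≥0) + 1 :=
      Nat.lt_floor_add_one _
    have h5 : ((n : ℝ) + 1) * x < (⌊((n : ℝ≥0) + 1) * x⌋₊ : ℝ) + 1 := by exact_mod_cast h4
    rw [sub_le_iff_le_add, ← add_div, le_div_iff₀ hn]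
    linarith
  · have hn : (0 : ℝ) < (n : ℝ) + 1 := by positivity
    have h4 : (⌊((n : ℝ≥0) + 1) * x⌋₊ : ℝ≥0) ≤ ((n : ℝ≥0) + 1) * x := Nat.floor_le (zero_le)
    have h5 : (⌊((n : ℝ≥0) + 1) * x⌋₊ : ℝ) ≤ ((n : ℝ) + 1) * x := by exact_mod_cast h4
    simp only
    rw [div_le_iff₀ hn]
    linarith

private theorem ev_eq {f : ℝ≥0 → ℝ} (hf : Continuous f) (t : ℝ≥0) :
    eVariationOn f (Icc 0 t) = ⨆ n : ℕ, ∑ i ∈ Finset.range ⌊((n : ℝ≥0) + 1) * t⌋₊,
      edist (f (gr t n i)) (f (gr t n (i + 1))) := by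
  apply le_antisymm
  · refine le_of_forall_lt fun v hv => ?_
    have h1 : ∀ᶠ n : ℕ in atTop, v < eVariationOn (f ∘ ro t n) (Icc 0 t) := by
      refine eVariationOn.lowerSemicontinuous_aux (fun x hx => ?_) hv
      exact (hf.tendsto x).comp (ro_tendsto hx.2)
    obtain ⟨n, hn⟩ := h1.exists
    refine hn.trans_le (le_trans ?_ (le_iSup _ n))
    rw [← eVariationOn.image_range_of_monotone f (gr_mono t n)]
    refine eVariationOn.comp_le_of_monotoneOn f (ro t n) ((ro_mono t n).monotoneOn _) ?_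
    intro x hx
    refine ⟨⌊((n : ℝ≥0) + 1) * x⌋₊, ?_, rfl⟩
    rw [mem_Iic]
    apply Nat.floor_mono
    have := hx.2
    gcongr
  · refine iSup_le fun n => ?_
    rw [← eVariationOn.image_range_of_monotone f (gr_mono t n)]
    apply eVariationOn.mono
    rintro _ ⟨j, _, rfl⟩
    exact ⟨zero_le, gr_le t n j⟩

private theorem meas {Ω : Type} [MeasurableSpace Ω] (A : ℝ≥0 → Ω → ℝ) (t : ℝ≥0)
    (hA : ∀ u ≤ t, Measurable (A u)) (hc : ∀ ω, Continuous fun t => A t ω) :
    Measurable fun ω => (eVariationOn (fun u => A u ω) (Icc 0 t)).toReal := by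
  apply Measurable.ennreal_toReal
  have h1 : (fun ω => eVariationOn (fun u => A u ω) (Icc 0 t)) = fun ω =>
      ⨆ n : ℕ, ∑ i ∈ Finset.range ⌊((n : ℝ≥0) + 1) * t⌋₊,
        edist (A (gr t n i) ω) (A (gr t n (i + 1)) ω) := funext fun ω => ev_eq (hc ω) t
  rw [h1]
  refine Measurable.iSup fun n => Finset.measurable_sum _ fun i _ => ?_
  exact (hA _ (gr_le t n i)).edist (hA _ (gr_le t n (i + 1)))

/-- the variation -/
private noncomputable def V (f : ℝ≥0 → ℝ) (t : ℝ≥0) : ℝ := (eVariationOn f (Icc 0 t)).toReal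

private theorem bv_sub {f : ℝ≥0 → ℝ} (h : FVar f) (s t : ℝ≥0) : BoundedVariationOn f (Icc s t) :=
  (h t).mono (Icc_subset_Icc_left (zero_le))

private theorem V_zero (f : ℝ≥0 → ℝ) : V f 0 = 0 := by
  unfold V
  rw [Icc_self, eVariationOn.subsingleton _ subsingleton_singleton, ENNReal.toReal_zero]

private theorem V_add {f : ℝ≥0 → ℝ} (h : FVar f) {s t : ℝ≥0} (hst : s ≤ t) :
    V f t = V f s + (eVariationOn f (Icc s t)).toReal := by
  have h1 := eVariationOn.Icc_add_Icc f (s := univ) (a := 0) (zero_le) hst (mem_univ s)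
  simp only [univ_inter] at h1
  unfold V
  rw [← h1, ENNReal.toReal_add (h s) (bv_sub h s t)]

private theorem V_dist {f : ℝ≥0 → ℝ} (h : FVar f) (x y : ℝ≥0) :
    |V f y - V f x| ≤ (eVariationOn f (Icc x y)).toReal + (eVariationOn f (Icc y x)).toReal := by
  have h0 := @ENNReal.toReal_nonneg (eVariationOn f (Icc x y))
  have h1 := @ENNReal.toReal_nonneg (eVariationOn f (Icc y x))
  rcases le_total x y with hxy | hxy
  · rw [V_add h hxy, add_sub_cancel_left, abs_of_nonneg h0]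
    linarith
  · rw [V_add h hxy, abs_sub_comm, add_sub_cancel_left, abs_of_nonneg h1]
    linarith

private theorem V_cont {f : ℝ≥0 → ℝ} (hf : Continuous f) (h : FVar f) : Continuous (V f) := by
  rw [continuous_iff_continuousAt]
  intro x
  have hb : BoundedVariationOn f (Icc 0 (x + 1)) := h (x + 1)
  have hn : Icc 0 (x + 1) ∈ 𝓝 x := by
    have : (Icc 0 (x + 1) : Set ℝ≥0) = Iic (x + 1) := by
      ext y
      simp
    rw [this]
    exact Iic_mem_nhds (lt_add_one x)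
  have h1 := hb.tendsto_eVariationOn_Icc_zero_left (x := x) hf.continuousWithinAt
  have h2 := hb.tendsto_eVariationOn_Icc_zero_right x hf.continuousWithinAt
  rw [nhdsWithin_eq_nhds.2 hn] at h1 h2
  have h1' := (ENNReal.tendsto_toReal ENNReal.zero_ne_top).comp h1
  have h2' := (ENNReal.tendsto_toReal ENNReal.zero_ne_top).comp h2
  have h3 := h2'.add h1'
  rw [ENNReal.toReal_zero, add_zero] at h3
  unfold ContinuousAt
  rw [tendsto_iff_dist_tendsto_zero]
  refine squeeze_zero' (Eventually.of_forall fun y => dist_nonneg) ?_ h3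
  filter_upwards [Iic_mem_nhds (lt_add_one x)] with y hy
  rw [Real.dist_eq]
  refine (V_dist h x y).trans (le_of_eq ?_)
  have hy' : y ≤ x + 1 := hy
  have e1 : (Icc 0 (x + 1) : Set ℝ≥0) ∩ Icc x y = Icc x y :=
    inter_eq_right.2 fun z hz => ⟨zero_le, hz.2.trans hy'⟩
  have e2 : (Icc 0 (x + 1) : Set ℝ≥0) ∩ Icc y x = Icc y x :=
    inter_eq_right.2 fun z hz => ⟨zero_le, hz.2.trans le_self_add⟩
  simp only [Function.comp_apply, e1, e2]

end UVAR

open UVAR in
theorem t_UVAR : S_UVAR := by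
  intro Ω mΩ G A hA hc hv h0
  have hm : ∀ t, Measurable[G t] fun ω => V (fun u => A u ω) t := fun t =>
    @meas Ω (G t) A t (fun u hu => (hA u).mono (G.mono hu) le_rfl) hc
  refine ⟨fun t ω => V (fun u => A u ω) t, fun t ω => V (fun u => A u ω) t - A t ω, hm,
    fun t => (hm t).sub (hA t), fun ω => V_cont (hc ω) (hv ω),
    fun ω => (V_cont (hc ω) (hv ω)).sub (hc ω), fun ω => ?_, fun ω => ?_, fun ω => ?_,
    fun t ω => by ring⟩
  · intro s t hst
    simp only
    rw [V_add (hv ω) hst]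
    have := @ENNReal.toReal_nonneg (eVariationOn (fun u => A u ω) (Icc s t))
    linarith
  · intro s t hst
    simp only
    rw [V_add (hv ω) hst]
    have h1 : A t ω - A s ω ≤ (eVariationOn (fun u => A u ω) (Icc s t)).toReal :=
      (bv_sub (hv ω) s t).sub_le (x := t) (y := s) ⟨hst, le_rfl⟩ ⟨le_rfl, hst⟩
    linarith
  · simp only [V_zero, h0, sub_zero, and_self]

end Pool.Agent.T2h33.RG
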