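import Pool.Agent.T2h33.RG.T_PTH
import Pool.Agent.T2h33.RG.T_TEL
import Pool.Agent.T2h33.RG.T_KPA
import Pool.Agent.T2h33.RG.T_NAC
import Pool.Agent.T2h33.RG.T_EXB
import Pool.Agent.T2h33.RG.T_SUPM
import Pool.Agent.T2h33.RG.T_MEA
import Pool.Agent.T2h33.RG.T_STEP
import Pool.Agent.T2h33.RG.T_DOOB
import Pool.Agent.T2h33.RG.T_DOOK
import Pool.Agent.T2h33.RG.T_PSI
import Pool.Agent.T2h33.RG.T_FUB
import Pool.Agent.T2h33.RG.T_ASM
import Pool.Agent.T2h33.RG.T_GMA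
import Pool.Agent.T2h33.RG.T_MQ
import Pool.Agent.T2h33.RG.T_SIN
import Pool.Agent.T2h33.RG.T_FIN
import Pool.Agent.T2h33.RG.T_UVAR
import Pool.Agent.T2h33.RG.T_UNI
import Pool.Agent.T2h33.RG.T_FINU

/-! Project RG (helper33): assembly -/

set_option autoImplicit false

namespace Pool.Agent.T2h33.RG

theorem fin : S_FIN :=
  t_FIN t_PTH t_TEL t_KPA t_NAC t_EXB t_SUPM t_MEA t_STEP t_DOOB t_DOOK t_PSI t_FUB t_ASM t_GMA
    t_MQ t_SIN

theorem finU : S_FINU := t_FINU fin t_UVAR t_UNI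

end Pool.Agent.T2h33.RG
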