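import Pool.Agent.T2h33.RG.Defs

/-!
# Project RG (helper33): full answer (NO) to MP_e3daee_pr. Statements of the parts, with proofs

Everything is elementary: no stopping times, no stochastic integrals; the martingale identities are
obtained by telescoping over the grids of `[s, t]` and dominated convergence.
-/

set_option autoImplicit false
set_option linter.unusedVariables false

open MeasureTheory ProbabilityTheory Filter Topology Set
open scoped NNReal ENNReal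

namespace Pool.Agent.T2h33.RG

/-! ### A. deterministic parts -/

/-- **PTH** (grids; `x j = m (gp s t n j)`). `gp s t n n = t` for `n ≥ 1`, the grid points are in `[s, t]` for `j ≤ n`.
(1) uniform continuity on the compact `[s, t]`. (2) `mx ≤ ssup`; if the supremum is attained at `u`, the nearest grid
point `j ≤ n` has `|m u - x j| → 0`. (3) the integral over `[u_i, u_{i+1}]` differs from `m(u_i) Δ` by at most `ε Δ`
(`intervalIntegral.sum_integral_adjacent_intervals`). -/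
def S_PTH : Prop := ∀ (m : ℝ≥0 → ℝ), Continuous m → ∀ s t : ℝ≥0, s ≤ t →
  Tendsto (fun n : ℕ => osc (fun j => m (gp s t n j)) n) atTop (𝓝 0) ∧
  Tendsto (fun n : ℕ => mx (fun j => m (gp s t n j)) n) atTop (𝓝 (ssup m s t)) ∧
  Tendsto (fun n : ℕ => sm (fun j => m (gp s t n j)) (((t : ℝ) - s) / n) n) atTop (𝓝 (jint m s t)) ∧
  (∀ n j : ℕ, j ≤ n → s ≤ gp s t n j ∧ gp s t n j ≤ t ∧
    mx (fun j => m (gp s t n j)) j ≤ ssup m s t) ∧ (∀ n : ℕ, 1 ≤ n → gp s t n n = t)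

/-- the error term of DOOB -/
noncomputable def er0 (X : ℝ) (x : ℕ → ℝ) (j : ℕ) : ℝ :=
  if mx x j ≤ X then max (x (j + 1) / X - 1) 0 else 0

/-- the function of PSI at the `j`-th point -/
noncomputable def psi (κ Δ : ℝ) (x : ℕ → ℝ) (j : ℕ) : ℝ :=
  if κ < mx x j then (x j - x 0 - sm x Δ j) +
    2 * (mx x j - x j - x j * Real.log (mx x j) + x j * Real.log (x j))
  else (x j - x 0 - sm x Δ j) * (x j / κ)

/-- the terms of mean zero -/
noncomputable def al (κ Δ : ℝ) (x : ℕ → ℝ) (j : ℕ) : ℝ :=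
  if κ < mx x j then -(x (j + 1) - x j) - x j * Δ - 2 * (x (j + 1) - x j) * Real.log (mx x j) +
    2 * (x (j + 1) * Real.log (x (j + 1)) - x j * Real.log (x j))
  else ((x (j + 1) - x 0 - sm x Δ (j + 1)) * x (j + 1) - (x j - x 0 - sm x Δ j) * x j -
    x j ^ 2 * (Real.exp Δ - 1 - Δ)) / κ

/-- **TEL** (deterministic telescoping). (1) After the first `j` with `x (j + 1) > X` the terms vanish, before they
vanish too, and at this `j` the term is `(x (j + 1) - X) / X ≤ (x (j + 1) - x j) / X`.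
(2) Let `ε_j = psi (j + 1) - psi j - al j`. If `κ < mx j`: `ε_j = 2 (mx (j+1) - mx j - x (j+1) (log mx (j+1) - log mx j))`, which is
`0` unless `mx (j+1) = x (j+1) > mx j`, and then `= - 2 a φ(r)`, `a = mx j`, `r = x (j+1) / a > 1`, `φ(r) = r log r - r + 1`,
`0 ≤ φ(r) ≤ (r - 1) ^ 2` (`log r ≤ r - 1`); so `|ε_j| ≤ (2 / κ) (mx (j+1) - mx j) ^ 2`, and the sum of
these is `≤ (2 / κ) osc n * mx n` as `mx (j+1) - mx j ≤ osc n`. If `mx j ≤ κ`:
`ε_j = x j ^ 2 (exp Δ - 1 - Δ) / κ - (x (j+1) - x 0 - sm (j+1)) * er0 κ x j` (if `mx (j+1) > κ` then `mx (j+1) = x (j+1)` and the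
bracket with the logarithms of `psi (j+1)` is `0`); `|x (j+1) - x 0 - sm (j+1)| ≤ (2 + n Δ) mx n`; use (1). -/
def S_TEL : Prop := ∀ (x : ℕ → ℝ), (∀ j, 0 < x j) →
  (∀ (X : ℝ), 0 < X → ∀ n, ∑ j ∈ Finset.range n, er0 X x j ≤ osc x n / X) ∧
  ∀ (κ Δ : ℝ), 0 < κ → 0 ≤ Δ → ∀ n,
    ∑ j ∈ Finset.range n, |psi κ Δ x (j + 1) - psi κ Δ x j - al κ Δ x j| ≤
      2 / κ * (osc x n * mx x n) + n * (Real.exp Δ - 1 - Δ) * mx x n ^ 2 / κ +
        (2 + n * Δ) * mx x n * osc x n / κ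

/-- **KPA** (paths of the future supremum). The supremum over `[t, ∞)` is attained (`m → 0`, `m > 0`). (5) if `m t < fsup m t`,
the supremum is attained at some `u > t`, so `fsup m` is constant on `[t, u]`, and `m < fsup m t` near `t`. Continuity: (5) where
`m t < fsup m t`; if `m t = fsup m t`: for `u < t` near `t`, `fsup m u = max (sup over [u, t]) (fsup m t)` is near `m t`, and
for `u > t`, `m u ≤ fsup m u ≤ fsup m t = m t`. -/
def S_KPA : Prop := ∀ (m : ℝ≥0 → ℝ), Continuous m → (∀ t, 0 < m t) → Tendsto m atTop (𝓝 0) →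
  Antitone (fsup m) ∧ Continuous (fsup m) ∧ (∀ s t, s ≤ t → fsup m s = max (ssup m s t) (fsup m t)) ∧
  (∀ t, m t ≤ fsup m t) ∧ (∀ t, m t < fsup m t → ∀ᶠ u in 𝓝 t, fsup m u = fsup m t) ∧
  Tendsto (fsup m) atTop (𝓝 0) ∧ (∀ s x, x < fsup m s ↔ ∃ t, s ≤ t ∧ x < ssup m s t)

/-- **NAC** (the part of finite variation is not absolutely continuous). Suppose it is. `q = ∫ m ^ 2` and `∫ m` are Lipschitz on
`[0, T]`, so for `T, ε` there is `δ` such that `∑ (fsup m (x i) - fsup m (y i)) < ε` for disjoint intervals in `[0, T]` of total length `< δ`. The set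
`C = {x ∈ [0, T] | fsup m x ≤ m x}` is compact and null: cover it by finitely many open intervals of total length `< δ` (outer regularity
gives an open set `O ⊇ C` of measure `< δ`; compactness); one may take them disjoint (or: components; or induction on the number of
intervals, merging two intervals which meet). On the complement, a finite union of closed intervals, `fsup m` is locally constant
(KPA (5)), so constant on each. So `fsup m 0 - fsup m T < ε`, for all `ε`, `T`: `fsup m` is constant; but it is positive and tends to `0`.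
(It is simpler to avoid disjoint covers: by the definition of `δ`, with a grid of `[0, T]` of mesh `T / n`: the grid intervals which
meet `C` are contained in the closed `T / n`-neighbourhood of `C`, whose measure tends to `0` (compact `C`, continuity from
above: `tendsto_measure_cthickening`), the other grid intervals do not contribute.) -/
def S_NAC : Prop := S_KPA → ∀ (m : ℝ≥0 → ℝ), Continuous m → (∀ t, 0 < m t) → Tendsto m atTop (𝓝 0) →
  volume {x : ℝ | 0 ≤ x ∧ fsup m x.toNNReal ≤ m x.toNNReal} = 0 →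
  ¬ ACwrt (fun t => jint m 0 t - 2 * (fsup m 0 - fsup m t)) (fun t => jint (fun u => m u ^ 2) 0 t)

/-! ### B. Brownian motion -/

/-- **EXB** (existence). `Pool.Agent.Helper41.BS.exists_bm2` (`Helper41/BS/ExistBM.lean`) gives a complete probability space and a
Brownian motion `B 0` (`IsBrownianReal`, measurable, almost all paths continuous). `exp (B_t - t / 2) → 0` almost surely: it is enough that
`B_t / t → 0`, or `sup_{n ≤ t ≤ n+1} |B_t| ≤ n / 4` for large `n` (Borel–Cantelli; `R228/BS/Sup.lean` has bounds for the supremum; or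
`Mathlib` `MeasureTheory.maximal_ineq` for the submartingale `B ^ 4` over dyadic grids; or see
`R977`, `R228`, `Helper363_LBM`, `Keldysh/M_exists_niceBM.lean`). On the null set where one of these properties or `B_0 = 0` fails replace
the path by `0` (`exp (- t / 2) → 0`). `F t` = the sets which differ by a null set from a set of `σ(B_u, u ≤ t)` (`eventuallyMeasurableSpace`, or
`σ(B_u, u ≤ t) ⊔ {null sets and complements}`); independence of the increments: `IsPreBrownianReal.indepFun_shift` in Mathlib. -/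
def S_EXB : Prop := ∃ (Ω : Type) (mΩ : MeasurableSpace Ω) (P : Measure Ω) (_ : IsProbabilityMeasure P)
  (_ : P.IsComplete) (F : Filtration ℝ≥0 mΩ) (W : ℝ≥0 → Ω → ℝ), BMF P F W

/-- **SUPM** (moments of the supremum). `(1 + sup M) ^ p ≤ 2 ^ p (1 + sup_{[0, T]} M ^ p)`. Measurability: by continuity the supremum is the
supremum over the rationals, or the limit of the maxima `mx` over the grids (PTH). `M ^ (2 p)` is a nonnegative submartingale on every
grid of `[0, T]`, so `λ P(max M ^ (2 p) ≥ λ) ≤ E M_T ^ (2 p) < ∞` (`MeasureTheory.maximal_ineq`), so for the supremum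
`λ P(sup M ^ (2 p) ≥ λ) ≤ C` (or use a library bound for `sup |W|`), and `E sup M ^ p = ∫ P(sup M ^ p > r) dr ≤ 1 + ∫_1^∞ C r ^ (-2) dr`.
(Submartingale: `M` is a martingale, convexity; or directly `E (M_v ^ q | F_u) = M_u ^ q exp ((q ^ 2 - q) (v - u) / 2)`.) -/
def S_SUPM : Prop := S_PTH → ∀ (Ω : Type) (mΩ : MeasurableSpace Ω) (P : Measure Ω) [IsProbabilityMeasure P]
  (F : Filtration ℝ≥0 mΩ) (W : ℝ≥0 → Ω → ℝ), BMF P F W → ∀ (T : ℝ≥0) (p : ℕ),
    Integrable (fun ω => (1 + ssup (pm W ω) 0 T) ^ p) P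

/-- **MEA** (measurability; limits of the grid quantities, PTH). (4): `K_s` is the limit of `sup_{[s, n]} M`. -/
def S_MEA : Prop := S_PTH → S_KPA → ∀ (Ω : Type) (mΩ : MeasurableSpace Ω) (P : Measure Ω)
  [IsProbabilityMeasure P] (F : Filtration ℝ≥0 mΩ) (W : ℝ≥0 → Ω → ℝ), BMF P F W →
    (∀ s t : ℝ≥0, s ≤ t → Measurable[F t] (fun ω => ssup (pm W ω) s t) ∧
      Measurable[F t] (fun ω => jint (pm W ω) s t) ∧
      Measurable[F t] (fun ω => jint (fun u => pm W ω u ^ 2) s t)) ∧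
    ∀ s : ℝ≥0, Measurable (fun ω => KK W s ω)

/-- **STEP** (one step). `M_v = M_u ρ`, `ρ = exp (W_v - W_u - (v - u) / 2)`, independent of `F u ∋ Z, M_u`; with `Δ = v - u`: `E ρ = 1`,
`E ρ ^ 2 = exp Δ`, `E ρ log ρ = Δ / 2` (Gaussian integrals: `E exp (a G) = exp (a ^ 2 Δ / 2)` is `mgf_gaussianReal`; the last one is
`E (G - Δ / 2) exp (G - Δ / 2)`, `E G exp G = Δ exp (Δ / 2)`: derivative of the moment generating function, or the substitution
`x ↦ x + Δ` in the density). Products of independent integrable functions: `IndepFun.integral_mul_eq_mul_integral` or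
`Indep`-version; integrability of `Z M_u ^ 2` etc. from SUPM. -/
def S_STEP : Prop := S_PTH → S_SUPM → ∀ (Ω : Type) (mΩ : MeasurableSpace Ω) (P : Measure Ω)
  [IsProbabilityMeasure P] (F : Filtration ℝ≥0 mΩ) (W : ℝ≥0 → Ω → ℝ), BMF P F W →
    ∀ u v : ℝ≥0, u ≤ v → ∀ Z : Ω → ℝ, Measurable[F u] Z → Pg W u Z →
      ∫ ω, Z ω * mm W v ω ∂P = ∫ ω, Z ω * mm W u ω ∂P ∧
      ∫ ω, Z ω * mm W v ω ^ 2 ∂P = Real.exp ((v : ℝ) - u) * ∫ ω, Z ω * mm W u ω ^ 2 ∂P ∧
      ∫ ω, Z ω * (mm W v ω * Real.log (mm W v ω)) ∂P =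
        ∫ ω, Z ω * (mm W u ω * Real.log (mm W u ω) + mm W u ω * (((v : ℝ) - u) / 2)) ∂P

/-- **DOOB** (from PTH, TEL, SUPM, MEA, STEP). Let `x j = M` at the grid points of `[s, T]`, `H_j = 1` if `mx j > X` and `x j / X` if not; so
`H_0 = min 1 (M_s / X)`. `H_{j+1} - H_j = 1_{mx j ≤ X} ((x (j+1) - x j) / X) - er0 X x j`. By STEP with
`Z = Y 1_{mx j ≤ X} / X` (bounded, `F`-measurable at the `j`-th point) the first term has mean zero after multiplication by `Y`. So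
`|E Y H_n - E Y H_0| ≤ E |Y| osc n / X → 0` (TEL, PTH; dominated: `osc ≤ ssup`, and `1 / X ≤ 1 / δ`), and
`H_n → 1_{ssup > X} + 1_{ssup ≤ X} M_T / X` pointwise (bounded by `1`). -/
def S_DOOB : Prop := S_PTH → S_TEL → S_SUPM → S_MEA → S_KPA → S_STEP → ∀ (Ω : Type)
  (mΩ : MeasurableSpace Ω) (P : Measure Ω) [IsProbabilityMeasure P] (F : Filtration ℝ≥0 mΩ)
  (W : ℝ≥0 → Ω → ℝ), BMF P F W →
    ∀ (s T : ℝ≥0) (X Y : Ω → ℝ) (δ : ℝ), s ≤ T → Measurable[F s] X → Measurable[F s] Y → 0 < δ →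
      (∀ ω, δ ≤ X ω) → Pg W s Y →
      ∫ ω, Y ω * (if X ω < ssup (pm W ω) s T then 1 else mm W T ω / X ω) ∂P =
        ∫ ω, Y ω * min 1 (mm W s ω / X ω) ∂P

/-- **DOOK** (from DOOB). Let `T → ∞`: `1_{X < ssup s T} → 1_{X < K_s}` (KPA (7)), `M_T → 0`; everything is bounded by `|Y|`. -/
def S_DOOK : Prop := S_PTH → S_KPA → S_SUPM → S_MEA → S_DOOB → S_TEL → S_STEP → ∀ (Ω : Type)
  (mΩ : MeasurableSpace Ω) (P : Measure Ω) [IsProbabilityMeasure P] (F : Filtration ℝ≥0 mΩ)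
  (W : ℝ≥0 → Ω → ℝ), BMF P F W →
    ∀ (s : ℝ≥0) (X Y : Ω → ℝ) (δ : ℝ), Measurable[F s] X → Measurable[F s] Y → 0 < δ →
      (∀ ω, δ ≤ X ω) → Pg W s Y →
      ∫ ω, Y ω * (if X ω < KK W s ω then 1 else 0) ∂P = ∫ ω, Y ω * min 1 (mm W s ω / X ω) ∂P

/-- the limit of `psi` -/
noncomputable def Psi (κ : ℝ) (m : ℝ≥0 → ℝ) (s t : ℝ≥0) : ℝ :=
  if κ < ssup m s t then (m t - m s - jint m s t) +
    2 * (ssup m s t - m t - m t * Real.log (ssup m s t) + m t * Real.log (m t))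
  else (m t - m s - jint m s t) * (m t / κ)

/-- **PSI** (from PTH, TEL, SUPM, MEA, STEP). `x j = M` at the `j`-th grid point of `[s, t]`, `Δ = (t - s) / n`. `psi κ Δ x 0 = 0`.
`E 1_A al j = 0` by STEP: if `κ < mx j`: with `Z = 1_A 1_{κ < mx j} (-1 - 2 log mx j)` (first equation) and `Z = 2 1_A 1_{κ < mx j}`
(third equation; the term `- x j Δ` cancels); if `mx j ≤ κ`: `(x (j+1) - x 0 - sm (j+1)) x (j+1) =
x (j+1) ^ 2 - (x 0 + sm j + Δ x j) x (j+1)`, second and first equation. So `|E 1_A psi n| ≤` the expectation of the right-hand side of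
TEL (2), which tends to `0` (`osc n → 0`, `n (exp Δ - 1 - Δ) → 0`, dominated by `C (1 + ssup) ^ 2`), and
`psi n → Psi` pointwise (PTH; `κ < mx n` eventually iff `κ < ssup`; if `ssup ≤ κ` then `mx n ≤ κ` for all `n`), dominated by a polynomial in `ssup`
(on `κ < mx n`, `|log mx n| ≤ |log κ| + mx n`, and `|x log x| ≤ 1 + x ^ 2`). -/
def S_PSI : Prop := S_PTH → S_TEL → S_SUPM → S_MEA → S_KPA → S_STEP → ∀ (Ω : Type)
  (mΩ : MeasurableSpace Ω) (P : Measure Ω) [IsProbabilityMeasure P] (F : Filtration ℝ≥0 mΩ)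
  (W : ℝ≥0 → Ω → ℝ), BMF P F W →
    ∀ (s t : ℝ≥0) (κ : ℝ) (A : Set Ω), s ≤ t → 0 < κ → MeasurableSet[F s] A →
      Integrable (fun ω => Psi κ (pm W ω) s t) P ∧ ∫ ω in A, Psi κ (pm W ω) s t ∂P = 0

/-- **FUB** (from DOOK; Fubini). `max (S - K_t) 0 = ∫_0^∞ 1_{x < S} (1 - 1_{x < K_t}) dx`; for each `x > 0`, by DOOK with `X = x`,
`E Y 1_{x < S} (1 - 1_{x < K_t}) = E Y 1_{x < S} (1 - min 1 (M_t / x))`; and for `S ≥ M_t > 0`:
`∫_0^S (1 - min 1 (M_t / x)) dx = ∫_{M_t}^S (1 - M_t / x) dx = S - M_t - M_t (log S - log M_t)`. -/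
def S_FUB : Prop := S_PTH → S_KPA → S_SUPM → S_MEA → S_TEL → S_STEP → S_DOOB → S_DOOK → ∀ (Ω : Type)
  (mΩ : MeasurableSpace Ω) (P : Measure Ω) [IsProbabilityMeasure P] (F : Filtration ℝ≥0 mΩ)
  (W : ℝ≥0 → Ω → ℝ), BMF P F W →
    ∀ (t : ℝ≥0) (S Y : Ω → ℝ), Measurable[F t] S → Measurable[F t] Y → Pg W t S → Pg W t Y →
      (∀ ω, 0 ≤ Y ω) → (∀ ω, mm W t ω ≤ S ω) →
      ∫ ω, Y ω * max (S ω - KK W t ω) 0 ∂P =
        ∫ ω, Y ω * (S ω - mm W t ω - mm W t ω * Real.log (S ω) +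
          mm W t ω * Real.log (mm W t ω)) ∂P

/-- **ASM** (from FUB, DOOK, PSI). Let `S = ssup s t`, `X = M_t - M_s - ∫_s^t M`; so `N_t - N_s = X + 2 (K_s - K_t)`, `K_s = max S K_t`. Pointwise
`1_{k < K_s} (N_t - N_s) = X 1_{k < S} + X 1_{S ≤ k} 1_{k < K_t} + 2 1_{k < S} max (S - K_t) 0`. Integrate over `A`: the second term by DOOK
at `t` (`X = k`, `Y = 1_A X 1_{S ≤ k}`; `min 1 (M_t / k) = M_t / k` as `M_t ≤ S ≤ k`), the third by FUB (`Y = 1_A 1_{k < S}`).
The sum is `∫_A Psi k = 0`. Integrability of `N_t`: `0 ≤ K_0 - K_t ≤ ssup 0 t`. -/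
def S_ASM : Prop := S_PTH → S_KPA → S_SUPM → S_MEA → S_TEL → S_STEP → S_DOOB → S_DOOK → S_PSI → S_FUB →
  ∀ (Ω : Type) (mΩ : MeasurableSpace Ω) (P : Measure Ω) [IsProbabilityMeasure P]
  (F : Filtration ℝ≥0 mΩ) (W : ℝ≥0 → Ω → ℝ), BMF P F W → (∀ t, Integrable (NN W t) P) ∧
    ∀ (s t : ℝ≥0) (k : ℝ) (A : Set Ω), s ≤ t → 0 < k → MeasurableSet[F s] A →
      ∫ ω in A ∩ {ω | k < KK W s ω}, (NN W t ω - NN W s ω) ∂P = 0

/-- **GMA** (from ASM). `G` exists: `F t ⊔ σ(K_t)` is increasing as `K_s = max (ssup s t) K_t`. `N_t` is `G t`-measurable (`K_0 = max (ssup 0 t) K_t`).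
For the conditional expectation: the sets `A ∩ {k < K_s}`, `A ∈ F s`, `k : ℝ`, are a `π`-system which generates `G s`; for `k ≤ 0` the
set is `A`, and `∫_A (N_t - N_s) = lim ∫_{A ∩ {1/n < K_s}} (N_t - N_s) = 0` (`K_s > 0`); then
`MeasurableSpace.induction_on_inter` and `ae_eq_condExp_of_forall_setIntegral_eq`. -/
def S_GMA : Prop := S_PTH → S_KPA → S_SUPM → S_MEA → S_TEL → S_STEP → S_DOOB → S_DOOK → S_PSI → S_FUB →
  S_ASM → ∀ (Ω : Type) (mΩ : MeasurableSpace Ω) (P : Measure Ω) [IsProbabilityMeasure P]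
  (F : Filtration ℝ≥0 mΩ) (W : ℝ≥0 → Ω → ℝ), BMF P F W →
    ∃ G : Filtration ℝ≥0 mΩ, (∀ t, G t = F t ⊔ MeasurableSpace.comap (KK W t) inferInstance) ∧
      (∀ t, Measurable[G t] (AA W t)) ∧ Martingale (NN W) G P

/-- **MQ** (from STEP). First: STEP (1) with `Z = 1_A`. Second: `E 1_A M_v ^ 2 = exp (v - s) E 1_A M_s ^ 2` for `v ≥ s`
(STEP (2)), so by Fubini `E 1_A ∫_s^t M_v ^ 2 dv = (exp (t - s) - 1) E 1_A M_s ^ 2 = E 1_A (M_t ^ 2 - M_s ^ 2)`.
(Joint measurability of `(v, ω) ↦ M_v(ω)`: `measurable_uncurry_of_continuous_of_measurable`.) -/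
def S_MQ : Prop := S_PTH → S_KPA → S_SUPM → S_MEA → S_STEP → ∀ (Ω : Type) (mΩ : MeasurableSpace Ω)
  (P : Measure Ω) [IsProbabilityMeasure P] (F : Filtration ℝ≥0 mΩ) (W : ℝ≥0 → Ω → ℝ), BMF P F W →
    Martingale (mm W) F P ∧ Martingale (fun t ω => mm W t ω ^ 2 - QQ W t ω) F P

/-- **SIN** (from DOOK). For `c > 1`, `δ > 0` let `X = max (c M_t) δ`, `Y = 1` if `δ ≤ c M_t`, else `0`: then
`P(c M_t < K_t) ≥ E Y 1_{X < K_t} = E Y min 1 (M_t / X) = (1 / c) P(δ ≤ c M_t)`. Let `δ → 0`, `c → 1`: `P(M_t < K_t) = 1` for each `t`. Then Fubini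
(`(t, ω) ↦ K_t(ω)`, `M_t(ω)` are continuous in `t` and measurable in `ω`, so jointly measurable). -/
def S_SIN : Prop := S_PTH → S_KPA → S_SUPM → S_MEA → S_TEL → S_STEP → S_DOOB → S_DOOK → ∀ (Ω : Type)
  (mΩ : MeasurableSpace Ω) (P : Measure Ω) [IsProbabilityMeasure P] (F : Filtration ℝ≥0 mΩ)
  (W : ℝ≥0 → Ω → ℝ), BMF P F W → ∀ᵐ ω ∂P,
    volume {x : ℝ | 0 ≤ x ∧ fsup (pm W ω) x.toNNReal ≤ pm W ω x.toNNReal} = 0

/-- **FIN** (the final theorem; from everything). `Q = QQ W`, `A = AA W`, `N = NN W`, `M = mm W`. -/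
def S_FIN : Prop := ∃ (Ω : Type) (mΩ : MeasurableSpace Ω) (P : Measure Ω), IsProbabilityMeasure P ∧
  P.IsComplete ∧ ∃ (F G : Filtration ℝ≥0 mΩ) (M N A Q : ℝ≥0 → Ω → ℝ),
    (∀ t, F t ≤ G t) ∧ (∀ B : Set Ω, P B = 0 → MeasurableSet[F 0] B) ∧
    -- `M` is a continuous martingale for `F`, and `Q = [M, M]`
    Martingale M F P ∧ (∀ ω, Continuous fun t => M t ω) ∧
    Martingale (fun t ω => M t ω ^ 2 - Q t ω) F P ∧
    (∀ ω, Continuous (fun t => Q t ω) ∧ Monotone (fun t => Q t ω) ∧ Q 0 ω = 0) ∧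
    -- `M = N + A` is a semimartingale for `G`
    (∀ t ω, M t ω = N t ω + A t ω) ∧ Martingale N G P ∧ (∀ ω, Continuous fun t => N t ω) ∧
    (∀ t, Measurable[G t] (A t)) ∧
    (∀ ω, Continuous (fun t => A t ω) ∧ FVar (fun t => A t ω) ∧ A 0 ω = 0) ∧
    -- which is not regular
    ∀ᵐ ω ∂P, ¬ ACwrt (fun t => A t ω) (fun t => Q t ω)

end Pool.Agent.T2h33.RG
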