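import Pool.Agent.T2h33.RG.Stm

/-!
# Project RG (helper33): uniqueness of the decomposition of a continuous semimartingale

With it the final theorem speaks of all decompositions.
-/

set_option autoImplicit false
set_option linter.unusedVariables false

open MeasureTheory ProbabilityTheory Filter Topology Set
open scoped NNReal ENNReal

namespace Pool.Agent.T2h33.RG

variable {Ω : Type} {mΩ : MeasurableSpace Ω}

/-- `N` is a continuous local martingale with respect to the filtration `G` -/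
structure CLM (P : Measure Ω) (G : Filtration ℝ≥0 mΩ) (N : ℝ≥0 → Ω → ℝ) : Prop where
  adapted : ∀ t, Measurable[G t] (N t)
  cont : ∀ ω, Continuous fun t => N t ω
  loc : ∃ τ : ℕ → Ω → WithTop ℝ≥0, IsLocalizingSequence G τ P ∧
    ∀ n, Martingale (fun t ω => stoppedProcess N (τ n) t ω - N 0 ω) G P

/-- `X = N + A` is a decomposition of `X` as a continuous semimartingale with respect to the
filtration `G` -/
structure Dec (P : Measure Ω) (G : Filtration ℝ≥0 mΩ) (X N A : ℝ≥0 → Ω → ℝ) : Prop where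
  mart : CLM P G N
  adapted : ∀ t, Measurable[G t] (A t)
  cont : ∀ ω, Continuous fun t => A t ω
  fvar : ∀ ω, FVar fun t => A t ω
  zero : ∀ ω, A 0 ω = 0
  eq : ∀ t ω, X t ω = N t ω + A t ω

/-- **UVAR** (the variation process). `A₁ t ω = (eVariationOn (fun u => A u ω) (Icc 0 t)).toReal`, `A₂ = A₁ - A`.
Monotone: `eVariationOn.Icc_add_Icc` (with `s = univ`), `|A t - A s| ≤` the variation on `[s, t]` (`eVariationOn.edist_le`); or
`Mathlib/Topology/EMetricSpace/VariationOnFromTo.lean`. Continuity of `A₁`: `LocallyBoundedVariationOn.tendsto_eVariationOn_Icc_left`,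
`..._right`, `..._zero_left`, `..._zero_right` in `Mathlib/Topology/EMetricSpace/BoundedVariation.lean` (the variation on `[s, t]` tends to `0` as
`s ↑ t` and as `t ↓ s`, the path being continuous). Measurability: `A₁ t` is the limit (or the supremum) over `n` of
`∑ i < n, |A (gp 0 t n (i + 1)) - A (gp 0 t n i)|` (`gp` and PTH in `T_PTH.lean`; every partition of `[0, t]` is a
limit of partitions by grid points and the path is continuous), or the supremum over the finite sequences of rational times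
`t * q`, `q ∈ [0, 1] ∩ ℚ`. -/
def S_UVAR : Prop := ∀ (Ω : Type) (mΩ : MeasurableSpace Ω) (G : Filtration ℝ≥0 mΩ)
  (A : ℝ≥0 → Ω → ℝ), (∀ t, Measurable[G t] (A t)) → (∀ ω, Continuous fun t => A t ω) →
    (∀ ω, FVar fun t => A t ω) → (∀ ω, A 0 ω = 0) →
    ∃ A₁ A₂ : ℝ≥0 → Ω → ℝ, (∀ t, Measurable[G t] (A₁ t)) ∧ (∀ t, Measurable[G t] (A₂ t)) ∧
      (∀ ω, Continuous fun t => A₁ t ω) ∧ (∀ ω, Continuous fun t => A₂ t ω) ∧
      (∀ ω, Monotone fun t => A₁ t ω) ∧ (∀ ω, Monotone fun t => A₂ t ω) ∧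
      (∀ ω, A₁ 0 ω = 0 ∧ A₂ 0 ω = 0) ∧ ∀ t ω, A t ω = A₁ t ω - A₂ t ω

/-- **UNI** (uniqueness; from UVAR and `Helper41/SK` `locmart_lin`, `nlem_all`). -/
def S_UNI : Prop := S_UVAR → ∀ (Ω : Type) (mΩ : MeasurableSpace Ω) (P : Measure Ω)
  [IsProbabilityMeasure P] (G : Filtration ℝ≥0 mΩ), (∀ B : Set Ω, P B = 0 → MeasurableSet[G 0] B) →
    ∀ X N A N' A' : ℝ≥0 → Ω → ℝ, Dec P G X N A → Dec P G X N' A' →
      ∀ᵐ ω ∂P, ∀ t, A t ω = A' t ω

/-- the final theorem, with all decompositions -/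
def S_FINU : Prop := ∃ (Ω : Type) (mΩ : MeasurableSpace Ω) (P : Measure Ω), IsProbabilityMeasure P ∧
  P.IsComplete ∧ ∃ (F G : Filtration ℝ≥0 mΩ) (M Q : ℝ≥0 → Ω → ℝ),
    (∀ t, F t ≤ G t) ∧ (∀ B : Set Ω, P B = 0 → MeasurableSet[F 0] B) ∧
    -- `M` is a continuous martingale for `F`, and `Q = [M, M]`
    Martingale M F P ∧ (∀ ω, Continuous fun t => M t ω) ∧
    Martingale (fun t ω => M t ω ^ 2 - Q t ω) F P ∧
    (∀ ω, Continuous (fun t => Q t ω) ∧ Monotone (fun t => Q t ω) ∧ Q 0 ω = 0) ∧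
    -- `M` is a semimartingale for `G`; its martingale part is a true martingale
    (∃ N A : ℝ≥0 → Ω → ℝ, Martingale N G P ∧ Dec P G M N A) ∧
    -- which is not regular
    ∀ N A : ℝ≥0 → Ω → ℝ, Dec P G M N A → ∀ᵐ ω ∂P, ¬ ACwrt (fun t => A t ω) (fun t => Q t ω)

end Pool.Agent.T2h33.RG
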