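import Pool.Agent.T2h33.RG.Basic

/-!
# Project RG, task GMA (helper46): the enlarged filtration and the martingale `N`
-/

set_option autoImplicit false
set_option linter.all false

open MeasureTheory ProbabilityTheory Filter Topology Set
open scoped NNReal ENNReal

namespace Pool.Agent.T2h33.RG

namespace GMA

variable {Ω : Type} {mΩ : MeasurableSpace Ω} {P : Measure Ω} [IsProbabilityMeasure P]
  {F : Filtration ℝ≥0 mΩ} {W : ℝ≥0 → Ω → ℝ}

/-- the sets which generate `G s` -/
def Cs (F : Filtration ℝ≥0 mΩ) (W : ℝ≥0 → Ω → ℝ) (s : ℝ≥0) : Set (Set Ω) :=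
  {B | ∃ (A : Set Ω) (k : ℝ), MeasurableSet[F s] A ∧ B = A ∩ {ω | k < KK W s ω}}

lemma pi (s : ℝ≥0) : IsPiSystem (Cs F W s) := by
  rintro _ ⟨A, k, hA, rfl⟩ _ ⟨A', k', hA', rfl⟩ _
  refine ⟨A ∩ A', max k k', hA.inter hA', ?_⟩
  ext ω
  simp only [mem_inter_iff, mem_setOf_eq, max_lt_iff]
  tauto

lemma gen (s : ℝ≥0) (hpos : ∀ ω, 0 < KK W s ω) :
    F s ⊔ MeasurableSpace.comap (KK W s) inferInstance = MeasurableSpace.generateFrom (Cs F W s) := by
  apply le_antisymm
  · apply sup_le
    · intro A hA
      apply MeasurableSpace.measurableSet_generateFrom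
      refine ⟨A, 0, hA, ?_⟩
      ext ω
      simp [hpos ω]
    · rw [← measurable_iff_comap_le]
      refine @measurable_of_Ioi ℝ Ω _ _ _ (MeasurableSpace.generateFrom (Cs F W s)) _ _ _ _ ?_
      intro x
      apply MeasurableSpace.measurableSet_generateFrom
      refine ⟨univ, x, MeasurableSet.univ, ?_⟩
      rw [univ_inter]
      rfl
  · apply MeasurableSpace.generateFrom_le
    rintro _ ⟨A, k, hA, rfl⟩
    apply MeasurableSet.inter
    · exact (le_sup_left : F s ≤ F s ⊔ MeasurableSpace.comap (KK W s) inferInstance) A hA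
    · exact (le_sup_right : MeasurableSpace.comap (KK W s) inferInstance ≤
        F s ⊔ MeasurableSpace.comap (KK W s) inferInstance) _ ⟨Ioi k, measurableSet_Ioi, rfl⟩

end GMA

open GMA in
theorem t_GMA : S_GMA := by
  intro hPTH hKPA hSUPM hMEA hTEL hSTEP hDOOB hDOOK hPSI hFUB hASM Ω mΩ P _ F W h
  obtain ⟨hint, hzero⟩ := hASM hPTH hKPA hSUPM hMEA hTEL hSTEP hDOOB hDOOK hPSI hFUB Ω mΩ P F W h
  obtain ⟨hM1, hM2⟩ := hMEA hPTH hKPA Ω mΩ P F W h
  have hK := fun ω => hKPA (pm W ω) (h.pm_cont ω) (pm_pos ω) (h.pm_lim ω)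
  have hpos : ∀ s ω, 0 < KK W s ω := fun s ω => (pm_pos ω s).trans_le ((hK ω).2.2.2.1 s)
  have hmax : ∀ s t, s ≤ t → ∀ ω, KK W s ω = max (ssup (pm W ω) s t) (KK W t ω) :=
    fun s t hst ω => (hK ω).2.2.1 s t hst
  -- the filtration
  have hKt : ∀ t, Measurable[F t ⊔ MeasurableSpace.comap (KK W t) inferInstance] (KK W t) := by
    intro t
    rw [measurable_iff_comap_le]
    exact le_sup_right
  have hFt : ∀ t, F t ≤ F t ⊔ MeasurableSpace.comap (KK W t) inferInstance := fun t => le_sup_left
  have hKs : ∀ s t, s ≤ t → Measurable[F t ⊔ MeasurableSpace.comap (KK W t) inferInstance] (KK W s) := by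
    intro s t hst
    have h1 : KK W s = fun ω => max (ssup (pm W ω) s t) (KK W t ω) := funext (hmax s t hst)
    rw [h1]
    exact (((hM1 s t hst).1).mono (hFt t) le_rfl).max (hKt t)
  let G : Filtration ℝ≥0 mΩ :=
    { seq := fun t => F t ⊔ MeasurableSpace.comap (KK W t) inferInstance
      mono' := by
        intro s t hst
        apply sup_le
        · exact (F.mono hst).trans (hFt t)
        · rw [← measurable_iff_comap_le]
          exact hKs s t hst
      le' := by
        intro t
        apply sup_le (F.le t)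
        rw [← measurable_iff_comap_le]
        exact hM2 t }
  have hG : ∀ t, G t = F t ⊔ MeasurableSpace.comap (KK W t) inferInstance := fun t => rfl
  have hA : ∀ t, Measurable[G t] (AA W t) := by
    intro t
    have h1 : Measurable[G t] (fun ω => jint (pm W ω) 0 t) := ((hM1 0 t (zero_le (a := t))).2.1).mono (hFt t) le_rfl
    have h2 : Measurable[G t] (KK W 0) := hKs 0 t (zero_le (a := t))
    have h3 : Measurable[G t] (KK W t) := hKt t
    exact h1.sub (measurable_const.mul (h2.sub h3))
  have hN : ∀ t, Measurable[G t] (NN W t) := by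
    intro t
    exact ((h.mm_meas le_rfl).mono (hFt t) le_rfl).sub (hA t)
  refine ⟨G, hG, hA, fun t => (hN t).stronglyMeasurable, fun s t hst => ?_⟩
  -- the difference has integral zero over all sets of `G s`
  have hd : Integrable (fun ω => NN W t ω - NN W s ω) P := (hint t).sub (hint s)
  have hall : ∀ (A : Set Ω) (k : ℝ), MeasurableSet[F s] A →
      ∫ ω in A ∩ {ω | k < KK W s ω}, (NN W t ω - NN W s ω) ∂P = 0 := by
    intro A k hA'
    rcases lt_or_ge 0 k with hk | hk
    · exact hzero s t k A hst hk hA'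
    · have hU : A ∩ {ω | k < KK W s ω} = ⋃ n : ℕ, A ∩ {ω | 1 / ((n : ℝ) + 1) < KK W s ω} := by
        ext ω
        simp only [mem_inter_iff, mem_setOf_eq, mem_iUnion]
        constructor
        · rintro ⟨h1, _⟩
          obtain ⟨n, hn⟩ := exists_nat_one_div_lt (hpos s ω)
          exact ⟨n, h1, hn⟩
        · rintro ⟨n, h1, _⟩
          exact ⟨h1, hk.trans_lt (hpos s ω)⟩
      have hmono : Monotone fun n : ℕ => A ∩ {ω | 1 / ((n : ℝ) + 1) < KK W s ω} := by
        intro m n hmn ω hω
        refine ⟨hω.1, ?_⟩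
        show 1 / ((n : ℝ) + 1) < KK W s ω
        refine lt_of_le_of_lt ?_ hω.2
        apply one_div_le_one_div_of_le (by positivity)
        have : (m : ℝ) ≤ n := by exact_mod_cast hmn
        linarith
      have hms : ∀ n : ℕ, MeasurableSet (A ∩ {ω | 1 / ((n : ℝ) + 1) < KK W s ω}) := fun n =>
        (F.le s _ hA').inter (measurableSet_lt measurable_const (hM2 s))
      have hlim := tendsto_setIntegral_of_monotone (μ := P) (f := fun ω => NN W t ω - NN W s ω)
        hms hmono hd.integrableOn
      rw [← hU] at hlim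
      have hz : (fun n : ℕ => ∫ ω in A ∩ {ω | 1 / ((n : ℝ) + 1) < KK W s ω}, (NN W t ω - NN W s ω) ∂P) =
          fun _ => 0 := by
        funext n
        exact hzero s t _ A hst (by positivity) hA'
      rw [hz] at hlim
      exact (tendsto_nhds_unique hlim tendsto_const_nhds)
  have htot : ∫ ω, (NN W t ω - NN W s ω) ∂P = 0 := by
    have h1 := hall univ 0 MeasurableSet.univ
    have h2 : univ ∩ {ω | 0 < KK W s ω} = (univ : Set Ω) := by
      ext ω; simp [hpos s ω]
    rw [h2, setIntegral_univ] at h1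
    exact h1
  have key : ∀ B, MeasurableSet[G s] B → ∫ ω in B, (NN W t ω - NN W s ω) ∂P = 0 := by
    have hgen : G s = MeasurableSpace.generateFrom (Cs F W s) := gen s (hpos s)
    refine @MeasurableSpace.induction_on_inter Ω (G s)
      (fun B _ => ∫ ω in B, (NN W t ω - NN W s ω) ∂P = 0) (Cs F W s) hgen (pi s) ?_ ?_ ?_ ?_
    · simp
    · rintro _ ⟨A, k, hA', rfl⟩
      exact hall A k hA'
    · intro B hB hz
      have h1 := integral_add_compl (μ := P) (G.le s _ hB) hd
      rw [hz, htot, zero_add] at h1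
      exact h1
    · intro f hf hm hz
      rw [integral_iUnion (fun i => G.le s _ (hm i)) hf hd.integrableOn]
      simp [hz]
  symm
  refine ae_eq_condExp_of_forall_setIntegral_eq (G.le s) (hint t) (fun B _ _ => (hint s).integrableOn)
    (fun B hB _ => ?_) (hN s).stronglyMeasurable.aestronglyMeasurable
  have h1 := key B hB
  rw [integral_sub (hint t).integrableOn (hint s).integrableOn] at h1
  linarith

end Pool.Agent.T2h33.RG
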