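import Pool.Agent.T2h33.RG.Basic

/-! Project RG, task PTH (helper33) -/

set_option autoImplicit false
set_option linter.all false

open MeasureTheory ProbabilityTheory Filter Topology Set
open scoped NNReal ENNReal

namespace Pool.Agent.T2h33.RG

namespace PTH

lemma osc_le {x : ℕ → ℝ} {c : ℝ} (hc : 0 ≤ c) : ∀ n : ℕ, (∀ j < n, |x (j + 1) - x j| ≤ c) →
    osc x n ≤ c
  | 0, _ => hc
  | n + 1, h => max_le (osc_le hc n fun j hj => h j (by omega)) (h n (by omega))

lemma osc_nonneg (x : ℕ → ℝ) : ∀ n : ℕ, 0 ≤ osc x n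
  | 0 => le_rfl
  | n + 1 => (osc_nonneg x n).trans (le_max_left _ _)

lemma mx_le {x : ℕ → ℝ} {c : ℝ} : ∀ n : ℕ, (∀ j ≤ n, x j ≤ c) → mx x n ≤ c
  | 0, h => h 0 le_rfl
  | n + 1, h => max_le (mx_le n fun j hj => h j (by omega)) (h (n + 1) le_rfl)

lemma le_mx {x : ℕ → ℝ} : ∀ (n : ℕ) (j : ℕ), j ≤ n → x j ≤ mx x n
  | 0, j, h => by
    obtain rfl : j = 0 := by omega
    exact le_rfl
  | n + 1, j, h => by
    rcases Nat.lt_or_ge n j with h1 | h1
    · obtain rfl : j = n + 1 := by omega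
      exact le_max_right _ _
    · exact (le_mx n j h1).trans (le_max_left _ _)

variable {s t : ℝ≥0}

lemma gp_coe (h : s ≤ t) (n j : ℕ) : (gp s t n j : ℝ) = s + j * (((t : ℝ) - s) / n) := by
  simp [gp, NNReal.coe_sub h]

lemma le_gp (s t : ℝ≥0) (n j : ℕ) : s ≤ gp s t n j := by
  unfold gp
  exact le_self_add

lemma gp_le (h : s ≤ t) {n j : ℕ} (hj : j ≤ n) : gp s t n j ≤ t := by
  rw [← NNReal.coe_le_coe, gp_coe h]
  have h0 : (0 : ℝ) ≤ (t : ℝ) - s := sub_nonneg.2 (by exact_mod_cast h)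
  rcases Nat.eq_zero_or_pos n with rfl | hn
  · simp
    exact_mod_cast h
  · have hn' : (0 : ℝ) < n := by exact_mod_cast hn
    have h1 : (j : ℝ) ≤ n := by exact_mod_cast hj
    have h2 : (j : ℝ) * (((t : ℝ) - s) / n) ≤ n * (((t : ℝ) - s) / n) :=
      mul_le_mul_of_nonneg_right h1 (div_nonneg h0 hn'.le)
    have h3 : (n : ℝ) * (((t : ℝ) - s) / n) = t - s := by field_simp
    linarith

lemma gp_self (h : s ≤ t) {n : ℕ} (hn : 1 ≤ n) : gp s t n n = t := by
  apply NNReal.coe_injective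
  rw [gp_coe h]
  have hn' : (n : ℝ) ≠ 0 := by
    have : (0 : ℝ) < n := by exact_mod_cast hn
    exact this.ne'
  field_simp
  ring

lemma gp_zero (s t : ℝ≥0) (n : ℕ) : gp s t n 0 = s := by simp [gp]

lemma gp_succ (h : s ≤ t) (n j : ℕ) :
    (gp s t n (j + 1) : ℝ) = gp s t n j + ((t : ℝ) - s) / n := by
  rw [gp_coe h, gp_coe h]
  push_cast
  ring

lemma gp_mem (h : s ≤ t) {n j : ℕ} (hj : j ≤ n) : gp s t n j ∈ Icc s t := ⟨le_gp s t n j, gp_le h hj⟩

lemma mesh (s t : ℝ≥0) {δ : ℝ} (hδ : 0 < δ) : ∀ᶠ n : ℕ in atTop, 1 ≤ n ∧ ((t : ℝ) - s) / n < δ := by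
  have h1 : Tendsto (fun n : ℕ => ((t : ℝ) - s) / n) atTop (𝓝 0) :=
    tendsto_const_div_atTop_nhds_zero_nat _
  exact (eventually_ge_atTop 1).and (h1.eventually (gt_mem_nhds hδ))

lemma uc {m : ℝ≥0 → ℝ} (hm : Continuous m) (s t : ℝ≥0) {ε : ℝ} (hε : 0 < ε) : ∃ δ > 0,
    ∀ x ∈ Icc s t, ∀ y ∈ Icc s t, |(x : ℝ) - y| < δ → |m x - m y| < ε := by
  have h := isCompact_Icc.uniformContinuousOn_of_continuous (s := Icc s t) hm.continuousOn
  rw [Metric.uniformContinuousOn_iff] at h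
  obtain ⟨δ, h1, h2⟩ := h ε hε
  exact ⟨δ, h1, fun x hx y hy hxy => by
    have := h2 x hx y hy (by rw [NNReal.dist_eq]; exact hxy)
    rwa [Real.dist_eq] at this⟩

lemma t1 {m : ℝ≥0 → ℝ} (hm : Continuous m) (h : s ≤ t) :
    Tendsto (fun n : ℕ => osc (fun j => m (gp s t n j)) n) atTop (𝓝 0) := by
  rw [Metric.tendsto_nhds]
  intro ε hε
  obtain ⟨δ, h1, h2⟩ := uc hm s t (half_pos hε)
  filter_upwards [mesh s t h1] with n hn
  rw [Real.dist_eq, sub_zero, abs_of_nonneg (osc_nonneg _ _)]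
  refine lt_of_le_of_lt (osc_le (half_pos hε).le n fun j hj => ?_) (half_lt_self hε)
  refine (h2 _ (gp_mem h (by omega)) _ (gp_mem h (by omega)) ?_).le
  rw [gp_succ h, add_sub_cancel_left, abs_of_nonneg]
  · exact hn.2
  · exact div_nonneg (sub_nonneg.2 (by exact_mod_cast h)) (Nat.cast_nonneg _)

lemma bdd {m : ℝ≥0 → ℝ} (hm : Continuous m) (s t : ℝ≥0) : BddAbove (m '' Icc s t) :=
  (isCompact_Icc.image hm).bddAbove

lemma le_ss {m : ℝ≥0 → ℝ} (hm : Continuous m) {u : ℝ≥0} (hu : u ∈ Icc s t) : m u ≤ ssup m s t :=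
  le_csSup (bdd hm s t) (mem_image_of_mem _ hu)

lemma t2 {m : ℝ≥0 → ℝ} (hm : Continuous m) (h : s ≤ t) :
    Tendsto (fun n : ℕ => mx (fun j => m (gp s t n j)) n) atTop (𝓝 (ssup m s t)) := by
  have hne : (Icc s t).Nonempty := ⟨s, le_rfl, h⟩
  obtain ⟨u, hu, hmax⟩ := isCompact_Icc.exists_isMaxOn hne hm.continuousOn
  have hsu : ssup m s t = m u := by
    apply le_antisymm
    · unfold ssup
      apply csSup_le (hne.image m)
      rintro _ ⟨v, hv, rfl⟩
      exact hmax hv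
    · exact le_ss hm hu
  rw [Metric.tendsto_nhds]
  intro ε hε
  obtain ⟨δ, h1, h2⟩ := uc hm s t hε
  filter_upwards [mesh s t h1] with n hn
  have hup : mx (fun j => m (gp s t n j)) n ≤ m u := mx_le n fun j hj => hmax (gp_mem h hj)
  obtain ⟨j, hj, hju⟩ : ∃ j ≤ n, |(u : ℝ) - gp s t n j| < δ := by
    have hn' : (0 : ℝ) < n := by exact_mod_cast hn.1
    rcases h.eq_or_lt with he | hlt
    · refine ⟨0, Nat.zero_le _, ?_⟩
      rw [gp_zero]
      have : u = s := le_antisymm (hu.2.trans he.ge) hu.1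
      rw [this, sub_self, abs_zero]
      exact h1
    · have hlt' : (0 : ℝ) < (t : ℝ) - s := sub_pos.2 (by exact_mod_cast hlt)
      have hu1 : (s : ℝ) ≤ u := by exact_mod_cast hu.1
      have hu2 : (u : ℝ) ≤ t := by exact_mod_cast hu.2
      have hΔ : (0 : ℝ) < ((t : ℝ) - s) / n := div_pos hlt' hn'
      refine ⟨⌊((u : ℝ) - s) / (((t : ℝ) - s) / n)⌋₊, ?_, ?_⟩
      · rw [← Nat.cast_le (α := ℝ)]
        refine (Nat.floor_le (div_nonneg (by linarith) hΔ.le)).trans ?_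
        rw [div_le_iff₀ hΔ]
        have : (n : ℝ) * (((t : ℝ) - s) / n) = t - s := by field_simp
        rw [this]
        linarith
      · rw [gp_coe h]
        have e1 := Nat.floor_le (div_nonneg (by linarith : (0 : ℝ) ≤ (u : ℝ) - s) hΔ.le)
        have e2 := Nat.lt_floor_add_one (((u : ℝ) - s) / (((t : ℝ) - s) / n))
        rw [le_div_iff₀ hΔ] at e1
        rw [div_lt_iff₀ hΔ] at e2
        rw [abs_lt]
        constructor
        · nlinarith [hn.2]
        · nlinarith [hn.2]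
  have hlow : m (gp s t n j) ≤ mx (fun j => m (gp s t n j)) n := le_mx (x := fun j => m (gp s t n j)) n j hj
  have h3 := h2 u hu _ (gp_mem h hj) hju
  rw [abs_lt] at h3
  rw [hsu, Real.dist_eq, abs_lt]
  constructor <;> linarith

lemma t3 {m : ℝ≥0 → ℝ} (hm : Continuous m) (h : s ≤ t) :
    Tendsto (fun n : ℕ => sm (fun j => m (gp s t n j)) (((t : ℝ) - s) / n) n) atTop
      (𝓝 (jint m s t)) := by
  have h0 : (0 : ℝ) ≤ (t : ℝ) - s := sub_nonneg.2 (by exact_mod_cast h)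
  rw [Metric.tendsto_nhds]
  intro ε hε
  have hε' : 0 < ε / ((t : ℝ) - s + 1) := div_pos hε (by linarith)
  obtain ⟨δ, h1, h2⟩ := uc hm s t hε'
  filter_upwards [mesh s t h1] with n hn
  have hn' : (0 : ℝ) < n := by exact_mod_cast hn.1
  set Δ : ℝ := ((t : ℝ) - s) / n with hΔ
  have hΔ0 : 0 ≤ Δ := div_nonneg h0 hn'.le
  have hcont : Continuous fun u : ℝ => m u.toNNReal := hm.comp continuous_real_toNNReal
  have hsum : jint m s t = ∑ j ∈ Finset.range n,
      ∫ u in (gp s t n j : ℝ)..(gp s t n (j + 1) : ℝ), m u.toNNReal := by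
    unfold jint
    rw [intervalIntegral.sum_integral_adjacent_intervals (a := fun j => (gp s t n j : ℝ))
      (fun k _ => hcont.intervalIntegrable _ _)]
    rw [gp_zero, gp_self h hn.1]
  have hterm : ∀ j ∈ Finset.range n, |Δ * m (gp s t n j) -
      ∫ u in (gp s t n j : ℝ)..(gp s t n (j + 1) : ℝ), m u.toNNReal| ≤
        ε / ((t : ℝ) - s + 1) * Δ := by
    intro j hj
    rw [Finset.mem_range] at hj
    have e1 : Δ * m (gp s t n j) = ∫ u in (gp s t n j : ℝ)..(gp s t n (j + 1) : ℝ), m (gp s t n j) := by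
      rw [intervalIntegral.integral_const, gp_succ h, add_sub_cancel_left, smul_eq_mul]
    rw [e1, ← intervalIntegral.integral_sub (by simp) (hcont.intervalIntegrable _ _)]
    have e2 : |(gp s t n (j + 1) : ℝ) - gp s t n j| = Δ := by
      rw [gp_succ h, add_sub_cancel_left, abs_of_nonneg hΔ0]
    rw [← e2]
    rw [← Real.norm_eq_abs]
    refine intervalIntegral.norm_integral_le_of_norm_le_const fun u hu => ?_
    rw [uIoc_of_le (by rw [gp_succ h]; linarith)] at hu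
    have hj1 := gp_mem h (n := n) (j := j) (by omega)
    have hj2 := gp_mem h (n := n) (j := j + 1) (by omega)
    have hu0 : 0 ≤ u := le_trans (NNReal.coe_nonneg _) hu.1.le
    have huc : (u.toNNReal : ℝ) = u := Real.coe_toNNReal u hu0
    have hmem : u.toNNReal ∈ Icc s t := by
      constructor
      · rw [← NNReal.coe_le_coe, huc]
        exact le_trans (by exact_mod_cast hj1.1) hu.1.le
      · rw [← NNReal.coe_le_coe, huc]
        exact hu.2.trans (by exact_mod_cast hj2.2)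
    rw [Real.norm_eq_abs]
    refine (h2 _ hj1 _ hmem ?_).le
    rw [huc, abs_lt]
    have h5 := hu.2
    rw [gp_succ h] at h5
    constructor
    · linarith [hn.2]
    · linarith [hu.1]
  have hsm : sm (fun j => m (gp s t n j)) Δ n = ∑ j ∈ Finset.range n, Δ * m (gp s t n j) := by
    unfold sm
    rw [Finset.mul_sum]
  rw [Real.dist_eq, hsm, hsum, ← Finset.sum_sub_distrib]
  refine lt_of_le_of_lt (Finset.abs_sum_le_sum_abs _ _) ?_
  refine lt_of_le_of_lt (Finset.sum_le_sum hterm) ?_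
  rw [Finset.sum_const, Finset.card_range, nsmul_eq_mul]
  have e3 : (n : ℝ) * (ε / ((t : ℝ) - s + 1) * Δ) = ε / ((t : ℝ) - s + 1) * ((t : ℝ) - s) := by
    rw [hΔ]
    field_simp
  rw [e3, div_mul_eq_mul_div, div_lt_iff₀ (by linarith)]
  nlinarith

end PTH

theorem t_PTH : S_PTH := by
  intro m hm s t h
  refine ⟨PTH.t1 hm h, PTH.t2 hm h, PTH.t3 hm h, fun n j hj => ⟨PTH.le_gp s t n j, PTH.gp_le h hj, ?_⟩,
    fun n hn => PTH.gp_self h hn⟩
  exact PTH.mx_le j fun i hi => PTH.le_ss hm (PTH.gp_mem h (by omega))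

end Pool.Agent.T2h33.RG
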